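import Mathlib

/-!
Basic analysis of real functions on the Boolean cube `ι → Bool`.
-/

set_option autoImplicit false

open Finset

namespace PTFT

/-! ### Averages over finite types -/

/-- Average of a real function over a finite type. -/
noncomputable def av {α : Type*} [Fintype α] (f : α → ℝ) : ℝ :=
  (∑ a, f a) / (Fintype.card α : ℝ)

section av

variable {α β : Type*} [Fintype α] [Fintype β]

lemma av_add (f g : α → ℝ) : av (fun a => f a + g a) = av f + av g := by
  simp [av, Finset.sum_add_distrib, add_div]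

lemma av_sub (f g : α → ℝ) : av (fun a => f a - g a) = av f - av g := by
  simp [av, Finset.sum_sub_distrib, sub_div]

lemma av_neg (f : α → ℝ) : av (fun a => - f a) = - av f := by
  simp [av, neg_div]

lemma av_mul_left (c : ℝ) (f : α → ℝ) : av (fun a => c * f a) = c * av f := by
  simp [av, ← Finset.mul_sum, mul_div_assoc]

lemma av_mul_right (c : ℝ) (f : α → ℝ) : av (fun a => f a * c) = av f * c := by
  simp [av, ← Finset.sum_mul, div_mul_eq_mul_div]

lemma av_div (c : ℝ) (f : α → ℝ) : av (fun a => f a / c) = av f / c := by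
  simp only [div_eq_mul_inv]
  exact av_mul_right _ _

lemma card_pos' [Nonempty α] : (0 : ℝ) < (Fintype.card α : ℝ) := by
  exact_mod_cast Fintype.card_pos

lemma av_const [Nonempty α] (c : ℝ) : av (fun _ : α => c) = c := by
  have := card_pos' (α := α)
  simp only [av, Finset.sum_const, Finset.card_univ, nsmul_eq_mul]
  field_simp

lemma av_zero : av (fun _ : α => (0 : ℝ)) = 0 := by simp [av]

lemma av_sum {κ : Type*} (s : Finset κ) (f : κ → α → ℝ) :
    av (fun a => ∑ k ∈ s, f k a) = ∑ k ∈ s, av (f k) := by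
  simp only [av]
  rw [Finset.sum_comm, Finset.sum_div]

lemma av_mono {f g : α → ℝ} (h : ∀ a, f a ≤ g a) : av f ≤ av g := by
  unfold av
  gcongr
  exact h _

lemma av_nonneg {f : α → ℝ} (h : ∀ a, 0 ≤ f a) : 0 ≤ av f := by
  unfold av
  exact div_nonneg (Finset.sum_nonneg fun a _ => h a) (Nat.cast_nonneg _)

lemma av_congr {f g : α → ℝ} (h : ∀ a, f a = g a) : av f = av g := by
  have : f = g := funext h
  rw [this]

lemma av_equiv (e : α ≃ β) (f : β → ℝ) : av (fun a => f (e a)) = av f := by
  unfold av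
  rw [Fintype.card_congr e, Equiv.sum_comp e f]

lemma av_prod (f : α × β → ℝ) : av f = av (fun a => av (fun b => f (a, b))) := by
  unfold av
  rw [Fintype.sum_prod_type, Fintype.card_prod, Nat.cast_mul]
  rw [← Finset.sum_div, div_div, mul_comm]

lemma av_comm (f : α → β → ℝ) :
    av (fun a => av (fun b => f a b)) = av (fun b => av (fun a => f a b)) := by
  unfold av
  simp only [← Finset.sum_div, div_div]
  rw [Finset.sum_comm, mul_comm]

lemma abs_av_le (f : α → ℝ) : |av f| ≤ av (fun a => |f a|) := by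
  unfold av
  rw [abs_div, abs_of_nonneg (Nat.cast_nonneg _ : (0 : ℝ) ≤ (Fintype.card α : ℝ))]
  gcongr
  exact Finset.abs_sum_le_sum_abs _ _

/-- Cauchy-Schwarz. -/
lemma av_mul_sq_le (f g : α → ℝ) :
    (av (fun a => f a * g a)) ^ 2 ≤ av (fun a => f a ^ 2) * av (fun a => g a ^ 2) := by
  unfold av
  rw [div_pow, div_mul_div_comm, sq (Fintype.card α : ℝ)]
  gcongr
  exact Finset.sum_mul_sq_le_sq_mul_sq _ _ _

lemma av_sq_le (f : α → ℝ) [Nonempty α] : (av f) ^ 2 ≤ av (fun a => f a ^ 2) := by
  have := av_mul_sq_le f (fun _ => 1)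
  simpa [av_const] using this

/-- probability of a predicate -/
noncomputable def pr (P : α → Prop) : ℝ := by
  classical exact av (fun a => if P a then (1 : ℝ) else 0)

open Classical in
lemma pr_def (P : α → Prop) : pr P = av (fun a => if P a then (1 : ℝ) else 0) := by
  unfold pr
  congr

lemma pr_eq (P : α → Prop) [DecidablePred P] : pr P = av (fun a => if P a then (1 : ℝ) else 0) := by
  rw [pr_def]; apply av_congr; intro a; congr

lemma pr_nonneg (P : α → Prop) : 0 ≤ pr P := by
  classical
  rw [pr_def]; apply av_nonneg; intro a; split_ifs <;> norm_num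

lemma pr_le_one (P : α → Prop) : pr P ≤ 1 := by
  classical
  rw [pr_def]
  cases isEmpty_or_nonempty α
  · simp [av]
  · calc av (fun a => if P a then (1 : ℝ) else 0) ≤ av (fun _ : α => (1 : ℝ)) := by
          apply av_mono; intro a; split_ifs <;> norm_num
      _ = 1 := av_const 1

lemma pr_mono {P Q : α → Prop} (h : ∀ a, P a → Q a) : pr P ≤ pr Q := by
  classical
  rw [pr_def, pr_def]; apply av_mono; intro a
  by_cases hP : P a
  · simp [hP, h a hP]
  · simp only [hP, if_false]; split_ifs <;> norm_num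

lemma pr_congr {P Q : α → Prop} (h : ∀ a, P a ↔ Q a) : pr P = pr Q :=
  le_antisymm (pr_mono fun a => (h a).1) (pr_mono fun a => (h a).2)

lemma pr_or_le (P Q : α → Prop) : pr (fun a => P a ∨ Q a) ≤ pr P + pr Q := by
  classical
  rw [pr_def, pr_def, pr_def, ← av_add]; apply av_mono; intro a
  by_cases hP : P a <;> by_cases hQ : Q a <;> simp [hP, hQ]

/-- union bound in the form: if `P` implies `Q` or `R`. -/
lemma pr_le_add {P Q R : α → Prop} (h : ∀ a, P a → Q a ∨ R a) : pr P ≤ pr Q + pr R :=
  (pr_mono h).trans (pr_or_le Q R)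

lemma pr_exists_le {κ : Type*} (s : Finset κ) (P : κ → α → Prop) :
    pr (fun a => ∃ k ∈ s, P k a) ≤ ∑ k ∈ s, pr (P k) := by
  classical
  simp only [pr_def]
  rw [← av_sum]; apply av_mono; intro a
  split_ifs with h
  · obtain ⟨k, hk, hP⟩ := h
    calc (1 : ℝ) = if P k a then 1 else 0 := by simp [hP]
      _ ≤ _ := Finset.single_le_sum (f := fun k => if P k a then (1 : ℝ) else 0)
          (fun i _ => by split_ifs <;> norm_num) hk
  · apply Finset.sum_nonneg; intro i _; split_ifs <;> norm_num

lemma pr_not (P : α → Prop) [Nonempty α] : pr (fun a => ¬ P a) = 1 - pr P := by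
  classical
  have h1 : pr P + pr (fun a => ¬ P a) = 1 := by
    rw [pr_def, pr_def, ← av_add]
    refine Eq.trans (av_congr (g := fun _ => (1 : ℝ)) ?_) (av_const 1)
    intro a
    by_cases hP : P a <;> simp [hP]
  linarith

lemma pr_and_add_pr_and_not (P Q : α → Prop) :
    pr (fun a => P a ∧ Q a) + pr (fun a => P a ∧ ¬ Q a) = pr P := by
  classical
  rw [pr_def, pr_def, pr_def, ← av_add]
  apply av_congr; intro a
  by_cases hP : P a <;> by_cases hQ : Q a <;> simp [hP, hQ]

lemma pr_equiv (e : α ≃ β) (P : β → Prop) : pr (fun a => P (e a)) = pr P := by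
  classical
  rw [pr_def, pr_def]
  exact av_equiv e (fun b => if P b then (1 : ℝ) else 0)

lemma pr_prod (P : α × β → Prop) : pr P = av (fun a => pr (fun b => P (a, b))) := by
  classical
  rw [pr_def, av_prod]
  apply av_congr; intro a
  rw [pr_def]

/-- Markov -/
lemma pr_le_of_av {f : α → ℝ} (hf : ∀ a, 0 ≤ f a) {t : ℝ} (ht : 0 < t) :
    pr (fun a => t ≤ f a) ≤ av f / t := by
  classical
  rw [pr_def, ← av_div]
  apply av_mono; intro a
  split_ifs with h
  · rw [le_div_iff₀ ht]; linarith
  · exact div_nonneg (hf a) ht.le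

lemma pr_lt_le_of_av {f : α → ℝ} (hf : ∀ a, 0 ≤ f a) {t : ℝ} (ht : 0 < t) :
    pr (fun a => t < f a) ≤ av f / t :=
  (pr_mono fun _ h => le_of_lt h).trans (pr_le_of_av hf ht)

/-- second moment Markov -/
lemma pr_abs_ge_le {f : α → ℝ} {t : ℝ} (ht : 0 < t) :
    pr (fun a => t ≤ |f a|) ≤ av (fun a => f a ^ 2) / t ^ 2 := by
  calc pr (fun a => t ≤ |f a|) ≤ pr (fun a => t ^ 2 ≤ f a ^ 2) := by
        apply pr_mono; intro a h
        rw [← sq_abs (f a)]; gcongr
    _ ≤ _ := pr_le_of_av (fun a => sq_nonneg _) (by positivity)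

/-- a weighted bound -/
lemma av_le_pr_add {f : α → ℝ} {P : α → Prop} {c : ℝ} (hc : 0 ≤ c)
    (h1 : ∀ a, f a ≤ 1) (h2 : ∀ a, ¬ P a → f a ≤ c) [Nonempty α] : av f ≤ pr P + c := by
  classical
  rw [pr_def, ← av_const (α := α) c, ← av_add]
  apply av_mono; intro a
  by_cases hP : P a
  · simp only [hP, if_true]; linarith [h1 a]
  · simp only [hP, if_false]; linarith [h2 a hP]

/-- Paley-Zygmund -/
lemma paley_zygmund {N : α → ℝ} {B : ℝ} (hB : 0 < B)
    (h4 : av (fun a => N a ^ 2) ≤ B * (av N) ^ 2) (hpos : 0 < av N) [Nonempty α] :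
    1 / (4 * B) ≤ pr (fun a => av N / 2 ≤ N a) := by
  classical
  set m := av N with hm
  set I : α → ℝ := fun a => if m / 2 ≤ N a then (1 : ℝ) else 0 with hI
  have h1 : m ≤ m / 2 + av (fun a => N a * I a) := by
    calc m = av N := hm
      _ ≤ av (fun a => m / 2 + N a * I a) := by
          apply av_mono; intro a
          by_cases h : m / 2 ≤ N a
          · simp only [hI, h, if_true]; linarith
          · simp only [hI, h, if_false]; linarith
      _ = _ := by rw [av_add, av_const]
  have h2 := av_mul_sq_le N I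
  have h3 : av (fun a => I a ^ 2) = pr (fun a => m / 2 ≤ N a) := by
    rw [pr_def]; apply av_congr; intro a
    simp only [hI]; split_ifs <;> norm_num
  rw [h3] at h2
  have h5 : (m / 2) ^ 2 ≤ (av (fun a => N a * I a)) ^ 2 := by
    apply pow_le_pow_left₀ (by positivity); linarith
  have h6 : (m / 2) ^ 2 ≤ B * m ^ 2 * pr (fun a => m / 2 ≤ N a) :=
    h5.trans (h2.trans (mul_le_mul_of_nonneg_right h4 (pr_nonneg _)))
  rw [div_le_iff₀ (by positivity)]
  have h7 : m ^ 2 * (1 : ℝ) ≤ m ^ 2 * (pr (fun a => m / 2 ≤ N a) * (4 * B)) := by nlinarith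
  exact le_of_mul_le_mul_left h7 (by positivity)

end av

end PTFT
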