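import Pool.Agent.PTFT.Cube

/-!
Derivatives, influences, and the Bonami (hypercontractive) inequality for fourth moments.
-/

set_option autoImplicit false
set_option linter.unusedSectionVars false
set_option linter.unusedVariables false

open Finset

namespace PTFT

variable {ι : Type*} [Fintype ι] [DecidableEq ι]

/-- discrete derivative -/
noncomputable def dd (i : ι) (f : (ι → Bool) → ℝ) (x : ι → Bool) : ℝ :=
  sg (x i) * (f x - f (flip i x)) / 2

/-- average over the coordinate `i` -/
noncomputable def ee (i : ι) (f : (ι → Bool) → ℝ) (x : ι → Bool) : ℝ :=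
  (f x + f (flip i x)) / 2

/-- influence -/
noncomputable def infl (i : ι) (f : (ι → Bool) → ℝ) : ℝ := av (fun x => dd i f x ^ 2)

lemma eq_dd_ee (i : ι) (f : (ι → Bool) → ℝ) (x : ι → Bool) :
    f x = sg (x i) * dd i f x + ee i f x := by
  unfold dd ee
  have := sg_mul_self (x i)
  linear_combination (-(f x - f (flip i x)) / 2) * this

lemma dd_flip (i : ι) (f : (ι → Bool) → ℝ) (x : ι → Bool) : dd i f (flip i x) = dd i f x := by
  unfold dd; simp; ring

lemma ee_flip (i : ι) (f : (ι → Bool) → ℝ) (x : ι → Bool) : ee i f (flip i x) = ee i f x := by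
  unfold ee; simp; ring

lemma flip_comm (i j : ι) (x : ι → Bool) : flip i (flip j x) = flip j (flip i x) := by
  funext k
  by_cases hi : k = i <;> by_cases hj : k = j
  · subst hi; subst hj; rfl
  · subst hi; rw [flip_same, flip_ne hj, flip_ne hj, flip_same]
  · subst hj; rw [flip_same, flip_ne hi, flip_same, flip_ne hi]
  · rw [flip_ne hi, flip_ne hj, flip_ne hj, flip_ne hi]

lemma dd_flip_of_inv {i j : ι} (hij : j ≠ i) {f : (ι → Bool) → ℝ} (h : ∀ x, f (flip j x) = f x)
    (x : ι → Bool) : dd i f (flip j x) = dd i f x := by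
  unfold dd; rw [flip_comm i j, h, h, flip_ne hij.symm]

lemma ee_flip_of_inv {i j : ι} {f : (ι → Bool) → ℝ} (h : ∀ x, f (flip j x) = f x)
    (x : ι → Bool) : ee i f (flip j x) = ee i f x := by
  unfold ee; rw [flip_comm i j, h, h]

lemma coef_flip (i : ι) (f : (ι → Bool) → ℝ) (S : Finset ι) :
    coef (fun x => f (flip i x)) S = if i ∈ S then - coef f S else coef f S := by
  have h1 : coef (fun x => f (flip i x)) S = av (fun x => f x * chi S (flip i x)) := by
    unfold coef
    rw [← av_flip i (fun x => f x * chi S (flip i x))]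
    apply av_congr; intro x; simp
  rw [h1]
  split_ifs with h
  · unfold coef; rw [← av_neg]; apply av_congr; intro x; rw [chi_flip_of_mem h]; ring
  · unfold coef; apply av_congr; intro x; rw [chi_flip_of_notMem h]

lemma coef_dd (i : ι) (f : (ι → Bool) → ℝ) (S : Finset ι) :
    coef (dd i f) S = if i ∈ S then 0 else coef f (insert i S) := by
  have hsg : ∀ x : ι → Bool, sg (x i) = chi {i} x := by intro x; simp [chi]
  have h1 : coef (dd i f) S = coef (fun x => (1 / 2 : ℝ) * (f x - f (flip i x))) (symmDiff {i} S) := by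
    unfold coef; apply av_congr; intro x
    rw [← chi_mul]
    unfold dd; rw [hsg]; ring
  rw [h1, coef_smul, coef_sub, coef_flip]
  by_cases h : i ∈ S
  · rw [if_pos h, if_neg]
    · ring
    · simp [Finset.mem_symmDiff, h]
  · rw [if_neg h, if_pos]
    · have : symmDiff {i} S = insert i S := by
        ext j; simp only [Finset.mem_symmDiff, mem_singleton, mem_insert]
        constructor
        · tauto
        · rintro (rfl | hj)
          · exact Or.inl ⟨rfl, h⟩
          · by_cases hji : j = i
            · subst hji; exact absurd hj h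
            · exact Or.inr ⟨hj, hji⟩
      rw [this]; ring
    · simp [Finset.mem_symmDiff, h]

lemma coef_ee (i : ι) (f : (ι → Bool) → ℝ) (S : Finset ι) :
    coef (ee i f) S = if i ∈ S then 0 else coef f S := by
  have h1 : coef (ee i f) S = coef (fun x => (1 / 2 : ℝ) * (f x + f (flip i x))) S := by
    unfold coef; apply av_congr; intro x
    unfold ee; ring
  rw [h1, coef_smul, coef_add, coef_flip]
  split_ifs <;> ring

lemma degLE.dd {d : ℕ} {f : (ι → Bool) → ℝ} (hf : degLE (d + 1) f) (i : ι) :
    degLE d (dd i f) := by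
  intro S hS
  rw [coef_dd]
  split_ifs with h
  · rfl
  · apply hf; rw [Finset.card_insert_of_notMem h]; omega

lemma degLE.dd' {d : ℕ} {f : (ι → Bool) → ℝ} (hf : degLE d f) (i : ι) :
    degLE d (PTFT.dd i f) := by
  intro S hS
  rw [coef_dd]
  split_ifs with h
  · rfl
  · apply hf; rw [Finset.card_insert_of_notMem h]; omega

lemma degLE.ee {d : ℕ} {f : (ι → Bool) → ℝ} (hf : degLE d f) (i : ι) : degLE d (ee i f) := by
  intro S hS
  rw [coef_ee]
  split_ifs with h
  · rfl
  · exact hf S hS

lemma degLE_zero_iff {f : (ι → Bool) → ℝ} (hf : degLE 0 f) (x : ι → Bool) : f x = coef f ∅ := by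
  conv_lhs => rw [fourier f x]
  rw [Finset.sum_eq_single ∅]
  · simp
  · intro S _ hS
    rw [hf S (Finset.card_pos.2 (Finset.nonempty_iff_ne_empty.2 hS)), zero_mul]
  · simp

lemma const_of_flip_inv {f : (ι → Bool) → ℝ} (h : ∀ i x, f (flip i x) = f x) : degLE 0 f := by
  intro S hS
  obtain ⟨i, hi⟩ := Finset.card_pos.1 hS
  have := coef_flip i f S
  rw [if_pos hi] at this
  have h2 : (fun x => f (flip i x)) = f := funext (h i)
  rw [h2] at this
  linarith

lemma av_sq_decomp (i : ι) (f : (ι → Bool) → ℝ) :
    av (fun x => f x ^ 2) = av (fun x => dd i f x ^ 2) + av (fun x => ee i f x ^ 2) := by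
  have h : ∀ x, f x ^ 2 = (dd i f x ^ 2 + ee i f x ^ 2) + sg (x i) * (2 * dd i f x * ee i f x) := by
    intro x
    have h1 := eq_dd_ee i f x
    have h2 := sg_sq (x i)
    calc f x ^ 2 = (sg (x i) * dd i f x + ee i f x) ^ 2 := by rw [← h1]
      _ = _ := by linear_combination (dd i f x ^ 2) * h2
  rw [av_congr h, av_add, av_add]
  have h0 : av (fun x => sg (x i) * (2 * dd i f x * ee i f x)) = 0 := by
    apply av_eq_zero_of_flip i; intro x
    rw [dd_flip, ee_flip, flip_same, sg_not]; ring
  rw [h0, add_zero]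

/-- Bonami's lemma -/
lemma bonami_aux (A : Finset ι) : ∀ (d : ℕ) (f : (ι → Bool) → ℝ),
    (∀ i, i ∉ A → ∀ x, f (flip i x) = f x) → degLE d f →
    av (fun x => f x ^ 4) ≤ 9 ^ d * (av (fun x => f x ^ 2)) ^ 2 := by
  have hconst : ∀ (d : ℕ) (f : (ι → Bool) → ℝ), degLE 0 f →
    av (fun x => f x ^ 4) ≤ 9 ^ d * (av (fun x => f x ^ 2)) ^ 2 := by
    intro d f h0
    have : ∀ x, f x = coef f ∅ := degLE_zero_iff h0
    rw [av_congr (g := fun _ => coef f ∅ ^ 4) (fun x => by rw [this x]),
      av_congr (f := fun x => f x ^ 2) (g := fun _ => coef f ∅ ^ 2) (fun x => by rw [this x]),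
      av_const, av_const]
    have h9 : (1 : ℝ) ≤ 9 ^ d := one_le_pow₀ (by norm_num)
    nlinarith [sq_nonneg (coef f ∅ ^ 2)]
  induction A using Finset.induction_on with
  | empty =>
    intro d f hinv hdeg
    exact hconst d f (const_of_flip_inv (fun i x => hinv i (Finset.notMem_empty i) x))
  | insert i A hi ih =>
    intro d f hinv hdeg
    cases d with
    | zero => exact hconst 0 f hdeg
    | succ d =>
      set g := dd i f with hg
      set h := ee i f with hh
      have hginv : ∀ j, j ∉ A → ∀ x, g (flip j x) = g x := by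
        intro j hj x
        by_cases hji : j = i
        · subst hji; exact dd_flip _ _ _
        · exact dd_flip_of_inv hji (hinv j (by simp [hji, hj])) x
      have hhinv : ∀ j, j ∉ A → ∀ x, h (flip j x) = h x := by
        intro j hj x
        by_cases hji : j = i
        · subst hji; exact ee_flip _ _ _
        · exact ee_flip_of_inv (hinv j (by simp [hji, hj])) x
      have Hg := ih d g hginv (hdeg.dd i)
      have Hh := ih (d + 1) h hhinv (hdeg.ee i)
      have h4 : av (fun x => f x ^ 4)
          = av (fun x => g x ^ 4) + 6 * av (fun x => g x ^ 2 * h x ^ 2) + av (fun x => h x ^ 4) := by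
        have e : ∀ x, f x ^ 4 = ((g x ^ 4 + 6 * (g x ^ 2 * h x ^ 2)) + h x ^ 4)
            + sg (x i) * (4 * g x ^ 3 * h x + 4 * g x * h x ^ 3) := by
          intro x
          have h1 := eq_dd_ee i f x
          have h2 := sg_sq (x i)
          calc f x ^ 4 = (sg (x i) * g x + h x) ^ 4 := by rw [← h1]
            _ = _ := by
              linear_combination (g x ^ 4 * (sg (x i) ^ 2 + 1) + 4 * g x ^ 3 * h x * sg (x i)
                + 6 * g x ^ 2 * h x ^ 2) * h2
        rw [av_congr e, av_add, av_add, av_add, av_mul_left]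
        have h0 : av (fun x => sg (x i) * (4 * g x ^ 3 * h x + 4 * g x * h x ^ 3)) = 0 := by
          apply av_eq_zero_of_flip i; intro x
          rw [hginv i hi, hhinv i hi, flip_same, sg_not]; ring
        rw [h0, add_zero]
      have h2 : av (fun x => f x ^ 2) = av (fun x => g x ^ 2) + av (fun x => h x ^ 2) :=
        av_sq_decomp i f
      have hcs := av_mul_sq_le (fun x => g x ^ 2) (fun x => h x ^ 2)
      simp only [← pow_mul] at hcs
      norm_num at hcs
      set a := av (fun x => g x ^ 2) with ha
      set b := av (fun x => h x ^ 2) with hb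
      set m := av (fun x => g x ^ 2 * h x ^ 2) with hm
      have ha0 : 0 ≤ a := av_nonneg fun x => sq_nonneg _
      have hb0 : 0 ≤ b := av_nonneg fun x => sq_nonneg _
      have hm0 : 0 ≤ m := av_nonneg fun x => mul_nonneg (sq_nonneg _) (sq_nonneg _)
      have h9 : (0 : ℝ) < 9 ^ d := by positivity
      have hg40 : 0 ≤ av (fun x => g x ^ 4) := av_nonneg fun x => by positivity
      have hm2 : m ≤ 3 * 9 ^ d * a * b := by
        apply le_of_sq_le_sq _ (by positivity)
        calc m ^ 2 ≤ av (fun x => g x ^ 4) * av (fun x => h x ^ 4) := hcs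
          _ ≤ (9 ^ d * a ^ 2) * (9 ^ (d + 1) * b ^ 2) := by
              apply mul_le_mul Hg Hh (av_nonneg fun x => by positivity) (by positivity)
          _ = (3 * 9 ^ d * a * b) ^ 2 := by rw [pow_succ]; ring
      rw [h4, h2]
      rw [pow_succ] at Hh ⊢
      nlinarith [mul_nonneg ha0 hb0, mul_nonneg h9.le (sq_nonneg a)]

lemma bonami {d : ℕ} {f : (ι → Bool) → ℝ} (hf : degLE d f) :
    av (fun x => f x ^ 4) ≤ 9 ^ d * (av (fun x => f x ^ 2)) ^ 2 :=
  bonami_aux Finset.univ d f (fun i hi => absurd (Finset.mem_univ i) hi) hf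

end PTFT
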