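import Pool.Agent.PTFT.Basic

/-!
Fourier analysis on the Boolean cube `ι → Bool`.
-/

set_option autoImplicit false
set_option linter.unusedSectionVars false
set_option linter.unusedVariables false

open Finset

namespace PTFT

variable {ι : Type*} [Fintype ι] [DecidableEq ι]

/-- sign of a Boolean: `true` is `1`, `false` is `-1`. -/
def sg (b : Bool) : ℝ := if b then 1 else -1

@[simp] lemma sg_true : sg true = 1 := rfl
@[simp] lemma sg_false : sg false = -1 := by simp [sg]
@[simp] lemma sg_mul_self (b : Bool) : sg b * sg b = 1 := by cases b <;> simp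
@[simp] lemma sg_sq (b : Bool) : sg b ^ 2 = 1 := by cases b <;> simp
@[simp] lemma sg_not (b : Bool) : sg (!b) = - sg b := by cases b <;> simp
@[simp] lemma abs_sg (b : Bool) : |sg b| = 1 := by cases b <;> simp
lemma sg_ne_zero (b : Bool) : sg b ≠ 0 := by cases b <;> simp

/-- characters -/
def chi (S : Finset ι) (x : ι → Bool) : ℝ := ∏ i ∈ S, sg (x i)

omit [Fintype ι] [DecidableEq ι] in
@[simp] lemma chi_empty (x : ι → Bool) : chi ∅ x = 1 := by simp [chi]

omit [Fintype ι] [DecidableEq ι] in
@[simp] lemma abs_chi (S : Finset ι) (x : ι → Bool) : |chi S x| = 1 := by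
  simp [chi, Finset.abs_prod]

omit [Fintype ι] [DecidableEq ι] in
@[simp] lemma chi_sq (S : Finset ι) (x : ι → Bool) : chi S x ^ 2 = 1 := by
  rw [← sq_abs, abs_chi, one_pow]

omit [Fintype ι] [DecidableEq ι] in
@[simp] lemma chi_mul_self (S : Finset ι) (x : ι → Bool) : chi S x * chi S x = 1 := by
  rw [← sq, chi_sq]

omit [Fintype ι] in
lemma chi_mul (S T : Finset ι) (x : ι → Bool) : chi S x * chi T x = chi (symmDiff S T) x := by
  unfold chi
  have h1 : ∏ i ∈ S, sg (x i) = (∏ i ∈ S \ T, sg (x i)) * ∏ i ∈ S ∩ T, sg (x i) := by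
    rw [mul_comm, ← Finset.prod_union]
    · congr 1; ext i; simp only [mem_union, mem_inter, mem_sdiff]; tauto
    · rw [Finset.disjoint_left]; intro i; simp only [mem_inter, mem_sdiff]; tauto
  have h2 : ∏ i ∈ T, sg (x i) = (∏ i ∈ T \ S, sg (x i)) * ∏ i ∈ S ∩ T, sg (x i) := by
    rw [mul_comm, ← Finset.prod_union]
    · congr 1; ext i; simp only [mem_union, mem_inter, mem_sdiff]; tauto
    · rw [Finset.disjoint_left]; intro i; simp only [mem_inter, mem_sdiff]; tauto
  have h3 : (∏ i ∈ S ∩ T, sg (x i)) * (∏ i ∈ S ∩ T, sg (x i)) = 1 := by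
    rw [← Finset.prod_mul_distrib]; simp
  have h4 : ∏ i ∈ symmDiff S T, sg (x i) = (∏ i ∈ S \ T, sg (x i)) * ∏ i ∈ T \ S, sg (x i) := by
    rw [← Finset.prod_union]
    · rfl
    · rw [Finset.disjoint_left]; intro i; simp only [mem_sdiff]; tauto
  rw [h1, h2, h4]
  linear_combination (∏ i ∈ S \ T, sg (x i)) * (∏ i ∈ T \ S, sg (x i)) * h3

/-- flipping coordinate `i` -/
def flip (i : ι) (x : ι → Bool) : ι → Bool := Function.update x i (!(x i))

omit [Fintype ι] in
@[simp] lemma flip_flip (i : ι) (x : ι → Bool) : flip i (flip i x) = x := by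
  funext j
  by_cases h : j = i
  · subst h; simp [flip]
  · simp [flip, Function.update_of_ne h]

omit [Fintype ι] in
@[simp] lemma flip_same (i : ι) (x : ι → Bool) : flip i x i = !(x i) := by simp [flip]

omit [Fintype ι] in
lemma flip_ne {i j : ι} (h : j ≠ i) (x : ι → Bool) : flip i x j = x j := by
  simp [flip, Function.update_of_ne h]

/-- flip as an equivalence -/
def flipEquiv (i : ι) : (ι → Bool) ≃ (ι → Bool) where
  toFun := flip i
  invFun := flip i
  left_inv := flip_flip i
  right_inv := flip_flip i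

lemma av_flip (i : ι) (f : (ι → Bool) → ℝ) : av (fun x => f (flip i x)) = av f :=
  av_equiv (flipEquiv i) f

lemma chi_flip_of_mem {i : ι} {S : Finset ι} (h : i ∈ S) (x : ι → Bool) :
    chi S (flip i x) = - chi S x := by
  unfold chi
  rw [← Finset.mul_prod_erase S _ h, ← Finset.mul_prod_erase S (fun i => sg (x i)) h]
  have : ∏ j ∈ S.erase i, sg (flip i x j) = ∏ j ∈ S.erase i, sg (x j) := by
    apply Finset.prod_congr rfl; intro j hj
    rw [flip_ne (Finset.ne_of_mem_erase hj)]
  rw [this]; simp

lemma chi_flip_of_notMem {i : ι} {S : Finset ι} (h : i ∉ S) (x : ι → Bool) :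
    chi S (flip i x) = chi S x := by
  unfold chi
  apply Finset.prod_congr rfl; intro j hj
  rw [flip_ne (by rintro rfl; exact h hj)]

lemma av_eq_zero_of_flip (i : ι) (f : (ι → Bool) → ℝ) (h : ∀ x, f (flip i x) = - f x) :
    av f = 0 := by
  have h1 := av_flip i f
  rw [av_congr h, av_neg] at h1
  linarith

lemma av_chi (S : Finset ι) : av (chi S) = if S = ∅ then 1 else 0 := by
  split_ifs with h
  · subst h
    have : (chi ∅ : (ι → Bool) → ℝ) = fun _ => 1 := by funext x; simp
    rw [this, av_const]
  · obtain ⟨i, hi⟩ := Finset.nonempty_iff_ne_empty.2 h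
    exact av_eq_zero_of_flip i _ (fun x => chi_flip_of_mem hi x)

lemma av_chi_mul (S T : Finset ι) : av (fun x => chi S x * chi T x) = if S = T then 1 else 0 := by
  have : (fun x => chi S x * chi T x) = chi (symmDiff S T) := by
    funext x; rw [chi_mul]
  rw [this, av_chi]
  simp only [← Finset.bot_eq_empty, symmDiff_eq_bot]

/-- Fourier coefficient -/
noncomputable def coef (f : (ι → Bool) → ℝ) (S : Finset ι) : ℝ := av (fun x => f x * chi S x)

omit [DecidableEq ι] in
lemma sum_chi_mul_chi [DecidableEq ι] (x y : ι → Bool) :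
    ∑ S : Finset ι, chi S x * chi S y = if x = y then (2 : ℝ) ^ Fintype.card ι else 0 := by
  have h1 : ∑ S : Finset ι, chi S x * chi S y = ∏ i : ι, (1 + sg (x i) * sg (y i)) := by
    rw [Finset.prod_one_add]
    simp only [Finset.powerset_univ, chi, Finset.prod_mul_distrib]
  rw [h1]
  split_ifs with h
  · subst h
    simp [one_add_one_eq_two, Finset.prod_const]
  · obtain ⟨i, hi⟩ := Function.ne_iff.1 h
    apply Finset.prod_eq_zero (Finset.mem_univ i)
    cases hx : x i <;> cases hy : y i <;> simp_all

lemma card_cube : (Fintype.card (ι → Bool) : ℝ) = 2 ^ Fintype.card ι := by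
  simp

/-- Fourier inversion -/
lemma fourier (f : (ι → Bool) → ℝ) (x : ι → Bool) : f x = ∑ S : Finset ι, coef f S * chi S x := by
  have h : ∑ S : Finset ι, coef f S * chi S x
      = av (fun y => f y * ∑ S : Finset ι, chi S y * chi S x) := by
    simp only [Finset.mul_sum]
    rw [av_sum]
    apply Finset.sum_congr rfl; intro S _
    rw [coef, ← av_mul_right]
    apply av_congr; intro y; ring
  rw [h]
  simp only [sum_chi_mul_chi]
  unfold av
  rw [card_cube]
  simp

/-- a function with coefficients `c` -/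
lemma coef_sum (c : Finset ι → ℝ) (T : Finset ι) :
    coef (fun x => ∑ S : Finset ι, c S * chi S x) T = c T := by
  unfold coef
  have : ∀ x : ι → Bool, (∑ S : Finset ι, c S * chi S x) * chi T x
      = ∑ S : Finset ι, c S * (chi S x * chi T x) := by
    intro x; rw [Finset.sum_mul]; apply Finset.sum_congr rfl; intro S _; ring
  rw [av_congr this, av_sum]
  have h2 : ∀ S : Finset ι, av (fun x => c S * (chi S x * chi T x)) = if S = T then c S else 0 := by
    intro S; rw [av_mul_left, av_chi_mul]; split_ifs <;> simp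
  simp only [h2]
  simp

lemma coef_add (f g : (ι → Bool) → ℝ) (S : Finset ι) :
    coef (fun x => f x + g x) S = coef f S + coef g S := by
  unfold coef; rw [← av_add]; apply av_congr; intro x; ring

lemma coef_sub (f g : (ι → Bool) → ℝ) (S : Finset ι) :
    coef (fun x => f x - g x) S = coef f S - coef g S := by
  unfold coef; rw [← av_sub]; apply av_congr; intro x; ring

lemma coef_smul (c : ℝ) (f : (ι → Bool) → ℝ) (S : Finset ι) :
    coef (fun x => c * f x) S = c * coef f S := by
  unfold coef; rw [← av_mul_left]; apply av_congr; intro x; ring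

lemma coef_finset_sum {κ : Type*} (s : Finset κ) (f : κ → (ι → Bool) → ℝ) (S : Finset ι) :
    coef (fun x => ∑ k ∈ s, f k x) S = ∑ k ∈ s, coef (f k) S := by
  unfold coef
  rw [← av_sum]; apply av_congr; intro x; rw [Finset.sum_mul]

lemma coef_chi (S T : Finset ι) : coef (chi S) T = if S = T then 1 else 0 := av_chi_mul S T

/-- Plancherel -/
lemma plancherel (f g : (ι → Bool) → ℝ) :
    av (fun x => f x * g x) = ∑ S : Finset ι, coef f S * coef g S := by
  have : ∀ x, f x * g x = ∑ S : Finset ι, coef f S * (g x * chi S x) := by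
    intro x
    conv_lhs => rw [fourier f x]
    rw [Finset.sum_mul]; apply Finset.sum_congr rfl; intro S _; ring
  rw [av_congr this, av_sum]
  apply Finset.sum_congr rfl; intro S _
  rw [av_mul_left]; rfl

lemma parseval (f : (ι → Bool) → ℝ) : av (fun x => f x ^ 2) = ∑ S : Finset ι, coef f S ^ 2 := by
  simp only [sq]; exact plancherel f f

/-- degree at most `d` -/
def degLE (d : ℕ) (f : (ι → Bool) → ℝ) : Prop := ∀ S : Finset ι, d < S.card → coef f S = 0

lemma degLE.add {d : ℕ} {f g : (ι → Bool) → ℝ} (hf : degLE d f) (hg : degLE d g) :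
    degLE d (fun x => f x + g x) := by
  intro S hS; rw [coef_add, hf S hS, hg S hS, add_zero]

lemma degLE.sub {d : ℕ} {f g : (ι → Bool) → ℝ} (hf : degLE d f) (hg : degLE d g) :
    degLE d (fun x => f x - g x) := by
  intro S hS; rw [coef_sub, hf S hS, hg S hS, sub_zero]

lemma degLE.smul {d : ℕ} {f : (ι → Bool) → ℝ} (hf : degLE d f) (c : ℝ) :
    degLE d (fun x => c * f x) := by
  intro S hS; rw [coef_smul, hf S hS, mul_zero]

lemma degLE.sum {d : ℕ} {κ : Type*} {s : Finset κ} {f : κ → (ι → Bool) → ℝ}
    (hf : ∀ k ∈ s, degLE d (f k)) : degLE d (fun x => ∑ k ∈ s, f k x) := by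
  intro S hS; rw [coef_finset_sum]; exact Finset.sum_eq_zero (fun k hk => hf k hk S hS)

lemma degLE.mono {d e : ℕ} {f : (ι → Bool) → ℝ} (hf : degLE d f) (h : d ≤ e) : degLE e f :=
  fun S hS => hf S (lt_of_le_of_lt h hS)

lemma degLE_chi {d : ℕ} {S : Finset ι} (h : S.card ≤ d) : degLE d (chi S) := by
  intro T hT; rw [coef_chi, if_neg]; rintro rfl; omega

lemma degLE_const {d : ℕ} (c : ℝ) : degLE d (fun _ : ι → Bool => c) := by
  have h := (degLE_chi (ι := ι) (d := d) (S := ∅) (by simp)).smul c
  simpa using h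

/-- A linearity principle: to prove that a linear operation preserves degrees, check characters. -/
lemma degLE.eq_sum {d : ℕ} {f : (ι → Bool) → ℝ} (hf : degLE d f) (x : ι → Bool) :
    f x = ∑ S ∈ Finset.univ.filter (fun S : Finset ι => S.card ≤ d), coef f S * chi S x := by
  conv_lhs => rw [fourier f x]
  symm
  apply Finset.sum_subset (Finset.filter_subset _ _)
  intro S _ hS
  rw [hf S, zero_mul]
  simpa using hS

lemma degLE_of_eq {d : ℕ} {f g : (ι → Bool) → ℝ} (hf : degLE d f) (h : ∀ x, g x = f x) :
    degLE d g := by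
  have : g = f := funext h
  rw [this]; exact hf

lemma degLE.mul {d e : ℕ} {f g : (ι → Bool) → ℝ} (hf : degLE d f) (hg : degLE e g) :
    degLE (d + e) (fun x => f x * g x) := by
  have h : ∀ x, f x * g x = ∑ S ∈ Finset.univ.filter (fun S : Finset ι => S.card ≤ d),
      ∑ T ∈ Finset.univ.filter (fun T : Finset ι => T.card ≤ e),
        (coef f S * coef g T) * chi (symmDiff S T) x := by
    intro x
    rw [hf.eq_sum x, hg.eq_sum x, Finset.sum_mul_sum]
    apply Finset.sum_congr rfl; intro S _
    apply Finset.sum_congr rfl; intro T _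
    rw [← chi_mul]; ring
  refine degLE_of_eq ?_ h
  apply degLE.sum; intro S hS
  apply degLE.sum; intro T hT
  apply degLE.smul
  apply degLE_chi
  simp only [mem_filter, mem_univ, true_and] at hS hT
  calc (symmDiff S T).card ≤ (S ∪ T).card := by
        apply Finset.card_le_card
        intro i; simp only [Finset.mem_symmDiff, mem_union]; tauto
    _ ≤ S.card + T.card := Finset.card_union_le _ _
    _ ≤ d + e := by omega

/-- `mix J x y` is `x` on `J` and `y` off `J`. -/
def mix (J : Finset ι) (x y : ι → Bool) : ι → Bool := fun i => if i ∈ J then x i else y i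

omit [Fintype ι] in
lemma mix_of_mem {J : Finset ι} {i : ι} (h : i ∈ J) (x y : ι → Bool) : mix J x y i = x i := by
  simp [mix, h]

omit [Fintype ι] in
lemma mix_of_notMem {J : Finset ι} {i : ι} (h : i ∉ J) (x y : ι → Bool) : mix J x y i = y i := by
  simp [mix, h]

omit [Fintype ι] in
lemma mix_mix (J K : Finset ι) (x y z : ι → Bool) (h : J ⊆ K) :
    mix J x (mix K x z) = mix K x z := by
  funext i
  by_cases hi : i ∈ J
  · simp [mix, hi, h hi]
  · simp [mix, hi]

omit [Fintype ι] in
@[simp] lemma mix_self (J : Finset ι) (x : ι → Bool) : mix J x x = x := by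
  funext i; simp [mix]

/-- swapping the parts outside `J`. -/
def swapEquiv (J : Finset ι) : (ι → Bool) × (ι → Bool) ≃ (ι → Bool) × (ι → Bool) where
  toFun p := (mix J p.1 p.2, mix J p.2 p.1)
  invFun p := (mix J p.1 p.2, mix J p.2 p.1)
  left_inv p := by
    ext i <;> by_cases h : i ∈ J <;> simp [mix, h]
  right_inv p := by
    ext i <;> by_cases h : i ∈ J <;> simp [mix, h]

lemma av_mix (J : Finset ι) (f : (ι → Bool) → ℝ) :
    av (fun x => av (fun y => f (mix J x y))) = av f := by
  have h := av_equiv (swapEquiv J) (fun p : (ι → Bool) × (ι → Bool) => f p.1)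
  simp only [swapEquiv, Equiv.coe_fn_mk] at h
  rw [av_prod, av_prod] at h
  simp only [av_const] at h
  exact h

/-- general form of `av_mix` for functions also depending on the `J` part only of `x` -/
lemma av_mix₂ (J : Finset ι) (f : (ι → Bool) → (ι → Bool) → ℝ)
    (hf : ∀ x x' y, (∀ i ∈ J, x i = x' i) → f x y = f x' y) :
    av (fun x => av (fun y => f x (mix J x y))) = av (fun x => f x x) := by
  have h := av_equiv (swapEquiv J) (fun p : (ι → Bool) × (ι → Bool) => f p.1 p.1)
  simp only [swapEquiv, Equiv.coe_fn_mk] at h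
  rw [av_prod, av_prod] at h
  simp only [av_const] at h
  rw [← h]
  apply av_congr; intro x
  apply av_congr; intro y
  apply hf
  intro i hi; simp [mix, hi]

omit [Fintype ι] in
lemma chi_mix (J S : Finset ι) (x y : ι → Bool) :
    chi S (mix J x y) = chi (S ∩ J) x * chi (S \ J) y := by
  unfold chi
  rw [← Finset.prod_inter_mul_prod_sdiff S J]
  congr 1
  · apply Finset.prod_congr rfl; intro i hi
    rw [mix_of_mem (Finset.mem_inter.1 hi).2]
  · apply Finset.prod_congr rfl; intro i hi
    rw [mix_of_notMem (Finset.mem_sdiff.1 hi).2]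

lemma degLE.mix {d : ℕ} {f : (ι → Bool) → ℝ} (hf : degLE d f) (J : Finset ι) (x : ι → Bool) :
    degLE d (fun y => f (mix J x y)) := by
  have h : ∀ y, f (PTFT.mix J x y)
      = ∑ S ∈ Finset.univ.filter (fun S : Finset ι => S.card ≤ d),
        (coef f S * chi (S ∩ J) x) * chi (S \ J) y := by
    intro y; rw [hf.eq_sum]; apply Finset.sum_congr rfl; intro S _
    rw [chi_mix]; ring
  refine degLE_of_eq ?_ h
  apply degLE.sum; intro S hS
  apply degLE.smul
  apply degLE_chi
  simp only [mem_filter, mem_univ, true_and] at hS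
  exact (Finset.card_le_card Finset.sdiff_subset).trans hS

lemma degLE.mix' {d : ℕ} {f : (ι → Bool) → ℝ} (hf : degLE d f) (J : Finset ι) (y : ι → Bool) :
    degLE d (fun x => f (PTFT.mix J x y)) := by
  have h : ∀ x, f (PTFT.mix J x y)
      = ∑ S ∈ Finset.univ.filter (fun S : Finset ι => S.card ≤ d),
        (coef f S * chi (S \ J) y) * chi (S ∩ J) x := by
    intro x; rw [hf.eq_sum]; apply Finset.sum_congr rfl; intro S _
    rw [chi_mix]; ring
  refine degLE_of_eq ?_ h
  apply degLE.sum; intro S hS
  apply degLE.smul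
  apply degLE_chi
  simp only [mem_filter, mem_univ, true_and] at hS
  exact (Finset.card_le_card Finset.inter_subset_left).trans hS

end PTFT
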