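import Pool.Agent.PTFT.Robust

/-!
Linear programming duality: functions far from polynomial threshold functions carry a large
weight orthogonal to all low degree polynomials.
-/

set_option autoImplicit false
set_option linter.unusedSectionVars false
set_option linter.unusedVariables false
set_option linter.unnecessarySeqFocus false

open Finset Filter

namespace PTFT

section

variable {ι : Type} [Fintype ι] [DecidableEq ι]

lemma coef_eq_of_lowp_zero {d : ℕ} {h : (ι → Bool) → ℝ} (hz : av (fun x => lowp d h x ^ 2) = 0)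
    (S : Finset ι) (hS : S.card ≤ d) : coef h S = 0 := by
  rw [parseval] at hz
  have h1 := (Finset.sum_eq_zero_iff_of_nonneg (fun S _ => sq_nonneg _)).1 hz S (Finset.mem_univ S)
  rw [coef_lowp, if_pos hS] at h1
  exact pow_eq_zero_iff (by norm_num) |>.1 h1

lemma lowp_add_smul (d : ℕ) (a b : (ι → Bool) → ℝ) (t : ℝ) (x : ι → Bool) :
    lowp d (fun y => a y + t * (b y - a y)) x = lowp d a x + t * (lowp d b x - lowp d a x) := by
  unfold lowp
  rw [← Finset.sum_sub_distrib, Finset.mul_sum, ← Finset.sum_add_distrib]
  apply Finset.sum_congr rfl; intro S _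
  have : coef (fun y => a y + t * (b y - a y)) S = coef a S + t * (coef b S - coef a S) := by
    rw [coef_add, coef_smul, coef_sub]
  rw [this]; ring

lemma av_lowp_mul {d : ℕ} (h q : (ι → Bool) → ℝ) (hq : degLE d q) :
    av (fun x => lowp d h x * q x) = av (fun x => h x * q x) := by
  rw [plancherel, plancherel]
  apply Finset.sum_congr rfl; intro S _
  rw [coef_lowp]
  split_ifs with hS
  · rfl
  · rw [hq S (not_le.1 hS)]; ring

theorem duality (d : ℕ) (f : (ι → Bool) → Bool) {ε : ℝ} (hε1 : ε ≤ 1)
    (hfar : ∀ q : (ι → Bool) → ℝ, degLE d q → ε ≤ pr (fun x => f x ≠ decide (0 < q x))) :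
    ∃ μ : (ι → Bool) → ℝ, (∀ x, 0 ≤ μ x ∧ μ x ≤ 1) ∧ ε ≤ av μ ∧
      ∀ S : Finset ι, S.card ≤ d → coef (fun x => μ x * sg (f x)) S = 0 := by
  classical
  set K : Set ((ι → Bool) → ℝ) := {μ | (∀ x, 0 ≤ μ x ∧ μ x ≤ 1) ∧ ε ≤ av μ} with hK
  set Φ : ((ι → Bool) → ℝ) → ℝ := fun μ => av (fun x => lowp d (fun y => μ y * sg (f y)) x ^ 2)
    with hΦ
  have hcont : Continuous Φ := by
    simp only [hΦ, av, lowp, coef]
    fun_prop
  have hcontav : Continuous (fun μ : (ι → Bool) → ℝ => av μ) := by
    simp only [av]
    fun_prop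
  have hKcl : IsClosed K := by
    have h1 : K = (⋂ x, {μ : (ι → Bool) → ℝ | 0 ≤ μ x} ∩ {μ | μ x ≤ 1}) ∩ {μ | ε ≤ av μ} := by
      ext μ; simp only [hK, Set.mem_ofPred_eq, Set.mem_inter_iff, Set.mem_iInter]
    rw [h1]
    refine IsClosed.inter (isClosed_iInter fun x => IsClosed.inter ?_ ?_) ?_
    · exact isClosed_le continuous_const (continuous_apply x)
    · exact isClosed_le (continuous_apply x) continuous_const
    · exact isClosed_le continuous_const hcontav
  have hKcp : IsCompact K := by
    apply IsCompact.of_isClosed_subset (isCompact_Icc (a := (0 : (ι → Bool) → ℝ)) (b := 1)) hKcl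
    rintro μ ⟨hμ, -⟩
    exact ⟨fun x => (hμ x).1, fun x => (hμ x).2⟩
  have hKne : K.Nonempty := by
    refine ⟨fun _ => 1, fun x => ⟨zero_le_one, le_refl _⟩, ?_⟩
    show ε ≤ av (fun _ : ι → Bool => (1 : ℝ))
    rw [av_const]; exact hε1
  obtain ⟨μ0, hμ0, hmin⟩ := hKcp.exists_isMinOn hKne hcont.continuousOn
  refine ⟨μ0, hμ0.1, hμ0.2, ?_⟩
  set h0 : (ι → Bool) → ℝ := fun y => μ0 y * sg (f y) with hh0
  set q : (ι → Bool) → ℝ := lowp d h0 with hq
  have hqdeg : degLE d q := degLE_lowp d _
  -- first order optimality
  have hopt : ∀ μ ∈ K, av (fun x => q x ^ 2) ≤ av (fun x => (μ x * sg (f x)) * q x) := by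
    intro μ hμ
    set h : (ι → Bool) → ℝ := fun y => μ y * sg (f y) with hh
    set a := av (fun x => q x * (lowp d h x - q x)) with ha
    set b := av (fun x => (lowp d h x - q x) ^ 2) with hb
    have hb0 : 0 ≤ b := av_nonneg fun _ => sq_nonneg _
    have hstep : ∀ t : ℝ, 0 < t → t ≤ 1 → 0 ≤ 2 * a + t * b := by
      intro t ht ht1
      have hmem : (fun x => μ0 x + t * (μ x - μ0 x)) ∈ K := by
        refine ⟨fun x => ?_, ?_⟩
        · have h1 := hμ0.1 x
          have h2 := hμ.1 x
          constructor
          · nlinarith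
          · nlinarith
        · rw [av_add, av_mul_left, av_sub]
          have h1 := hμ0.2
          have h2 := hμ.2
          nlinarith
      have h1 : Φ μ0 ≤ Φ (fun x => μ0 x + t * (μ x - μ0 x)) := hmin hmem
      have h2 : Φ μ0 = av (fun x => q x ^ 2) := rfl
      have h3 : Φ (fun x => μ0 x + t * (μ x - μ0 x))
          = av (fun x => q x ^ 2) + 2 * t * a + t ^ 2 * b := by
        simp only [hΦ]
        have e1 : (fun y => (μ0 y + t * (μ y - μ0 y)) * sg (f y))
            = fun y => h0 y + t * (h y - h0 y) := by
          funext y; simp only [hh0, hh]; ring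
        rw [e1]
        have e2 : ∀ x, lowp d (fun y => h0 y + t * (h y - h0 y)) x ^ 2
            = q x ^ 2 + (2 * t * (q x * (lowp d h x - q x)) + t ^ 2 * (lowp d h x - q x) ^ 2) := by
          intro x
          rw [lowp_add_smul]
          simp only [← hq]
          ring
        rw [av_congr e2, av_add, av_add, av_mul_left, av_mul_left]
        ring
      rw [h2, h3] at h1
      have h4 : 0 ≤ t * (2 * a + t * b) := by nlinarith
      exact nonneg_of_mul_nonneg_right h4 ht
    have ha0 : 0 ≤ a := by
      by_contra hneg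
      have hneg' : a < 0 := not_le.1 hneg
      by_cases hbz : b ≤ -a
      · have := hstep 1 one_pos (le_refl _)
        linarith
      · have hbpos : 0 < b := by linarith
        have h5 := hstep (-a / b) (by apply div_pos <;> linarith) (by
          rw [div_le_one hbpos]; linarith)
        have : -a / b * b = -a := by field_simp
        rw [this] at h5
        linarith
    have h6 : av (fun x => lowp d h x * q x) = av (fun x => h x * q x) := av_lowp_mul h q hqdeg
    have h7 : a = av (fun x => lowp d h x * q x) - av (fun x => q x ^ 2) := by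
      rw [ha, ← av_sub]; apply av_congr; intro x; ring
    rw [h6] at h7
    linarith
  -- q vanishes
  have hqz : av (fun x => q x ^ 2) = 0 := by
    set μ1 : (ι → Bool) → ℝ := fun x => if sg (f x) * q x ≤ 0 then 1 else 0 with hμ1
    have h1 : μ1 ∈ K := by
      refine ⟨fun x => ?_, ?_⟩
      · simp only [hμ1]; split_ifs <;> norm_num
      · refine (hfar q hqdeg).trans ?_
        simp only [hμ1]
        rw [← pr_eq]
        apply pr_mono; intro x hx
        by_contra hcon
        have h2 := not_le.1 hcon
        apply hx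
        cases hfx : f x
        · rw [hfx] at h2
          simp only [sg_false] at h2
          symm; rw [decide_eq_false_iff_not]; linarith
        · rw [hfx] at h2
          simp only [sg_true] at h2
          symm; rw [decide_eq_true_iff]; linarith
    have h2 := hopt μ1 h1
    have h3 : av (fun x => (μ1 x * sg (f x)) * q x) ≤ 0 := by
      rw [← av_zero (α := ι → Bool)]
      apply av_mono; intro x
      simp only [hμ1]
      split_ifs with h
      · linarith
      · simp
    exact le_antisymm (h2.trans h3) (av_nonneg fun _ => sq_nonneg _)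
  intro S hS
  exact coef_eq_of_lowp_zero hqz S hS

end

end PTFT
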