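import Pool.Agent.PTFT.LemmaA

/-!
Bounded extension of low degree polynomials from junta sets.
-/

set_option autoImplicit false
set_option linter.unusedSectionVars false
set_option linter.unusedVariables false
set_option linter.unnecessarySeqFocus false

open Finset

namespace PTFT

/-- the space of functions of degree at most `s` -/
def VV (κ : Type) [Fintype κ] [DecidableEq κ] (s : ℕ) : Submodule ℝ ((κ → Bool) → ℝ) where
  carrier := {c | degLE s c}
  add_mem' := by intro a b ha hb; exact ha.add hb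
  zero_mem' := by exact degLE_const 0
  smul_mem' := by intro c a ha; exact ha.smul c

open Classical in
theorem fd_ext (κ : Type) [Fintype κ] [DecidableEq κ] (s : ℕ) (R : (κ → Bool) → Prop) :
    ∃ C : ℝ, 0 ≤ C ∧ ∀ c : (κ → Bool) → ℝ, degLE s c → ∃ c' : (κ → Bool) → ℝ, degLE s c' ∧
      (∀ z, R z → c' z = c z) ∧
      av (fun z => c' z ^ 2) ≤ C * av (fun z => if R z then c z ^ 2 else 0) := by
  let A : VV κ s →ₗ[ℝ] ((κ → Bool) → ℝ) :=
    { toFun := fun c z => if R z then (c : (κ → Bool) → ℝ) z else 0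
      map_add' := by
        intro a b; funext z
        by_cases h : R z <;> simp [h]
      map_smul' := by
        intro r a; funext z
        by_cases h : R z <;> simp [h] }
  let A' : VV κ s →ₗ[ℝ] (LinearMap.range A) := A.rangeRestrict
  let Acl : VV κ s →L[ℝ] (LinearMap.range A) := LinearMap.toContinuousLinearMap A'
  have hsurj : Function.Surjective Acl := A.surjective_rangeRestrict
  have : CompleteSpace (VV κ s) := FiniteDimensional.complete ℝ _
  have : CompleteSpace (LinearMap.range A) := FiniteDimensional.complete ℝ _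
  obtain ⟨C, hC, H⟩ := Acl.exists_preimage_norm_le hsurj
  refine ⟨C ^ 2 * 2 ^ Fintype.card κ, by positivity, ?_⟩
  intro c hc
  obtain ⟨v, hv, hvnorm⟩ := H (A' ⟨c, hc⟩)
  have hval : ∀ z, (if R z then (v : (κ → Bool) → ℝ) z else 0) = if R z then c z else 0 := by
    intro z
    have h1 : (Acl v : (κ → Bool) → ℝ) = (A' ⟨c, hc⟩ : (κ → Bool) → ℝ) := by rw [hv]
    exact congrFun h1 z
  refine ⟨v, v.2, ?_, ?_⟩
  · intro z hz
    have := hval z
    simpa [hz] using this
  · set y : (κ → Bool) → ℝ := fun z => if R z then c z else 0 with hy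
    have hynorm : ‖A' ⟨c, hc⟩‖ = ‖y‖ := rfl
    have h2 : ‖y‖ ^ 2 ≤ ∑ z, y z ^ 2 := by
      have h3 : ‖y‖ ≤ Real.sqrt (∑ z, y z ^ 2) := by
        rw [pi_norm_le_iff_of_nonneg (Real.sqrt_nonneg _)]
        intro z
        rw [Real.norm_eq_abs]
        apply Real.abs_le_sqrt
        exact Finset.single_le_sum (f := fun z => y z ^ 2) (fun z _ => sq_nonneg _) (Finset.mem_univ z)
      calc ‖y‖ ^ 2 ≤ (Real.sqrt (∑ z, y z ^ 2)) ^ 2 := by gcongr
        _ = _ := Real.sq_sqrt (Finset.sum_nonneg fun z _ => sq_nonneg _)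
    have h4 : ∑ z, y z ^ 2 = 2 ^ Fintype.card κ * av (fun z => if R z then c z ^ 2 else 0) := by
      unfold av
      rw [card_cube]
      have : ∀ z, y z ^ 2 = if R z then c z ^ 2 else 0 := by
        intro z; simp only [hy]; split_ifs <;> simp
      simp only [this]
      field_simp
    calc av (fun z => (v : (κ → Bool) → ℝ) z ^ 2) ≤ av (fun _ : κ → Bool => ‖v‖ ^ 2) := by
          apply av_mono; intro z
          rw [← sq_abs]
          have : |(v : (κ → Bool) → ℝ) z| ≤ ‖v‖ := norm_le_pi_norm (v : (κ → Bool) → ℝ) z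
          gcongr
      _ = ‖v‖ ^ 2 := av_const _
      _ ≤ (C * ‖y‖) ^ 2 := by
          have := hvnorm
          rw [hynorm] at this
          gcongr
      _ = C ^ 2 * ‖y‖ ^ 2 := by ring
      _ ≤ C ^ 2 * (2 ^ Fintype.card κ * av (fun z => if R z then c z ^ 2 else 0)) := by
          rw [← h4]; gcongr
      _ = _ := by ring

open Classical in
theorem fd_ext_uniform (j d : ℕ) :
    ∃ C : ℝ, 0 ≤ C ∧ ∀ s ≤ d, ∀ R : (Fin j → Bool) → Prop, ∀ c : (Fin j → Bool) → ℝ, degLE s c →
      ∃ c' : (Fin j → Bool) → ℝ, degLE s c' ∧ (∀ z, R z → c' z = c z) ∧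
      av (fun z => c' z ^ 2) ≤ C * av (fun z => if R z then c z ^ 2 else 0) := by
  choose C hC H using fun (s : ℕ) (R : (Fin j → Bool) → Prop) => fd_ext (Fin j) s R
  refine ⟨∑ s ∈ Finset.range (d + 1), ∑ R : (Fin j → Bool) → Prop, C s R,
    Finset.sum_nonneg fun s _ => Finset.sum_nonneg fun R _ => hC s R, ?_⟩
  intro s hs R c hc
  obtain ⟨c', h1, h2, h3⟩ := H s R c hc
  refine ⟨c', h1, h2, h3.trans ?_⟩
  apply mul_le_mul_of_nonneg_right
  · calc C s R ≤ ∑ R : (Fin j → Bool) → Prop, C s R :=
          Finset.single_le_sum (f := fun R => C s R) (fun R _ => hC s R) (Finset.mem_univ R)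
      _ ≤ _ := Finset.single_le_sum (f := fun s => ∑ R : (Fin j → Bool) → Prop, C s R)
          (fun s _ => Finset.sum_nonneg fun R _ => hC s R) (Finset.mem_range.2 (by omega))
  · apply av_nonneg; intro z; split_ifs
    · positivity
    · exact le_refl _

section transport

variable {ι : Type} [Fintype ι] [DecidableEq ι]
variable {κ : Type} [Fintype κ] [DecidableEq κ]

lemma chi_comp (e : κ ↪ ι) (S : Finset κ) (x : ι → Bool) :
    chi S (fun a => x (e a)) = chi (S.map e) x := by
  unfold chi; rw [Finset.prod_map]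

lemma av_comp (e : κ ↪ ι) (F : (κ → Bool) → ℝ) :
    av (fun x : ι → Bool => F (fun a => x (e a))) = av F := by
  have h1 : ∀ x : ι → Bool, F (fun a => x (e a)) = ∑ S : Finset κ, coef F S * chi (S.map e) x := by
    intro x; rw [fourier F]; apply Finset.sum_congr rfl; intro S _; rw [chi_comp]
  rw [av_congr h1, av_sum]
  simp only [av_mul_left]
  have h2 : ∀ S : Finset κ, av (chi (S.map e) : (ι → Bool) → ℝ) = if S = ∅ then 1 else 0 := by
    intro S; rw [av_chi]; simp
  have h3 : ∀ S : Finset κ, av (fun x : ι → Bool => chi (S.map e) x) = if S = ∅ then 1 else 0 := h2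
  simp only [h3]
  simp [coef_empty]

lemma degLE_comp (e : κ ↪ ι) {s : ℕ} {F : (κ → Bool) → ℝ} (hF : degLE s F) :
    degLE s (fun x : ι → Bool => F (fun a => x (e a))) := by
  have h1 : ∀ x : ι → Bool, F (fun a => x (e a))
      = ∑ S ∈ Finset.univ.filter (fun S : Finset κ => S.card ≤ s), coef F S * chi (S.map e) x := by
    intro x; rw [hF.eq_sum]; apply Finset.sum_congr rfl; intro S _; rw [chi_comp]
  refine degLE_of_eq ?_ h1
  apply degLE.sum; intro S hS
  apply degLE.smul
  apply degLE_chi
  simpa using hS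

end transport

section junta

variable {ι : Type} [Fintype ι] [DecidableEq ι]

/-- depends only on the coordinates in `J` -/
def DepOn {α : Type*} (J : Finset ι) (c : (ι → Bool) → α) : Prop :=
  ∀ x x', (∀ i ∈ J, x i = x' i) → c x = c x'

open Classical in
theorem ext_junta (j0 d : ℕ) :
    ∃ C : ℝ, 0 ≤ C ∧ ∀ (ι : Type) [Fintype ι] [DecidableEq ι] (J : Finset ι), J.card ≤ j0 →
      ∀ (R : (ι → Bool) → Prop), (∀ x x', (∀ i ∈ J, x i = x' i) → (R x → R x')) →
      ∀ s ≤ d, ∀ c : (ι → Bool) → ℝ, degLE s c → DepOn J c →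
      ∃ c' : (ι → Bool) → ℝ, degLE s c' ∧ DepOn J c' ∧ (∀ z, R z → c' z = c z) ∧
      av (fun z => c' z ^ 2) ≤ C * av (fun z => if R z then c z ^ 2 else 0) := by
  choose C hC H using fun j : ℕ => fd_ext_uniform j d
  refine ⟨∑ j ∈ Finset.range (j0 + 1), C j, Finset.sum_nonneg fun j _ => hC j, ?_⟩
  intro ι _ _ J hJ R hR s hs c hc hdep
  set j := J.card with hj
  let e0 : Fin j ≃ J := (Fintype.equivFinOfCardEq (by simp [hj])).symm
  let e : Fin j ↪ ι := e0.toEmbedding.trans (Function.Embedding.subtype _)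
  let ext : (Fin j → Bool) → (ι → Bool) := fun z i => if h : i ∈ J then z (e0.symm ⟨i, h⟩) else false
  have hext : ∀ x : ι → Bool, ∀ i ∈ J, ext (fun a => x (e a)) i = x i := by
    intro x i hi
    simp only [ext, hi, dif_pos, e, Function.Embedding.trans_apply, Equiv.coe_toEmbedding,
      Equiv.apply_symm_apply, Function.Embedding.subtype_apply]
  have hcx : ∀ x, c (ext (fun a => x (e a))) = c x := fun x => hdep _ _ (hext x)
  have hRx : ∀ x, R (ext (fun a => x (e a))) ↔ R x := fun x =>
    ⟨hR _ _ (hext x), hR _ _ (fun i hi => (hext x i hi).symm)⟩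
  have hdeg : degLE s (fun z => c (ext z)) := by
    intro S hS
    have h1 := av_comp e (fun z => c (ext z) * chi S z)
    unfold coef
    rw [← h1]
    have h2 : ∀ x : ι → Bool, c (ext (fun a => x (e a))) * chi S (fun a => x (e a))
        = c x * chi (S.map e) x := by
      intro x; rw [hcx, chi_comp]
    rw [av_congr h2]
    exact hc (S.map e) (by simpa using hS)
  obtain ⟨c', h1, h2, h3⟩ := H j s hs (fun z => R (ext z)) (fun z => c (ext z)) hdeg
  refine ⟨fun x => c' (fun a => x (e a)), degLE_comp e h1, ?_, ?_, ?_⟩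
  · intro x x' h
    have : (fun a => x (e a)) = (fun a => x' (e a)) := by
      funext a; exact h _ (by simp [e])
    simp only [this]
  · intro x hx
    have := h2 (fun a => x (e a)) ((hRx x).2 hx)
    simp only [this, hcx]
  · have e1 := av_comp e (fun z => c' z ^ 2)
    have e2 := av_comp e (fun z => if R (ext z) then c (ext z) ^ 2 else 0)
    simp only [hcx, hRx] at e2
    rw [e1, e2]
    refine h3.trans ?_
    apply mul_le_mul_of_nonneg_right
    · exact Finset.single_le_sum (f := C) (fun j _ => hC j) (Finset.mem_range.2 (by omega))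
    · apply av_nonneg; intro z; split_ifs
      · positivity
      · exact le_refl _

/-- partial Fourier coefficient -/
noncomputable def pc (J : Finset ι) (p : (ι → Bool) → ℝ) (T : Finset ι) (x : ι → Bool) : ℝ :=
  coef (fun y => p (mix J x y)) T

lemma pc_dep (J : Finset ι) (p : (ι → Bool) → ℝ) (T : Finset ι) : DepOn J (pc J p T) := by
  intro x x' h
  unfold pc
  have : (fun y => p (mix J x y)) = (fun y => p (mix J x' y)) := by
    funext y
    congr 1
    funext i
    by_cases hi : i ∈ J
    · simp [mix, hi, h i hi]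
    · simp [mix, hi]
  rw [this]

lemma pc_eq_zero (J : Finset ι) (p : (ι → Bool) → ℝ) (T : Finset ι) (hT : ¬ Disjoint T J)
    (x : ι → Bool) : pc J p T x = 0 := by
  obtain ⟨i, hi1, hi2⟩ := Finset.not_disjoint_iff.1 hT
  unfold pc coef
  apply av_eq_zero_of_flip i
  intro y
  rw [chi_flip_of_mem hi1]
  have : mix J x (flip i y) = mix J x y := by
    funext k
    by_cases hk : k ∈ J
    · simp [mix, hk]
    · have : k ≠ i := by rintro rfl; exact hk hi2
      simp [mix, hk, flip_ne this]
  simp only [this]; ring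

lemma pc_eq (J : Finset ι) {d : ℕ} {p : (ι → Bool) → ℝ} (hp : degLE d p) (T : Finset ι)
    (x : ι → Bool) : pc J p T x = ∑ S ∈ Finset.univ.filter (fun S : Finset ι => S.card ≤ d),
      (if S \ J = T then coef p S else 0) * chi (S ∩ J) x := by
  unfold pc
  have h : (fun y => p (mix J x y))
      = fun y => ∑ S ∈ Finset.univ.filter (fun S : Finset ι => S.card ≤ d),
        (coef p S * chi (S ∩ J) x) * chi (S \ J) y := by
    funext y; rw [hp.eq_sum]; apply Finset.sum_congr rfl; intro S _
    rw [chi_mix]; ring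
  rw [h, coef_finset_sum]
  apply Finset.sum_congr rfl; intro S _
  rw [coef_smul, coef_chi]
  split_ifs <;> ring

lemma degLE_pc (J : Finset ι) {d : ℕ} {p : (ι → Bool) → ℝ} (hp : degLE d p) (T : Finset ι)
     : degLE (d - T.card) (pc J p T) := by
  refine degLE_of_eq ?_ (pc_eq J hp T)
  apply degLE.sum; intro S hS
  by_cases h : S \ J = T
  · apply degLE.smul
    apply degLE_chi
    simp only [mem_filter, mem_univ, true_and] at hS
    have h1 : (S ∩ J).card + (S \ J).card = S.card := Finset.card_inter_add_card_sdiff S J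
    rw [h] at h1
    omega
  · simp only [h, if_false, zero_mul]
    exact degLE_const 0

lemma pc_eq_zero_of_card (J : Finset ι) {d : ℕ} {p : (ι → Bool) → ℝ} (hp : degLE d p) (T : Finset ι)
    (hT : d < T.card) (x : ι → Bool) : pc J p T x = 0 := hp.mix J x T hT

lemma sum_pc (J : Finset ι) (p : (ι → Bool) → ℝ) (x y : ι → Bool) :
    p (mix J x y) = ∑ T : Finset ι, pc J p T x * chi T y := fourier (fun y => p (mix J x y)) y

open Classical in
lemma av_ite_sum_pc (J : Finset ι) (R : (ι → Bool) → Prop)
    (hR : ∀ x x', (∀ i ∈ J, x i = x' i) → (R x → R x')) (p : (ι → Bool) → ℝ) :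
    av (fun x => if R x then p x ^ 2 else 0)
      = ∑ T : Finset ι, av (fun x => if R x then pc J p T x ^ 2 else 0) := by
  rw [av_ite_mix J R hR (fun x => p x ^ 2), ← av_sum]
  apply av_congr; intro x
  split_ifs with h
  · exact parseval (fun y => p (mix J x y))
  · simp

open Classical in
theorem extension (j0 d : ℕ) :
    ∃ C : ℝ, 0 ≤ C ∧ ∀ (ι : Type) [Fintype ι] [DecidableEq ι] (J : Finset ι), J.card ≤ j0 →
      ∀ (R : (ι → Bool) → Prop), (∀ x x', (∀ i ∈ J, x i = x' i) → (R x → R x')) →
      ∀ p : (ι → Bool) → ℝ, degLE d p →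
      ∃ r : (ι → Bool) → ℝ, degLE d r ∧ (∀ z, R z → r z = p z) ∧
      av (fun z => r z ^ 2) ≤ C * av (fun z => if R z then p z ^ 2 else 0) := by
  obtain ⟨C, hC, H⟩ := ext_junta j0 d
  refine ⟨C, hC, ?_⟩
  intro ι _ _ J hJ R hR p hp
  have h1 : ∀ T : Finset ι, ∃ c' : (ι → Bool) → ℝ, degLE (d - T.card) c' ∧ DepOn J c' ∧
      (∀ z, R z → c' z = pc J p T z) ∧ ((¬ Disjoint T J ∨ d < T.card) → ∀ z, c' z = 0) ∧
      av (fun z => c' z ^ 2) ≤ C * av (fun z => if R z then pc J p T z ^ 2 else 0) := by
    intro T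
    by_cases h : ¬ Disjoint T J ∨ d < T.card
    · refine ⟨fun _ => 0, degLE_const 0, fun _ _ _ => rfl, ?_, fun _ _ => rfl, ?_⟩
      · intro z _
        rcases h with h | h
        · rw [pc_eq_zero J p T h]
        · rw [pc_eq_zero_of_card J hp T h]
      · have : 0 ≤ C * av (fun z => if R z then pc J p T z ^ 2 else 0) := by
          apply mul_nonneg hC
          apply av_nonneg; intro z; split_ifs
          · positivity
          · exact le_refl _
        simpa [av_zero] using this
    · obtain ⟨c', a1, a2, a3, a4⟩ := H ι J hJ R hR (d - T.card) (Nat.sub_le _ _) (pc J p T)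
        (degLE_pc J hp T) (pc_dep J p T)
      exact ⟨c', a1, a2, a3, fun h' => absurd h' h, a4⟩
  choose c' hdeg hdep heq hzero hnorm using h1
  set r : (ι → Bool) → ℝ := fun x => ∑ T : Finset ι, c' T x * chi T x with hr
  refine ⟨r, ?_, ?_, ?_⟩
  · apply degLE.sum; intro T _
    by_cases hT : d < T.card
    · refine degLE_of_eq (degLE_const (d := d) 0) ?_
      intro x; rw [hzero T (Or.inr hT)]; ring
    · have := (hdeg T).mul (degLE_chi (S := T) (le_refl T.card))
      exact this.mono (by omega)
  · intro z hz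
    have h2 := sum_pc J p z z
    rw [mix_self] at h2
    rw [h2, hr]
    simp only
    apply Finset.sum_congr rfl; intro T _
    rw [heq T z hz]
  · have h3 : ∀ x y, r (mix J x y) = ∑ T : Finset ι, c' T x * chi T y := by
      intro x y
      simp only [hr]
      apply Finset.sum_congr rfl; intro T _
      by_cases hT : Disjoint T J
      · rw [chi_mix]
        have e1 : T ∩ J = ∅ := Finset.disjoint_iff_inter_eq_empty.1 hT
        have e2 : T \ J = T := Finset.sdiff_eq_self_of_disjoint hT
        rw [e1, e2, chi_empty, one_mul]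
        congr 1
        apply hdep T
        intro i hi; simp [mix, hi]
      · rw [hzero T (Or.inl hT), hzero T (Or.inl hT)]; simp
    have h4 : av (fun z => r z ^ 2) = ∑ T : Finset ι, av (fun x => c' T x ^ 2) := by
      rw [← av_mix J (fun z => r z ^ 2), ← av_sum]
      apply av_congr; intro x
      simp only [h3]
      rw [parseval]
      apply Finset.sum_congr rfl; intro T _
      rw [coef_sum]
    rw [h4, av_ite_sum_pc J R hR p, Finset.mul_sum]
    exact Finset.sum_le_sum fun T _ => hnorm T

end junta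

end PTFT
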