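import Pool.Agent.PTFT.Gradient

/-!
Small ball probability of a polynomial when coordinates in `J` are frozen.
-/

set_option autoImplicit false
set_option linter.unusedSectionVars false
set_option linter.unusedVariables false

open Finset

namespace PTFT

variable {ι : Type} [Fintype ι] [DecidableEq ι]

lemma pr_abs_ge_le_four {α : Type} [Fintype α] {f : α → ℝ} {t : ℝ} (ht : 0 < t) :
    pr (fun a => t ≤ |f a|) ≤ av (fun a => f a ^ 4) / t ^ 4 := by
  calc pr (fun a => t ≤ |f a|) ≤ pr (fun a => t ^ 4 ≤ f a ^ 4) := by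
        apply pr_mono; intro a h
        have h1 : f a ^ 4 = |f a| ^ 4 := by rw [← abs_pow]; exact (abs_of_nonneg (by positivity)).symm
        rw [h1]; gcongr
    _ ≤ _ := pr_le_of_av (fun a => by positivity) (by positivity)

lemma av_pow_four_le {α : Type} [Fintype α] [Nonempty α] (f : α → ℝ) :
    (av f) ^ 4 ≤ av (fun a => f a ^ 4) := by
  have h1 := av_sq_le f
  have h2 := av_sq_le (fun a => f a ^ 2)
  have h3 : (av f) ^ 4 = ((av f) ^ 2) ^ 2 := by ring
  rw [h3]
  calc ((av f) ^ 2) ^ 2 ≤ (av (fun a => f a ^ 2)) ^ 2 := by gcongr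
    _ ≤ av (fun a => (f a ^ 2) ^ 2) := h2
    _ = av (fun a => f a ^ 4) := by apply av_congr; intro a; ring

/-- weight of gradient off `J` -/
noncomputable def WJ (J : Finset ι) (p : (ι → Bool) → ℝ) (x : ι → Bool) : ℝ :=
  ∑ i, if i ∈ J then 0 else dd i p x ^ 2

/-- second derivatives off `J` -/
noncomputable def S2 (J : Finset ι) (p : (ι → Bool) → ℝ) : ℝ :=
  ∑ i, ∑ j, if i ∈ J ∨ j ∈ J then 0 else av (fun x => dd j (dd i p) x ^ 2)

lemma S2_nonneg (J : Finset ι) (p : (ι → Bool) → ℝ) : 0 ≤ S2 J p := by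
  apply Finset.sum_nonneg; intro i _
  apply Finset.sum_nonneg; intro j _
  split_ifs
  · exact le_refl _
  · exact av_nonneg fun _ => sq_nonneg _

lemma av_sq_H_le (J : Finset ι) (p : (ι → Bool) → ℝ) :
    av (fun x => av (fun y => (p (mix J x y) - (coef (fun y => p (mix J x y)) ∅
      + ∑ i, coef (fun y => p (mix J x y)) {i} * sg (y i))) ^ 2)) ≤ S2 J p := by
  calc _ ≤ av (fun x => ∑ i, ∑ j, av (fun y => dd j (dd i (fun y => p (mix J x y))) y ^ 2)) := by
        apply av_mono; intro x
        exact second_order (fun y => p (mix J x y))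
    _ = S2 J p := by
        rw [av_sum]
        apply Finset.sum_congr rfl; intro i _
        rw [av_sum]
        apply Finset.sum_congr rfl; intro j _
        simp only [dd_dd_mix]
        by_cases h : i ∈ J ∨ j ∈ J
        · simp [h, av_const]
        · simp only [h, if_false]
          exact av_mix J (fun z => dd j (dd i p) z ^ 2)

lemma coef_mix_singleton (J : Finset ι) (p : (ι → Bool) → ℝ) (x : ι → Bool) (i : ι) :
    coef (fun y => p (mix J x y)) {i} = if i ∈ J then 0 else av (fun y => dd i p (mix J x y)) := by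
  rw [coef_singleton_eq]
  have : dd i (fun y => p (mix J x y)) = fun y => if i ∈ J then 0 else dd i p (mix J x y) := by
    funext y; exact dd_mix J i p x y
  rw [this]
  by_cases h : i ∈ J
  · simp [h, av_const]
  · simp [h]

lemma av_coef_four_le (J : Finset ι) (p : (ι → Bool) → ℝ) (i : ι) :
    av (fun x => coef (fun y => p (mix J x y)) {i} ^ 4) ≤ av (fun x => dd i p x ^ 4) := by
  simp only [coef_mix_singleton]
  by_cases h : i ∈ J
  · simp only [h, if_true]
    simp only [ne_eq, OfNat.ofNat_ne_zero, not_false_eq_true, zero_pow, av_zero]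
    exact av_nonneg fun _ => by positivity
  · simp only [h, if_false]
    rw [← av_mix J (fun x => dd i p x ^ 4)]
    apply av_mono; intro x
    exact av_pow_four_le _

lemma mix_agree (J : Finset ι) (x x' y : ι → Bool) (h : ∀ i ∈ J, x i = x' i) :
    mix J x y = mix J x' y := by
  funext i
  by_cases hi : i ∈ J
  · simp [mix, hi, h i hi]
  · simp [mix, hi]

lemma av_V_le (J : Finset ι) (p : (ι → Bool) → ℝ) :
    av (fun x => ∑ i, if i ∈ J then 0 else (dd i p x - coef (fun y => p (mix J x y)) {i}) ^ 2)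
      ≤ S2 J p := by
  rw [av_sum]
  apply Finset.sum_le_sum; intro i _
  by_cases hi : i ∈ J
  · simp [hi, av_const]
  · simp only [hi, if_false, false_or, coef_mix_singleton]
    have h1 : av (fun x => (dd i p x - av (fun y => dd i p (mix J x y))) ^ 2)
        = av (fun x => av (fun z => (dd i p (mix J x z) - av (fun y => dd i p (mix J x y))) ^ 2)) := by
      rw [av_mix₂ J (fun x z => (dd i p z - av (fun y => dd i p (mix J x y))) ^ 2)]
      intro x x' y hxx'
      have : ∀ y, mix J x y = mix J x' y := fun y => mix_agree J x x' y hxx'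
      simp only [this]
    rw [h1]
    calc _ ≤ av (fun x => ∑ j, infl j (fun z => dd i p (mix J x z))) := by
          apply av_mono; intro x
          exact poincare (fun z => dd i p (mix J x z))
      _ = ∑ j, if j ∈ J then 0 else av (fun x => dd j (dd i p) x ^ 2) := by
          rw [av_sum]
          apply Finset.sum_congr rfl; intro j _
          unfold infl
          simp only [dd_mix J j (dd i p)]
          by_cases hj : j ∈ J
          · simp [hj, av_const]
          · simp only [hj, if_false]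
            exact av_mix J (fun z => dd j (dd i p) z ^ 2)

lemma fixedJ {κ ε : ℝ} (hκ : 0 < κ) (hε : 0 < ε)
    (hsb : ∀ (ι : Type) [Fintype ι] [DecidableEq ι] (a : ι → ℝ) (c A : ℝ), 0 < A →
      (∀ i, |a i| ≤ κ * A) → A ^ 2 ≤ ∑ i, a i ^ 2 →
      pr (fun x : ι → Bool => |c + ∑ i, a i * sg (x i)| ≤ κ * A) ≤ ε)
    (J : Finset ι) (p : (ι → Bool) → ℝ) {A : ℝ} (hA : 0 < A) :
    pr (fun x => |p x| ≤ κ * A / 2) ≤ ε + pr (fun x => WJ J p x < 4 * A ^ 2) + S2 J p / A ^ 2
      + (∑ i, av (fun x => dd i p x ^ 4)) / (κ * A) ^ 4 + S2 J p / (κ * A / 2) ^ 2 := by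
  classical
  set a : (ι → Bool) → ι → ℝ := fun x i => coef (fun y => p (mix J x y)) {i} with ha
  set c : (ι → Bool) → ℝ := fun x => coef (fun y => p (mix J x y)) ∅ with hc
  set H : (ι → Bool) → (ι → Bool) → ℝ :=
    fun x y => p (mix J x y) - (c x + ∑ i, a x i * sg (y i)) with hH
  set V : (ι → Bool) → ℝ := fun x => ∑ i, if i ∈ J then 0 else (dd i p x - a x i) ^ 2 with hV
  set t := κ * A / 2 with ht
  have ht0 : 0 < t := by positivity
  -- pointwise bound
  have hpt : ∀ x, pr (fun y => |p (mix J x y)| ≤ t) ≤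
      (if ∑ i, a x i ^ 2 < A ^ 2 then (1 : ℝ) else 0)
      + (if ∃ i ∈ (Finset.univ : Finset ι), κ * A ≤ |a x i| then (1 : ℝ) else 0)
      + av (fun y => H x y ^ 2) / t ^ 2 + ε := by
    intro x
    have hnn : 0 ≤ av (fun y => H x y ^ 2) / t ^ 2 :=
      div_nonneg (av_nonneg fun _ => sq_nonneg _) (by positivity)
    by_cases h1 : ∑ i, a x i ^ 2 < A ^ 2
    · simp only [h1, if_true]
      have := pr_le_one (fun y => |p (mix J x y)| ≤ t)
      split_ifs <;> linarith
    by_cases h2 : ∃ i ∈ (Finset.univ : Finset ι), κ * A ≤ |a x i|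
    · simp only [h2, if_true]
      have := pr_le_one (fun y => |p (mix J x y)| ≤ t)
      split_ifs <;> linarith
    simp only [h1, h2, if_false, zero_add]
    have h3 : pr (fun y => |p (mix J x y)| ≤ t) ≤
        pr (fun y => t ≤ |H x y|) + pr (fun y : ι → Bool => |c x + ∑ i, a x i * sg (y i)| ≤ κ * A) := by
      apply pr_le_add
      intro y hy
      by_cases h4 : t ≤ |H x y|
      · left; exact h4
      · right
        have h5 : c x + ∑ i, a x i * sg (y i) = p (mix J x y) - H x y := by
          simp only [hH]; ring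
        rw [h5]
        calc |p (mix J x y) - H x y| ≤ |p (mix J x y)| + |H x y| := by
              rw [sub_eq_add_neg, ← abs_neg (H x y)]; exact abs_add_le _ _
          _ ≤ t + t := by gcongr; exact (not_le.1 h4).le
          _ = κ * A := by rw [ht]; ring
    have h4 : pr (fun y : ι → Bool => |c x + ∑ i, a x i * sg (y i)| ≤ κ * A) ≤ ε := by
      apply hsb ι (a x) (c x) A hA
      · intro i
        by_contra h
        exact h2 ⟨i, Finset.mem_univ _, (not_le.1 h).le⟩
      · exact not_lt.1 h1
    have h5 : pr (fun y => t ≤ |H x y|) ≤ av (fun y => H x y ^ 2) / t ^ 2 := pr_abs_ge_le ht0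
    linarith
  have hmain : pr (fun x => |p x| ≤ t) ≤
      pr (fun x => ∑ i, a x i ^ 2 < A ^ 2)
      + pr (fun x => ∃ i ∈ (Finset.univ : Finset ι), κ * A ≤ |a x i|)
      + av (fun x => av (fun y => H x y ^ 2)) / t ^ 2 + ε := by
    calc pr (fun x => |p x| ≤ t) = av (fun x => pr (fun y => |p (mix J x y)| ≤ t)) := by
          rw [pr_def, ← av_mix J]
          apply av_congr; intro x; rw [pr_def]
      _ ≤ _ := av_mono hpt
      _ = _ := by
          rw [av_add, av_add, av_add, av_const, av_div, pr_eq, pr_eq]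
  have hb1 : pr (fun x => ∑ i, a x i ^ 2 < A ^ 2) ≤ pr (fun x => WJ J p x < 4 * A ^ 2)
      + S2 J p / A ^ 2 := by
    have h1 : pr (fun x => ∑ i, a x i ^ 2 < A ^ 2) ≤ pr (fun x => WJ J p x < 4 * A ^ 2)
        + pr (fun x => A ^ 2 ≤ V x) := by
      apply pr_le_add
      intro x hx
      by_contra hcon
      push Not at hcon
      obtain ⟨h2, h3⟩ := hcon
      have h4 : WJ J p x ≤ 2 * ∑ i, a x i ^ 2 + 2 * V x := by
        rw [Finset.mul_sum, hV, Finset.mul_sum, ← Finset.sum_add_distrib]
        apply Finset.sum_le_sum; intro i _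
        split_ifs
        · nlinarith [sq_nonneg (a x i)]
        · nlinarith [sq_nonneg (dd i p x - a x i - a x i)]
      linarith
    have h2 : pr (fun x => A ^ 2 ≤ V x) ≤ S2 J p / A ^ 2 := by
      refine (pr_le_of_av (fun x => ?_) (by positivity)).trans ?_
      · apply Finset.sum_nonneg; intro i _; split_ifs
        · exact le_refl _
        · exact sq_nonneg _
      · gcongr; exact av_V_le J p
    linarith
  have hb2 : pr (fun x => ∃ i ∈ (Finset.univ : Finset ι), κ * A ≤ |a x i|)
      ≤ (∑ i, av (fun x => dd i p x ^ 4)) / (κ * A) ^ 4 := by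
    calc _ ≤ ∑ i, pr (fun x => κ * A ≤ |a x i|) := pr_exists_le _ _
      _ ≤ ∑ i, av (fun x => a x i ^ 4) / (κ * A) ^ 4 :=
          Finset.sum_le_sum fun i _ => pr_abs_ge_le_four (by positivity)
      _ ≤ ∑ i, av (fun x => dd i p x ^ 4) / (κ * A) ^ 4 := by
          apply Finset.sum_le_sum; intro i _; gcongr; exact av_coef_four_le J p i
      _ = _ := by rw [Finset.sum_div]
  have hb3 : av (fun x => av (fun y => H x y ^ 2)) / t ^ 2 ≤ S2 J p / t ^ 2 := by
    gcongr; exact av_sq_H_le J p
  linarith

end PTFT
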