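import Pool.Agent.PTFT.Influence

/-!
Vector valued Khintchine inequality and lower bounds for the gradient of a regular polynomial.
-/

set_option autoImplicit false
set_option linter.unusedSectionVars false
set_option linter.unusedVariables false

open Finset

namespace PTFT

variable {ι : Type} [Fintype ι] [DecidableEq ι]

lemma sg_eq_chi (i : ι) (x : ι → Bool) : sg (x i) = chi {i} x := by simp [chi]

lemma degLE_lin (a : ι → ℝ) : degLE 1 (fun y : ι → Bool => ∑ i, a i * sg (y i)) := by
  apply degLE.sum; intro i _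
  apply degLE.smul
  simp only [sg_eq_chi]
  exact degLE_chi (by simp)

lemma av_lin_sq (a : ι → ℝ) : av (fun y : ι → Bool => (∑ i, a i * sg (y i)) ^ 2) = ∑ i, a i ^ 2 := by
  have h : ∀ y : ι → Bool, (∑ i, a i * sg (y i)) ^ 2
      = ∑ i, ∑ j, (a i * a j) * (chi {i} y * chi {j} y) := by
    intro y
    rw [sq, Finset.sum_mul_sum]
    apply Finset.sum_congr rfl; intro i _
    apply Finset.sum_congr rfl; intro j _
    rw [sg_eq_chi, sg_eq_chi]; ring
  rw [av_congr h, av_sum]
  apply Finset.sum_congr rfl; intro i _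
  rw [av_sum]
  have h2 : ∀ j, av (fun y : ι → Bool => (a i * a j) * (chi {i} y * chi {j} y))
      = if i = j then a i * a j else 0 := by
    intro j; rw [av_mul_left, av_chi_mul]
    by_cases hij : i = j <;> simp [hij]
  simp only [h2]
  simp [sq]

lemma av_lin_four (a : ι → ℝ) :
    av (fun y : ι → Bool => (∑ i, a i * sg (y i)) ^ 4) ≤ 9 * (∑ i, a i ^ 2) ^ 2 := by
  have := bonami (degLE_lin a)
  rw [av_lin_sq, pow_one] at this
  exact this

lemma khin_vec {α : Type} [Fintype α] (v : ι → α → ℝ) :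
    av (fun y : ι → Bool => (av (fun x => (∑ i, v i x * sg (y i)) ^ 2)) ^ 2)
      ≤ 9 * (av (fun x => ∑ i, v i x ^ 2)) ^ 2 := by
  set u : (ι → Bool) → α → ℝ := fun y x => ∑ i, v i x * sg (y i) with hu
  set G : α → ℝ := fun x => ∑ i, v i x ^ 2 with hG
  have hG0 : ∀ x, 0 ≤ G x := fun x => Finset.sum_nonneg fun i _ => sq_nonneg _
  have h1 : ∀ y, (av (fun x => u y x ^ 2)) ^ 2 = av (fun x => av (fun x' => u y x ^ 2 * u y x' ^ 2)) := by
    intro y
    simp only [av_mul_left, av_mul_right]
    rw [sq]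
  rw [av_congr h1, av_comm]
  have h2 : ∀ x, av (fun y => av (fun x' => u y x ^ 2 * u y x' ^ 2)) ≤ av (fun x' => 9 * (G x * G x')) := by
    intro x
    rw [av_comm]
    apply av_mono; intro x'
    have hcs := av_mul_sq_le (fun y => u y x ^ 2) (fun y => u y x' ^ 2)
    simp only [← pow_mul] at hcs
    norm_num at hcs
    apply le_of_sq_le_sq _ (by have := hG0 x; have := hG0 x'; positivity)
    calc (av fun y => u y x ^ 2 * u y x' ^ 2) ^ 2
        ≤ av (fun y => u y x ^ 4) * av (fun y => u y x' ^ 4) := hcs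
      _ ≤ (9 * G x ^ 2) * (9 * G x' ^ 2) := by
          apply mul_le_mul (av_lin_four _) (av_lin_four _) (av_nonneg fun y => by positivity)
            (by positivity)
      _ = (9 * (G x * G x')) ^ 2 := by ring
  calc av (fun x => av (fun y => av (fun x' => u y x ^ 2 * u y x' ^ 2)))
      ≤ av (fun x => av (fun x' => 9 * (G x * G x'))) := av_mono h2
    _ = 9 * (av G) ^ 2 := by
        simp only [av_mul_left, av_mul_right]
        rw [sq]

lemma khin_vec_first {α : Type} [Fintype α] (v : ι → α → ℝ) :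
    av (fun y : ι → Bool => av (fun x => (∑ i, v i x * sg (y i)) ^ 2))
      = av (fun x => ∑ i, v i x ^ 2) := by
  rw [av_comm]
  apply av_congr; intro x
  exact av_lin_sq (fun i => v i x)

/-- anticoncentration for regular polynomials of degree at most `d` -/
def AC (d : ℕ) : Prop :=
  ∀ ε : ℝ, 0 < ε → ∀ v : ℝ, 0 < v → ∃ t : ℝ, 0 < t ∧ ∃ τ : ℝ, 0 < τ ∧
    ∀ (ι : Type) [Fintype ι] [DecidableEq ι] (p : (ι → Bool) → ℝ), degLE d p →
      v ≤ av (fun x => p x ^ 2) → (∀ i, infl i p ≤ τ) → pr (fun x => |p x| ≤ t) ≤ ε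

lemma dd_sum {κ : Type} (s : Finset κ) (j : ι) (c : κ → ℝ) (f : κ → (ι → Bool) → ℝ) (x : ι → Bool) :
    dd j (fun x => ∑ i ∈ s, f i x * c i) x = ∑ i ∈ s, dd j (f i) x * c i := by
  unfold dd
  rw [← Finset.sum_sub_distrib, Finset.mul_sum, Finset.sum_div]
  apply Finset.sum_congr rfl; intro i _; ring

lemma gradient_lower {d : ℕ} (hAC : AC d) {ε v : ℝ} (hε : 0 < ε) (hv : 0 < v) :
    ∃ γ : ℝ, 0 < γ ∧ ∃ τ : ℝ, 0 < τ ∧
    ∀ (ι : Type) [Fintype ι] [DecidableEq ι] (p : (ι → Bool) → ℝ), degLE (d + 1) p →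
      av (fun x => p x ^ 2) ≤ 1 → v ≤ ∑ i, infl i p → (∀ i, infl i p ≤ τ) →
      pr (fun x => ∑ i, dd i p x ^ 2 ≤ γ) ≤ ε := by
  classical
  obtain ⟨t', ht', τ', hτ', H⟩ := hAC (ε / 4) (by positivity) (v / 2) (by positivity)
  refine ⟨t' ^ 2 / 144, by positivity, τ' ^ 2 / (72 * 9 * ((d : ℝ) ^ 2 * (d + 1) + 1)),
    by positivity, ?_⟩
  set γ := t' ^ 2 / 144 with hγ
  set τ := τ' ^ 2 / (72 * 9 * ((d : ℝ) ^ 2 * (d + 1) + 1)) with hτ
  intro ι _ _ p hp hnorm hI hinf
  set P : (ι → Bool) → (ι → Bool) → ℝ := fun y x => ∑ i, dd i p x * sg (y i) with hP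
  set N : (ι → Bool) → ℝ := fun y => av (fun x => P y x ^ 2) with hN
  set Nj : ι → (ι → Bool) → ℝ :=
    fun j y => av (fun x => (∑ i, dd j (dd i p) x * sg (y i)) ^ 2) with hNj
  set G : (ι → Bool) → ℝ := fun x => ∑ i, dd i p x ^ 2 with hG
  set I : ℝ := ∑ i, infl i p with hIdef
  have hI0 : 0 < I := lt_of_lt_of_le hv hI
  have hGI : av G = I := by
    simp only [hG, hIdef, infl]; rw [av_sum]
  have hN1 : av N = I := by rw [← hGI]; exact khin_vec_first (fun i x => dd i p x)
  have hN2 : av (fun y => N y ^ 2) ≤ 9 * (av N) ^ 2 := by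
    rw [hN1, ← hGI]; exact khin_vec (fun i x => dd i p x)
  have hPZ : 1 / (4 * 9) ≤ pr (fun y => av N / 2 ≤ N y) :=
    paley_zygmund (by norm_num) hN2 (by rw [hN1]; exact hI0)
  -- second derivatives
  have hKj : ∀ j, av (fun x => ∑ i, dd j (dd i p) x ^ 2) ≤ d * infl j p := by
    intro j
    rw [av_sum]
    have h1 : ∀ i, av (fun x => dd j (dd i p) x ^ 2) = infl i (dd j p) := by
      intro i; rw [dd_comm]; rfl
    simp only [h1]
    exact sum_infl_le (hp.dd j)
  have hKj0 : ∀ j, 0 ≤ av (fun x => ∑ i, dd j (dd i p) x ^ 2) :=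
    fun j => av_nonneg fun x => Finset.sum_nonneg fun i _ => sq_nonneg _
  have hNj2 : ∀ j, av (fun y => Nj j y ^ 2) ≤ 9 * (d * infl j p) ^ 2 := by
    intro j
    refine (khin_vec (fun i x => dd j (dd i p) x)).trans ?_
    have := hKj j
    have := hKj0 j
    gcongr
  have hIle : I ≤ (d + 1 : ℝ) := by
    have := sum_infl_le hp
    push_cast at this
    calc I ≤ (d + 1) * av (fun x => p x ^ 2) := this
      _ ≤ (d + 1) * 1 := by gcongr
      _ = d + 1 := by ring
  have hbad : pr (fun y => ∃ j ∈ (Finset.univ : Finset ι), τ' ≤ |Nj j y|) ≤ 1 / 72 := by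
    calc pr (fun y => ∃ j ∈ (Finset.univ : Finset ι), τ' ≤ |Nj j y|)
        ≤ ∑ j, pr (fun y => τ' ≤ |Nj j y|) := pr_exists_le _ _
      _ ≤ ∑ j, av (fun y => Nj j y ^ 2) / τ' ^ 2 := Finset.sum_le_sum fun j _ => pr_abs_ge_le hτ'
      _ ≤ ∑ j, (9 * (d * infl j p) ^ 2) / τ' ^ 2 := by
          apply Finset.sum_le_sum; intro j _; gcongr; exact hNj2 j
      _ ≤ ∑ j, (9 * (d ^ 2 * (τ * infl j p))) / τ' ^ 2 := by
          apply Finset.sum_le_sum; intro j _
          have h0 := infl_nonneg j p
          have h1 := hinf j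
          rw [mul_pow]
          gcongr
          nlinarith
      _ = (9 * (d ^ 2 * (τ * I))) / τ' ^ 2 := by
          rw [hIdef, ← Finset.sum_div, ← Finset.mul_sum, ← Finset.mul_sum, ← Finset.mul_sum]
      _ ≤ (9 * (d ^ 2 * (τ * (d + 1)))) / τ' ^ 2 := by
          have : 0 < τ := by positivity
          gcongr
      _ = ((d : ℝ) ^ 2 * (d + 1)) / ((72 * ((d : ℝ) ^ 2 * (d + 1) + 1))) := by
          rw [hτ]; field_simp
      _ ≤ 1 / 72 := by
          rw [div_le_div_iff₀ (by positivity) (by norm_num)]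
          nlinarith [show (0 : ℝ) ≤ (d : ℝ) ^ 2 * (d + 1) by positivity]
  set Good : (ι → Bool) → Prop := fun y => I / 2 ≤ N y ∧ ∀ j, Nj j y ≤ τ' with hGood
  have hg : 1 / 72 ≤ pr Good := by
    have h1 : pr (fun y => av N / 2 ≤ N y) ≤
        pr Good + pr (fun y => ∃ j ∈ (Finset.univ : Finset ι), τ' ≤ |Nj j y|) := by
      apply pr_le_add
      intro y hy
      by_cases h : ∀ j, Nj j y ≤ τ'
      · left; exact ⟨by rw [← hN1]; exact hy, h⟩
      · right
        push Not at h
        obtain ⟨j, hj⟩ := h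
        exact ⟨j, Finset.mem_univ _, hj.le.trans (le_abs_self _)⟩
    have : (1 : ℝ) / (4 * 9) = 1 / 36 := by norm_num
    linarith
  have hgood : ∀ y, Good y → pr (fun x => |P y x| ≤ t') ≤ ε / 4 := by
    intro y hy
    apply H
    · apply degLE.sum; intro i _
      have := (hp.dd i).smul (sg (y i))
      refine degLE_of_eq this ?_
      intro x; ring
    · calc v / 2 ≤ I / 2 := by linarith
        _ ≤ N y := hy.1
    · intro j
      have : infl j (P y) = Nj j y := by
        unfold infl
        apply av_congr; intro x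
        rw [dd_sum]
      rw [this]; exact hy.2 j
  set g := pr Good with hgdef
  -- double counting
  set A : ℝ := av (fun x => av (fun y => (if G x ≤ γ then (1 : ℝ) else 0) *
    ((if Good y then (1 : ℝ) else 0) * (if |P y x| ≤ t' then (1 : ℝ) else 0)))) with hA
  have hupper : A ≤ g * (ε / 4) := by
    rw [hA, av_comm]
    calc av (fun y => av (fun x => (if G x ≤ γ then (1 : ℝ) else 0) *
          ((if Good y then (1 : ℝ) else 0) * (if |P y x| ≤ t' then (1 : ℝ) else 0))))
        ≤ av (fun y => (if Good y then (1 : ℝ) else 0) * (ε / 4)) := by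
          apply av_mono; intro y
          calc av (fun x => (if G x ≤ γ then (1 : ℝ) else 0) *
                ((if Good y then (1 : ℝ) else 0) * (if |P y x| ≤ t' then (1 : ℝ) else 0)))
              ≤ av (fun x => (if Good y then (1 : ℝ) else 0) * (if |P y x| ≤ t' then (1 : ℝ) else 0)) := by
                apply av_mono; intro x
                by_cases h1 : G x ≤ γ <;> by_cases h2 : Good y <;> by_cases h3 : |P y x| ≤ t' <;>
                  simp [h1, h2, h3]
            _ = (if Good y then (1 : ℝ) else 0) * pr (fun x => |P y x| ≤ t') := by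
                rw [av_mul_left, pr_def]
            _ ≤ (if Good y then (1 : ℝ) else 0) * (ε / 4) := by
                by_cases h2 : Good y
                · simp only [h2, if_true, one_mul]; exact hgood y h2
                · simp [h2]
      _ = g * (ε / 4) := by
          rw [av_mul_right, hgdef, pr_def]
          congr 1
          apply av_congr; intro a; congr
  have hlower : pr (fun x => G x ≤ γ) * (g / 2) ≤ A := by
    rw [hA, pr_def, ← av_mul_right]
    apply av_mono; intro x
    rw [av_mul_left]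
    by_cases h1 : G x ≤ γ
    · simp only [h1, if_true, one_mul]
      have h2 : g ≤ av (fun y => ((if Good y then (1 : ℝ) else 0) *
          (if |P y x| ≤ t' then (1 : ℝ) else 0))) + pr (fun y => t' ≤ |P y x|) := by
        rw [hgdef, pr_def, pr_def, ← av_add]
        apply av_mono; intro y
        by_cases h3 : |P y x| ≤ t'
        · by_cases h4 : Good y
          · simp only [h3, h4, if_true, mul_one]
            split_ifs <;> norm_num
          · simp only [h4, if_false, zero_mul, zero_add]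
            split_ifs <;> norm_num
        · have h5 : t' ≤ |P y x| := le_of_lt (not_le.1 h3)
          by_cases h4 : Good y <;> simp [h3, h4, h5]
      have h3 : pr (fun y => t' ≤ |P y x|) ≤ 1 / 144 := by
        calc pr (fun y => t' ≤ |P y x|) ≤ av (fun y => P y x ^ 2) / t' ^ 2 := pr_abs_ge_le ht'
          _ = G x / t' ^ 2 := by
              congr 1; exact av_lin_sq (fun i => dd i p x)
          _ ≤ γ / t' ^ 2 := by gcongr
          _ = 1 / 144 := by rw [hγ]; field_simp
      linarith
    · simp [h1]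
  have hg0 : 0 < g := by linarith
  have h1 : pr (fun x => G x ≤ γ) * (g / 2) ≤ g * (ε / 4) := hlower.trans hupper
  have h2 : (g / 2) * pr (fun x => G x ≤ γ) ≤ (g / 2) * (ε / 2) := by linarith
  have h3 := le_of_mul_le_mul_left h2 (by positivity)
  linarith

end PTFT
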