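import Pool.Agent.PTFT.SmallBall

/-!
Influences, Poincare type inequalities, restrictions.
-/

set_option autoImplicit false
set_option linter.unusedSectionVars false
set_option linter.unusedVariables false

open Finset

namespace PTFT

variable {ι : Type} [Fintype ι] [DecidableEq ι]

/-- reindexing sums over sets not containing `i` -/
lemma sum_insert_notMem (i : ι) (F : Finset ι → ℝ) :
    ∑ S : Finset ι, (if i ∈ S then 0 else F (insert i S)) = ∑ S : Finset ι, if i ∈ S then F S else 0 := by
  classical
  have h1 : ∑ S : Finset ι, (if i ∈ S then 0 else F (insert i S))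
      = ∑ S ∈ Finset.univ.filter (fun S : Finset ι => i ∉ S), F (insert i S) := by
    rw [Finset.sum_filter]; apply Finset.sum_congr rfl; intro S _
    by_cases h : i ∈ S <;> simp [h]
  have h2 : ∑ S : Finset ι, (if i ∈ S then F S else 0)
      = ∑ S ∈ Finset.univ.filter (fun S : Finset ι => i ∈ S), F S := by
    rw [Finset.sum_filter]
  rw [h1, h2]
  apply Finset.sum_nbij' (fun S => insert i S) (fun S => S.erase i)
  · intro S hS; simp
  · intro S hS; simp
  · intro S hS; simp only [mem_filter, mem_univ, true_and] at hS; exact Finset.erase_insert hS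
  · intro S hS; simp only [mem_filter, mem_univ, true_and] at hS; exact Finset.insert_erase hS
  · intro S hS; rfl

/-- weighted sum of squares of the coefficients of derivatives -/
lemma sum_dd_weight (f : (ι → Bool) → ℝ) (w : ℕ → ℝ) :
    ∑ i, ∑ S : Finset ι, w S.card * coef (dd i f) S ^ 2
      = ∑ S : Finset ι, (S.card * w (S.card - 1)) * coef f S ^ 2 := by
  have h1 : ∀ i : ι, ∑ S : Finset ι, w S.card * coef (dd i f) S ^ 2
      = ∑ S : Finset ι, if i ∈ S then w (S.card - 1) * coef f S ^ 2 else 0 := by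
    intro i
    rw [← sum_insert_notMem i (fun S => w (S.card - 1) * coef f S ^ 2)]
    apply Finset.sum_congr rfl; intro S _
    rw [coef_dd]
    split_ifs with h
    · simp
    · rw [Finset.card_insert_of_notMem h, Nat.add_sub_cancel]
  simp only [h1]
  rw [Finset.sum_comm]
  apply Finset.sum_congr rfl; intro S _
  rw [← Finset.sum_filter]
  simp [mul_assoc]

lemma infl_eq (i : ι) (f : (ι → Bool) → ℝ) :
    infl i f = ∑ S : Finset ι, coef (dd i f) S ^ 2 := parseval _

lemma infl_nonneg (i : ι) (f : (ι → Bool) → ℝ) : 0 ≤ infl i f := av_nonneg fun _ => sq_nonneg _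

lemma sum_infl_eq (f : (ι → Bool) → ℝ) :
    ∑ i, infl i f = ∑ S : Finset ι, (S.card : ℝ) * coef f S ^ 2 := by
  have := sum_dd_weight f (fun _ => 1)
  simp only [one_mul, mul_one] at this
  simp only [infl_eq]
  exact this

lemma sum_infl_le {d : ℕ} {f : (ι → Bool) → ℝ} (hf : degLE d f) :
    ∑ i, infl i f ≤ d * av (fun x => f x ^ 2) := by
  rw [sum_infl_eq, parseval, Finset.mul_sum]
  apply Finset.sum_le_sum; intro S _
  by_cases h : d < S.card
  · rw [hf S h]; simp
  · have : (S.card : ℝ) ≤ d := by exact_mod_cast not_lt.1 h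
    exact mul_le_mul_of_nonneg_right this (sq_nonneg _)

lemma coef_empty (f : (ι → Bool) → ℝ) : coef f ∅ = av f := by
  unfold coef; apply av_congr; intro x; simp

lemma poincare (f : (ι → Bool) → ℝ) :
    av (fun x => (f x - av f) ^ 2) ≤ ∑ i, infl i f := by
  rw [sum_infl_eq, parseval]
  apply Finset.sum_le_sum; intro S _
  have h : coef (fun x => f x - av f) S = coef f S - av f * coef (fun _ : ι → Bool => (1 : ℝ)) S := by
    rw [← coef_smul, ← coef_sub]; simp
  have h1 : coef (fun _ : ι → Bool => (1 : ℝ)) S = if S = ∅ then 1 else 0 := by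
    have : (fun _ : ι → Bool => (1 : ℝ)) = chi ∅ := by funext x; simp
    rw [this, coef_chi]; simp [eq_comm]
  rw [h, h1]
  split_ifs with hS
  · subst hS; rw [coef_empty]; simp
  · have : (1 : ℝ) ≤ S.card := by
      exact_mod_cast Finset.card_pos.2 (Finset.nonempty_iff_ne_empty.2 hS)
    simp only [mul_zero, sub_zero]
    nlinarith [sq_nonneg (coef f S)]

/-- the part of degree at least two is controlled by second derivatives -/
lemma second_order (f : (ι → Bool) → ℝ) :
    av (fun x => (f x - (coef f ∅ + ∑ i, coef f {i} * sg (x i))) ^ 2)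
      ≤ ∑ i, ∑ j, av (fun x => dd j (dd i f) x ^ 2) := by
  have h1 : ∀ i, ∑ j, av (fun x => dd j (dd i f) x ^ 2)
      = ∑ S : Finset ι, (S.card : ℝ) * coef (dd i f) S ^ 2 := fun i => sum_infl_eq (dd i f)
  simp only [h1]
  rw [sum_dd_weight f (fun k => (k : ℝ)), parseval]
  apply Finset.sum_le_sum; intro S _
  have hsg : ∀ (i : ι) (x : ι → Bool), sg (x i) = chi {i} x := by intro i x; simp [chi]
  have h2 : coef (fun x => f x - (coef f ∅ + ∑ i, coef f {i} * sg (x i))) S
      = coef f S - ((if S = ∅ then coef f ∅ else 0) + ∑ i, coef f {i} * (if {i} = S then 1 else 0)) := by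
    rw [coef_sub, coef_add, coef_finset_sum]
    congr 2
    · have : (fun _ : ι → Bool => coef f ∅) = fun x => coef f ∅ * chi ∅ x := by funext x; simp
      rw [this, coef_smul, coef_chi]
      simp [eq_comm]
    · apply Finset.sum_congr rfl; intro i _
      rw [coef_smul]
      congr 1
      simp only [hsg]
      exact coef_chi {i} S
  rw [h2]
  by_cases h0 : S = ∅
  · subst h0; simp
  · by_cases hS1 : S.card = 1
    · obtain ⟨i, rfl⟩ := Finset.card_eq_one.1 hS1
      simp
    · have h3 : ∑ i, coef f {i} * (if {i} = S then (1 : ℝ) else 0) = 0 := by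
        apply Finset.sum_eq_zero; intro i _
        rw [if_neg, mul_zero]
        rintro rfl; simp at hS1
      rw [h3]
      simp only [h0, if_false, add_zero, sub_zero]
      have hc : 2 ≤ S.card := by
        have := Finset.card_pos.2 (Finset.nonempty_iff_ne_empty.2 h0)
        omega
      have h4 : (1 : ℝ) ≤ (S.card : ℝ) * ((S.card - 1 : ℕ) : ℝ) := by
        have h5 : 1 ≤ S.card - 1 := by omega
        have h6 : 1 ≤ S.card * (S.card - 1) := Nat.mul_pos (by omega) (by omega)
        exact_mod_cast h6
      nlinarith [sq_nonneg (coef f S)]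

/-- sum of squares of all second derivatives -/
lemma sum_second_le {d : ℕ} {f : (ι → Bool) → ℝ} (hf : degLE (d + 1) f) :
    ∑ i, ∑ j, av (fun x => dd j (dd i f) x ^ 2) ≤ d * (d + 1) * av (fun x => f x ^ 2) := by
  have h1 : ∀ i, ∑ j, av (fun x => dd j (dd i f) x ^ 2) ≤ d * infl i f :=
    fun i => sum_infl_le (hf.dd i)
  calc ∑ i, ∑ j, av (fun x => dd j (dd i f) x ^ 2) ≤ ∑ i, d * infl i f :=
        Finset.sum_le_sum fun i _ => h1 i
    _ = d * ∑ i, infl i f := by rw [Finset.mul_sum]
    _ ≤ d * ((d + 1 : ℕ) * av (fun x => f x ^ 2)) := by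
        gcongr; exact sum_infl_le hf
    _ = _ := by push_cast; ring

lemma dd_comm (i j : ι) (f : (ι → Bool) → ℝ) : dd i (dd j f) = dd j (dd i f) := by
  funext x
  by_cases h : i = j
  · subst h; rfl
  · unfold dd
    rw [flip_ne (fun hh => h hh.symm) x, flip_ne h x, flip_comm]
    ring

lemma dd_self (i : ι) (f : (ι → Bool) → ℝ) (x : ι → Bool) : dd i (dd i f) x = 0 := by
  have : dd i (dd i f) x = sg (x i) * (dd i f x - dd i f (flip i x)) / 2 := rfl
  rw [this, dd_flip]; ring

lemma mix_flip_of_mem {J : Finset ι} {i : ι} (h : i ∈ J) (x y : ι → Bool) :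
    mix J x (flip i y) = mix J x y := by
  funext j
  by_cases hj : j ∈ J
  · simp [mix, hj]
  · rw [mix_of_notMem hj, mix_of_notMem hj, flip_ne (by rintro rfl; exact hj h)]

lemma mix_flip_of_notMem {J : Finset ι} {i : ι} (h : i ∉ J) (x y : ι → Bool) :
    mix J x (flip i y) = flip i (mix J x y) := by
  funext j
  by_cases hji : j = i
  · subst hji; rw [mix_of_notMem h, flip_same, flip_same, mix_of_notMem h]
  · rw [flip_ne hji]
    by_cases hj : j ∈ J
    · rw [mix_of_mem hj, mix_of_mem hj]
    · rw [mix_of_notMem hj, mix_of_notMem hj, flip_ne hji]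

lemma dd_mix (J : Finset ι) (i : ι) (f : (ι → Bool) → ℝ) (x y : ι → Bool) :
    dd i (fun y => f (mix J x y)) y = if i ∈ J then 0 else dd i f (mix J x y) := by
  unfold dd
  split_ifs with h
  · simp only [mix_flip_of_mem h]; ring
  · simp only [mix_flip_of_notMem h, mix_of_notMem h]

lemma dd_dd_mix (J : Finset ι) (i j : ι) (f : (ι → Bool) → ℝ) (x y : ι → Bool) :
    dd j (dd i (fun y => f (mix J x y))) y
      = if i ∈ J ∨ j ∈ J then 0 else dd j (dd i f) (mix J x y) := by
  have h1 : dd i (fun y => f (mix J x y)) = fun y => if i ∈ J then 0 else dd i f (mix J x y) := by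
    funext y; exact dd_mix J i f x y
  rw [h1]
  by_cases hi : i ∈ J
  · simp [hi, dd]
  · simp only [hi, if_false, false_or]
    exact dd_mix J j (dd i f) x y

lemma coef_singleton_eq (f : (ι → Bool) → ℝ) (i : ι) : coef f {i} = av (dd i f) := by
  rw [← coef_empty, coef_dd]; simp

end PTFT
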