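import Pool.Agent.PTFT.Regularity

/-!
Structure of the near zero set of a sequence of low degree polynomials (along an ultrafilter).
-/

set_option autoImplicit false
set_option linter.unusedSectionVars false
set_option linter.unusedVariables false
set_option linter.unnecessarySeqFocus false

open Finset Filter

namespace PTFT

section static

variable {ι : Type} [Fintype ι] [DecidableEq ι]

/-- low degree part -/
noncomputable def lowp (d : ℕ) (q : (ι → Bool) → ℝ) (x : ι → Bool) : ℝ :=
  ∑ S ∈ Finset.univ.filter (fun S : Finset ι => S.card ≤ d), coef q S * chi S x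

/-- high degree part -/
noncomputable def highp (d : ℕ) (q : (ι → Bool) → ℝ) (x : ι → Bool) : ℝ := q x - lowp d q x

lemma lowp_eq (d : ℕ) (q : (ι → Bool) → ℝ) (x : ι → Bool) :
    lowp d q x = ∑ S : Finset ι, (if S.card ≤ d then coef q S else 0) * chi S x := by
  unfold lowp
  rw [Finset.sum_filter]
  apply Finset.sum_congr rfl; intro S _
  split_ifs <;> simp

lemma coef_lowp (d : ℕ) (q : (ι → Bool) → ℝ) (S : Finset ι) :
    coef (lowp d q) S = if S.card ≤ d then coef q S else 0 := by
  have : lowp d q = fun x => ∑ S : Finset ι, (if S.card ≤ d then coef q S else 0) * chi S x := by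
    funext x; exact lowp_eq d q x
  rw [this, coef_sum]

lemma degLE_lowp (d : ℕ) (q : (ι → Bool) → ℝ) : degLE d (lowp d q) := by
  intro S hS; rw [coef_lowp, if_neg (not_le.2 hS)]

lemma coef_highp (d : ℕ) (q : (ι → Bool) → ℝ) (S : Finset ι) :
    coef (highp d q) S = if S.card ≤ d then 0 else coef q S := by
  unfold highp
  rw [coef_sub, coef_lowp]
  split_ifs <;> simp

lemma av_lowp_sq_le (d : ℕ) (q : (ι → Bool) → ℝ) :
    av (fun x => lowp d q x ^ 2) ≤ av (fun x => q x ^ 2) := by
  rw [parseval, parseval]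
  apply Finset.sum_le_sum; intro S _
  rw [coef_lowp]; split_ifs
  · exact le_refl _
  · simpa using sq_nonneg _

lemma av_highp_sq_le (d : ℕ) (q : (ι → Bool) → ℝ) :
    av (fun x => highp d q x ^ 2) ≤ av (fun x => q x ^ 2) := by
  rw [parseval, parseval]
  apply Finset.sum_le_sum; intro S _
  rw [coef_highp]; split_ifs
  · simpa using sq_nonneg _
  · exact le_refl _

lemma degLE_mix_sub {d : ℕ} {p : (ι → Bool) → ℝ} (hp : degLE (d + 1) p) (J : Finset ι)
    (x x' : ι → Bool) : degLE d (fun y => p (mix J x y) - p (mix J x' y)) := by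
  have h : ∀ y, p (mix J x y) - p (mix J x' y)
      = ∑ S ∈ Finset.univ.filter (fun S : Finset ι => S.card ≤ d + 1),
        (coef p S * (chi (S ∩ J) x - chi (S ∩ J) x')) * chi (S \ J) y := by
    intro y
    rw [hp.eq_sum, hp.eq_sum (mix J x' y), ← Finset.sum_sub_distrib]
    apply Finset.sum_congr rfl; intro S _
    rw [chi_mix, chi_mix]; ring
  refine degLE_of_eq ?_ h
  apply degLE.sum; intro S hS
  by_cases h0 : S ∩ J = ∅
  · rw [h0]
    simp only [chi_empty, sub_self, mul_zero]
    exact (degLE_chi (d := d) (S := ∅) (by simp)).smul 0 |> fun h => degLE_of_eq h (by intro x; simp)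
  · apply degLE.smul
    apply degLE_chi
    simp only [mem_filter, mem_univ, true_and] at hS
    have h1 : (S ∩ J).card + (S \ J).card = S.card := Finset.card_inter_add_card_sdiff S J
    have h2 : 0 < (S ∩ J).card := Finset.card_pos.2 (Finset.nonempty_iff_ne_empty.2 h0)
    omega

lemma highp_mix_eq {d : ℕ} {p : (ι → Bool) → ℝ} (hp : degLE (d + 1) p) (J : Finset ι)
    (x x' y : ι → Bool) :
    highp d (fun y => p (mix J x y)) y = highp d (fun y => p (mix J x' y)) y := by
  have h := degLE_mix_sub hp J x x'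
  rw [fourier (highp d (fun y => p (mix J x y))) y, fourier (highp d (fun y => p (mix J x' y))) y]
  apply Finset.sum_congr rfl; intro S _
  rw [coef_highp, coef_highp]
  split_ifs with hS
  · rfl
  · have h1 := h S (not_le.1 hS)
    rw [coef_sub] at h1
    rw [sub_eq_zero.1 h1]

/-- representatives of all restrictions to `J` -/
lemma exists_enum (J : Finset ι) {j0 : ℕ} (hJ : J.card ≤ j0) :
    ∃ ρ : Fin (2 ^ j0) → (ι → Bool), ∀ x : ι → Bool, ∃ l, ∀ i ∈ J, ρ l i = x i := by
  classical
  have hcard : Fintype.card (J → Bool) ≤ Fintype.card (Fin (2 ^ j0)) := by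
    simp only [Fintype.card_fin, Fintype.card_fun, Fintype.card_bool, Fintype.card_coe]
    exact Nat.pow_le_pow_right (by norm_num) hJ
  obtain ⟨g⟩ := Function.Embedding.nonempty_of_card_le hcard
  have hg := Function.leftInverse_invFun g.injective
  refine ⟨fun l i => if h : i ∈ J then Function.invFun g l ⟨i, h⟩ else false, ?_⟩
  intro x
  refine ⟨g (fun i => x i), ?_⟩
  intro i hi
  simp only [hi, dif_pos]
  rw [hg (fun i : J => x i)]

lemma mix_eq_of_agree (J : Finset ι) (ρ x : ι → Bool) (h : ∀ i ∈ J, ρ i = x i) :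
    mix J ρ x = x := by
  funext i
  by_cases hi : i ∈ J
  · simp [mix, hi, h i hi]
  · simp [mix, hi]

/-- Paley-Zygmund for low degree polynomials -/
lemma pz_poly {d : ℕ} {q : (ι → Bool) → ℝ} (hq : degLE d q) (hpos : 0 < av (fun x => q x ^ 2)) :
    1 / (4 * 9 ^ d) ≤ pr (fun x => av (fun x => q x ^ 2) / 2 ≤ q x ^ 2) := by
  apply paley_zygmund (N := fun x => q x ^ 2) (by positivity) _ hpos
  have := bonami hq
  simpa only [← pow_mul] using this

open Classical in
lemma av_ite_mix (J : Finset ι) (R : (ι → Bool) → Prop)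
    (hR : ∀ x x', (∀ i ∈ J, x i = x' i) → (R x → R x')) (f : (ι → Bool) → ℝ) :
    av (fun x => if R x then f x else 0) = av (fun x => if R x then av (fun y => f (mix J x y)) else 0) := by
  rw [← av_mix J (fun x => if R x then f x else 0)]
  apply av_congr; intro x
  have h : ∀ y, R (mix J x y) ↔ R x := by
    intro y
    constructor
    · exact hR _ _ (fun i hi => by simp [mix, hi])
    · exact hR _ _ (fun i hi => by simp [mix, hi])
  simp only [h]
  split_ifs
  · rfl
  · exact av_zero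

end static

section seq

variable {ι : ℕ → Type} [∀ k, Fintype (ι k)] [∀ k, DecidableEq (ι k)]

open Classical in
/-- The conclusion of the structure lemma. -/
def Struct (U : Ultrafilter ℕ) (p : ∀ k, (ι k → Bool) → ℝ) : Prop :=
  ∃ j0 : ℕ, ∃ J : ∀ k, Finset (ι k), ∃ Z : ∀ k, (ι k → Bool) → Prop,
    (∀ k, (J k).card ≤ j0) ∧
    (∀ k x x', (∀ i ∈ J k, x i = x' i) → (Z k x → Z k x')) ∧
    (∀ η : ℝ, 0 < η → ∀ᶠ k in (U : Filter ℕ), av (fun x => if Z k x then p k x ^ 2 else 0) ≤ η) ∧
    (∀ ε : ℝ, 0 < ε → ∃ s : ℝ, 0 < s ∧ ∀ᶠ k in (U : Filter ℕ), pr (fun x => ¬ Z k x ∧ |p k x| ≤ s) ≤ ε)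

/-- the near zero probability is zero -/
lemma struct_of_small (U : Ultrafilter ℕ) (p : ∀ k, (ι k → Bool) → ℝ)
    (h : ∀ ε : ℝ, 0 < ε → ∃ s : ℝ, 0 < s ∧ ∀ᶠ k in (U : Filter ℕ), pr (fun x => |p k x| ≤ s) ≤ ε) :
    Struct U p := by
  classical
  refine ⟨0, fun k => ∅, fun k x => False, fun k => by simp, fun k x x' _ h => h, ?_, ?_⟩
  · intro η hη
    apply Filter.Eventually.of_forall; intro k
    simp only [if_false, av_zero]; exact hη.le
  · intro ε hε
    obtain ⟨s, hs, H⟩ := h ε hε
    refine ⟨s, hs, ?_⟩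
    filter_upwards [H] with k hk
    simpa using hk

lemma struct_zero (U : Ultrafilter ℕ) (p : ∀ k, (ι k → Bool) → ℝ) (hp : ∀ k, degLE 0 (p k)) :
    Struct U p := by
  classical
  have h1 : ∀ k x, p k x = coef (p k) ∅ := fun k => degLE_zero_iff (hp k)
  by_cases h : ∀ η : ℝ, 0 < η → ∀ᶠ k in (U : Filter ℕ), coef (p k) ∅ ^ 2 ≤ η
  · refine ⟨0, fun k => ∅, fun k x => True, fun k => by simp, fun k x x' _ h => h, ?_, ?_⟩
    · intro η hη
      filter_upwards [h η hη] with k hk
      simp only [if_true]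
      rw [av_congr (g := fun _ => coef (p k) ∅ ^ 2) (fun x => by rw [h1 k x]), av_const]
      exact hk
    · intro ε hε
      refine ⟨1, one_pos, ?_⟩
      apply Filter.Eventually.of_forall; intro k
      simp only [not_true, false_and]
      rw [pr_eq]; simp [av_zero]; exact hε.le
  · push Not at h
    obtain ⟨η, hη, h3⟩ := h
    apply struct_of_small
    intro ε hε
    refine ⟨Real.sqrt η / 2, by positivity, ?_⟩
    filter_upwards [h3] with k hk
    have h4 : pr (fun x => |p k x| ≤ Real.sqrt η / 2) = 0 := by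
      rw [pr_eq]
      refine Eq.trans (av_congr (g := fun _ => (0 : ℝ)) ?_) av_zero
      intro x
      rw [if_neg]
      rw [h1 k x]
      intro h5
      apply absurd hk (not_lt.2 _)
      rw [← sq_abs]
      calc |coef (p k) ∅| ^ 2 ≤ (Real.sqrt η / 2) ^ 2 := by gcongr
        _ = η / 4 := by rw [div_pow, Real.sq_sqrt hη.le]; norm_num
        _ ≤ η := by linarith
    rw [h4]; exact hε.le

lemma struct_step (U : Ultrafilter ℕ) (d : ℕ)
    (IH : ∀ (p : ∀ k, (ι k → Bool) → ℝ), (∀ k, degLE d (p k)) →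
      (∀ k, av (fun x => p k x ^ 2) ≤ 1) → Struct U p)
    (p : ∀ k, (ι k → Bool) → ℝ) (hp : ∀ k, degLE (d + 1) (p k))
    (hnorm : ∀ k, av (fun x => p k x ^ 2) ≤ 1) : Struct U p := by
  classical
  set Aset : Set ℝ := {a | ∃ s : ℝ, 0 < s ∧ ∀ᶠ k in (U : Filter ℕ), pr (fun x => |p k x| ≤ s) ≤ a}
    with hAset
  have hAne : Aset.Nonempty := ⟨1, 1, one_pos, Filter.Eventually.of_forall fun k => pr_le_one _⟩
  have hAbd : BddBelow Aset := by
    refine ⟨0, ?_⟩
    rintro a ⟨s, hs, H⟩
    obtain ⟨k, hk⟩ := H.exists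
    exact (pr_nonneg _).trans hk
  set z := sInf Aset with hz
  have hzgt : ∀ a, z < a → ∃ s : ℝ, 0 < s ∧ ∀ᶠ k in (U : Filter ℕ), pr (fun x => |p k x| ≤ s) ≤ a := by
    intro a ha
    obtain ⟨a', ⟨s, hs, H⟩, ha'⟩ := exists_lt_of_csInf_lt hAne ha
    exact ⟨s, hs, H.mono fun k hk => hk.trans ha'.le⟩
  have hzlt : ∀ a, a < z → ∀ s : ℝ, 0 < s → ∀ᶠ k in (U : Filter ℕ), a < pr (fun x => |p k x| ≤ s) := by
    intro a ha s hs
    have h1 : a ∉ Aset := fun h => absurd (csInf_le hAbd h) (not_le.2 ha)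
    have h2 : ¬ ∀ᶠ k in (U : Filter ℕ), pr (fun x => |p k x| ≤ s) ≤ a := fun h => h1 ⟨s, hs, h⟩
    exact ((Ultrafilter.eventually_not (f := U)).2 h2).mono fun k hk => not_le.1 hk
  by_cases hz0 : z ≤ 0
  · apply struct_of_small
    intro ε hε
    exact hzgt ε (lt_of_le_of_lt hz0 hε)
  have hzpos : 0 < z := not_le.1 hz0
  set c : ℝ := 1 / (4 * 9 ^ (d + 1)) with hc
  have hc0 : 0 < c := by positivity
  have hc1 : c ≤ 1 / 4 := by
    rw [hc]; apply one_div_le_one_div_of_le (by norm_num)
    have : (1 : ℝ) ≤ 9 ^ (d + 1) := one_le_pow₀ (by norm_num)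
    linarith
  set ε : ℝ := z * c / 8 with hε
  have hε0 : 0 < ε := by positivity
  obtain ⟨s0, hs0, hs0ev⟩ := hzgt (z + ε) (by linarith)
  obtain ⟨j0, s1, hs1, hjunta⟩ := junta_anticoncentration (d + 1) hε0
    (show (0 : ℝ) < ε * s0 ^ 2 by positivity)
  choose J hJcard hJpr using fun k => hjunta (ι k) (p k) (hp k) (hnorm k)
  set s' := ε * s0 ^ 2 with hs'
  -- the junta event
  set R : ∀ k, (ι k → Bool) → Prop := fun k x => cn2 (J k) (p k) x < s' with hR
  have hRcongr : ∀ k x x', (∀ i ∈ J k, x i = x' i) → (R k x → R k x') := by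
    intro k x x' h h1
    simp only [hR] at h1 ⊢
    rwa [← cn2_congr (J k) (p k) x x' h]
  -- P(R ∧ s0 < |p|) ≤ ε
  have hR1 : ∀ k, pr (fun x => R k x ∧ s0 ≤ |p k x|) ≤ ε := by
    intro k
    calc pr (fun x => R k x ∧ s0 ≤ |p k x|)
        ≤ av (fun x => (if R k x then p k x ^ 2 else 0) / s0 ^ 2) := by
          rw [pr_eq]; apply av_mono; intro x
          by_cases h1 : R k x
          · by_cases h2 : s0 ≤ |p k x|
            · simp only [h1, h2, and_self, if_true]
              rw [le_div_iff₀ (by positivity), one_mul, ← sq_abs (p k x)]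
              gcongr
            · simp only [h1, h2, and_false, if_false, if_true]; positivity
          · simp [h1]
      _ = av (fun x => if R k x then cn2 (J k) (p k) x else 0) / s0 ^ 2 := by
          rw [av_div]
          congr 1
          have := av_ite_mix (J k) (R k) (hRcongr k) (fun x => p k x ^ 2)
          exact this
      _ ≤ s' / s0 ^ 2 := by
          gcongr
          calc av (fun x => if R k x then cn2 (J k) (p k) x else 0) ≤ av (fun _ => s') := by
                apply av_mono; intro x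
                split_ifs with h
                · exact le_of_lt h
                · positivity
            _ = s' := av_const _
      _ = ε := by rw [hs']; field_simp
  have hR2 : ∀ᶠ k in (U : Filter ℕ), pr (R k) ≤ z + 2 * ε := by
    filter_upwards [hs0ev] with k hk
    have : pr (R k) ≤ pr (fun x => |p k x| ≤ s0) + pr (fun x => R k x ∧ s0 ≤ |p k x|) := by
      apply pr_le_add; intro x hx
      rcases le_total (|p k x|) s0 with h | h
      · exact Or.inl h
      · exact Or.inr ⟨hx, h⟩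
    linarith [hR1 k]
  -- the density claim
  have hdens : ∀ η : ℝ, 0 < η → ∀ᶠ k in (U : Filter ℕ), ∃ x, cn2 (J k) (p k) x ≤ η := by
    intro η hη
    by_contra hcon
    have hcon' := (Ultrafilter.eventually_not (f := U)).2 hcon
    set s := min (min s0 s1) (Real.sqrt η / 2) with hs
    have hspos : 0 < s := lt_min (lt_min hs0 hs1) (by positivity)
    have hsη : s ^ 2 < η / 2 := by
      have h1 : s ≤ Real.sqrt η / 2 := min_le_right _ _
      have h2 : s ^ 2 ≤ (Real.sqrt η / 2) ^ 2 := by gcongr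
      rw [div_pow, Real.sq_sqrt hη.le] at h2
      norm_num at h2
      linarith
    have hev := hzlt (z - ε) (by linarith) s hspos
    obtain ⟨k, hk1, hk2, hk3⟩ := (hcon'.and (hev.and hR2)).exists
    push Not at hk1
    -- P(R ∧ |p| ≤ s) ≥ z - 2ε
    have h1 : pr (fun x => |p k x| ≤ s) ≤ pr (fun x => R k x ∧ |p k x| ≤ s)
        + pr (fun x => s' ≤ cn2 (J k) (p k) x ∧ |p k x| ≤ s1) := by
      apply pr_le_add; intro x hx
      by_cases hRx : R k x
      · exact Or.inl ⟨hRx, hx⟩
      · exact Or.inr ⟨not_lt.1 hRx, hx.trans ((min_le_left _ _).trans (min_le_right _ _))⟩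
    have h2 := hJpr k
    have h3 := pr_and_add_pr_and_not (R k) (fun x => |p k x| ≤ s)
    have h4 : c * pr (R k) ≤ pr (fun x => R k x ∧ ¬ |p k x| ≤ s) := by
      have e1 : pr (fun x => R k x ∧ ¬ |p k x| ≤ s)
          = av (fun x => if R k x then (if ¬ |p k x| ≤ s then (1 : ℝ) else 0) else 0) := by
        rw [pr_eq]; apply av_congr; intro x
        by_cases h1 : R k x <;> by_cases h2 : |p k x| ≤ s <;> simp [h1, h2]
      have e2 := av_ite_mix (J k) (R k) (hRcongr k) (fun x => if ¬ |p k x| ≤ s then (1 : ℝ) else 0)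
      have e3 : pr (fun x => R k x ∧ ¬ |p k x| ≤ s) = av (fun x => if R k x then
          av (fun y => if ¬ |p k (mix (J k) x y)| ≤ s then (1 : ℝ) else 0) else 0) := by
        rw [e1]; convert e2 using 1
      rw [e3, pr_eq, ← av_mul_left]
      apply av_mono; intro x
      split_ifs with hx
      · rw [mul_one]
        have h5 := pz_poly ((hp k).mix (J k) x) (lt_trans hη (hk1 x))
        refine h5.trans ?_
        rw [← pr_eq]
        apply pr_mono; intro y hy
        have h6 : η < cn2 (J k) (p k) x := hk1 x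
        have h7 : cn2 (J k) (p k) x / 2 ≤ p k (mix (J k) x y) ^ 2 := hy
        intro h8
        have h9 : p k (mix (J k) x y) ^ 2 ≤ s ^ 2 := by
          rw [← sq_abs]; gcongr
        linarith
      · simp
    have h5 : z - 2 * ε ≤ pr (R k) := by
      have := pr_nonneg (fun x => R k x ∧ ¬ |p k x| ≤ s)
      linarith
    have h6 : c * (z - 2 * ε) ≤ c * pr (R k) := by gcongr
    have h7 : pr (fun x => R k x ∧ ¬ |p k x| ≤ s) ≤ 4 * ε := by linarith
    have h8 : c * (z - 2 * ε) ≤ 4 * ε := h6.trans (h4.trans h7)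
    rw [hε] at h8
    nlinarith [mul_pos hzpos hc0]
  -- choose minimising points
  have hmin : ∀ k, ∃ x0, ∀ x, cn2 (J k) (p k) x0 ≤ cn2 (J k) (p k) x := by
    intro k
    obtain ⟨x0, -, hx0⟩ := Finset.exists_min_image (Finset.univ : Finset (ι k → Bool))
      (fun x => cn2 (J k) (p k) x) ⟨fun _ => false, Finset.mem_univ _⟩
    exact ⟨x0, fun x => hx0 x (Finset.mem_univ _)⟩
  choose x0 hx0 using hmin
  set e : ∀ k, (ι k → Bool) → ℝ := fun k => highp d (fun y => p k (mix (J k) (x0 k) y)) with he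
  have hesmall : ∀ η : ℝ, 0 < η → ∀ᶠ k in (U : Filter ℕ), av (fun y => e k y ^ 2) ≤ η := by
    intro η hη
    filter_upwards [hdens η hη] with k hk
    obtain ⟨x, hx⟩ := hk
    exact (av_highp_sq_le d _).trans ((hx0 k x).trans hx)
  choose ρ hρ using fun k => exists_enum (J k) (hJcard k)
  set u : Fin (2 ^ j0) → ∀ k, (ι k → Bool) → ℝ :=
    fun l k => lowp d (fun y => p k (mix (J k) (ρ k l) y)) with hu
  have hdecomp : ∀ k l x, (∀ i ∈ J k, ρ k l i = x i) → p k x = u l k x + e k x := by
    intro k l x hx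
    have h1 : p k x = p k (mix (J k) (ρ k l) x) := by rw [mix_eq_of_agree _ _ _ hx]
    have h2 := highp_mix_eq (hp k) (J k) (x0 k) (ρ k l) x
    have h3 : highp d (fun y => p k (mix (J k) (ρ k l) y)) x
        = p k (mix (J k) (ρ k l) x) - u l k x := rfl
    have h4 : e k x = highp d (fun y => p k (mix (J k) (x0 k) y)) x := rfl
    rw [h4, h2, h3, h1]; ring
  set B : ℝ := 2 ^ j0 with hB
  have hB1 : 1 ≤ B := one_le_pow₀ (by norm_num)
  have hB0 : 0 < B := by linarith
  have hunorm : ∀ l k, av (fun x => (B⁻¹ * u l k x) ^ 2) ≤ 1 := by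
    intro l k
    have h1 : av (fun x => u l k x ^ 2) ≤ B := by
      refine (av_lowp_sq_le d _).trans ?_
      refine (cn2_le (J k) (p k) (ρ k l)).trans ?_
      calc (2 : ℝ) ^ (J k).card * av (fun x => p k x ^ 2) ≤ 2 ^ j0 * 1 := by
            have h0 := hnorm k
            have h2 : 0 ≤ av (fun x => p k x ^ 2) := av_nonneg fun _ => sq_nonneg _
            gcongr
            · norm_num
            · exact hJcard k
        _ = B := by rw [hB]; ring
    have h2 : ∀ x, (B⁻¹ * u l k x) ^ 2 = (B⁻¹ * B⁻¹) * u l k x ^ 2 := by intro x; ring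
    rw [av_congr h2, av_mul_left]
    calc B⁻¹ * B⁻¹ * av (fun x => u l k x ^ 2) ≤ B⁻¹ * B⁻¹ * B := by gcongr
      _ = B⁻¹ := by field_simp
      _ ≤ 1 := inv_le_one_of_one_le₀ hB1
  have hstr : ∀ l, Struct U (fun k x => B⁻¹ * u l k x) := fun l =>
    IH (fun k x => B⁻¹ * u l k x) (fun k => (degLE_lowp d _).smul _) (hunorm l)
  choose jl Jl Zl hJlcard hZlcongr hZli hZlii using hstr
  obtain ⟨Z', hZ'⟩ : ∃ Z' : ∀ k, (ι k → Bool) → Prop,
      ∀ k x, Z' k x ↔ ∃ l, (∀ i ∈ J k, ρ k l i = x i) ∧ Zl l k x := ⟨_, fun _ _ => Iff.rfl⟩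
  refine ⟨j0 + ∑ l, jl l, fun k => J k ∪ Finset.univ.biUnion (fun l => Jl l k), Z', ?_, ?_, ?_, ?_⟩
  · intro k
    refine (Finset.card_union_le _ _).trans ?_
    refine add_le_add (hJcard k) ?_
    refine Finset.card_biUnion_le.trans ?_
    exact Finset.sum_le_sum fun l _ => hJlcard l k
  · intro k x x' h hZx
    rw [hZ'] at hZx ⊢
    obtain ⟨l, h1, h2⟩ := hZx
    refine ⟨l, ?_, ?_⟩
    · intro i hi
      rw [h1 i hi]; exact h i (Finset.mem_union_left _ hi)
    · apply hZlcongr l k x x' _ h2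
      intro i hi
      exact h i (Finset.mem_union_right _ (Finset.mem_biUnion.2 ⟨l, Finset.mem_univ _, hi⟩))
  · intro η hη
    set L : ℝ := ((2 ^ j0 : ℕ) : ℝ) with hL
    have hL0 : 0 < L := by rw [hL]; positivity
    set η' : ℝ := η / (4 * L * B ^ 2) with hη'
    have hη'0 : 0 < η' := by positivity
    have hev1 : ∀ᶠ k in (U : Filter ℕ), ∀ l,
        av (fun x => if Zl l k x then (B⁻¹ * u l k x) ^ 2 else 0) ≤ η' :=
      Filter.eventually_all.2 fun l => hZli l η' hη'0
    filter_upwards [hev1, hesmall η' hη'0] with k hk1 hk2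
    have hptw : ∀ x, (if Z' k x then p k x ^ 2 else 0)
        ≤ ∑ l, (2 * B ^ 2 * (if Zl l k x then (B⁻¹ * u l k x) ^ 2 else 0) + 2 * e k x ^ 2) := by
      intro x
      have hnn : ∀ l, 0 ≤ 2 * B ^ 2 * (if Zl l k x then (B⁻¹ * u l k x) ^ 2 else 0) + 2 * e k x ^ 2 := by
        intro l; split_ifs <;> positivity
      split_ifs with h
      · obtain ⟨l, h1, h2⟩ := (hZ' k x).1 h
        refine le_trans ?_ (Finset.single_le_sum (fun l _ => hnn l) (Finset.mem_univ l))
        simp only [h2, if_true]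
        rw [hdecomp k l x h1]
        have : 2 * B ^ 2 * (B⁻¹ * u l k x) ^ 2 = 2 * u l k x ^ 2 := by field_simp
        rw [this]
        nlinarith [sq_nonneg (u l k x - e k x)]
      · exact Finset.sum_nonneg fun l _ => hnn l
    calc _ ≤ _ := av_mono hptw
      _ = ∑ l, (2 * B ^ 2 * av (fun x => if Zl l k x then (B⁻¹ * u l k x) ^ 2 else 0)
            + 2 * av (fun x => e k x ^ 2)) := by
          rw [av_sum]; apply Finset.sum_congr rfl; intro l _
          rw [av_add, av_mul_left, av_mul_left]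
      _ ≤ ∑ l : Fin (2 ^ j0), (2 * B ^ 2 * η' + 2 * η') := by
          apply Finset.sum_le_sum; intro l _
          have := hk1 l
          gcongr
      _ = L * (2 * B ^ 2 * η' + 2 * η') := by
          rw [Finset.sum_const, Finset.card_univ, Fintype.card_fin, nsmul_eq_mul, ← hL]
      _ ≤ L * (2 * B ^ 2 * η' + 2 * B ^ 2 * η') := by
          gcongr
          nlinarith [one_le_pow₀ hB1 (n := 2)]
      _ = η := by rw [hη']; field_simp; ring
  · intro ε' hε'
    set L : ℝ := ((2 ^ j0 : ℕ) : ℝ) with hL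
    have hL0 : 0 < L := by rw [hL]; positivity
    choose sl hsl hslev using fun l => hZlii l (ε' / (2 * L)) (by positivity)
    -- a common s
    obtain ⟨s, hs, hsle⟩ : ∃ s : ℝ, 0 < s ∧ ∀ l, 2 * s * B⁻¹ ≤ sl l := by
      have hne : (Finset.univ : Finset (Fin (2 ^ j0))).Nonempty :=
        ⟨⟨0, by positivity⟩, Finset.mem_univ _⟩
      obtain ⟨l0, -, hl0⟩ := Finset.exists_min_image Finset.univ sl hne
      refine ⟨sl l0 * B / 2, by have := hsl l0; positivity, ?_⟩
      intro l
      have : 2 * (sl l0 * B / 2) * B⁻¹ = sl l0 := by field_simp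
      rw [this]; exact hl0 l (Finset.mem_univ _)
    refine ⟨s, hs, ?_⟩
    have hev1 : ∀ᶠ k in (U : Filter ℕ), ∀ l,
        pr (fun x => ¬ Zl l k x ∧ |B⁻¹ * u l k x| ≤ sl l) ≤ ε' / (2 * L) :=
      Filter.eventually_all.2 fun l => hslev l
    have hη : 0 < ε' * s ^ 2 / (2 * L) := by positivity
    filter_upwards [hev1, hesmall _ hη] with k hk1 hk2
    have h1 : pr (fun x => ¬ Z' k x ∧ |p k x| ≤ s)
        ≤ pr (fun x => ∃ l ∈ (Finset.univ : Finset (Fin (2 ^ j0))),
            (¬ Zl l k x ∧ |B⁻¹ * u l k x| ≤ sl l) ∨ s ≤ |e k x|) := by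
      apply pr_mono
      rintro x ⟨hx1, hx2⟩
      obtain ⟨l, hl⟩ := hρ k x
      refine ⟨l, Finset.mem_univ _, ?_⟩
      by_cases h2 : s ≤ |e k x|
      · exact Or.inr h2
      · left
        refine ⟨fun hZ => hx1 ((hZ' k x).2 ⟨l, hl, hZ⟩), ?_⟩
        have h3 : u l k x = p k x - e k x := by rw [hdecomp k l x hl]; ring
        rw [abs_mul, abs_of_pos (inv_pos.2 hB0), h3]
        calc B⁻¹ * |p k x - e k x| ≤ B⁻¹ * (|p k x| + |e k x|) := by
              gcongr
              rw [sub_eq_add_neg, ← abs_neg (e k x)]; exact abs_add_le _ _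
          _ ≤ B⁻¹ * (s + s) := by gcongr; exact (not_le.1 h2).le
          _ = 2 * s * B⁻¹ := by ring
          _ ≤ sl l := hsle l
    refine h1.trans ((pr_exists_le _ _).trans ?_)
    calc ∑ l, pr (fun x => (¬ Zl l k x ∧ |B⁻¹ * u l k x| ≤ sl l) ∨ s ≤ |e k x|)
        ≤ ∑ l : Fin (2 ^ j0), (ε' / (2 * L) + ε' / (2 * L)) := by
          apply Finset.sum_le_sum; intro l _
          refine (pr_or_le _ _).trans ?_
          refine add_le_add (hk1 l) ?_
          refine (pr_abs_ge_le hs).trans ?_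
          rw [div_le_iff₀ (by positivity)]
          calc av (fun x => e k x ^ 2) ≤ ε' * s ^ 2 / (2 * L) := hk2
            _ = ε' / (2 * L) * s ^ 2 := by ring
      _ = ε' := by
          rw [Finset.sum_const, Finset.card_univ, Fintype.card_fin, nsmul_eq_mul, ← hL]
          field_simp; ring

theorem struct_all (U : Ultrafilter ℕ) (d : ℕ) : ∀ (p : ∀ k, (ι k → Bool) → ℝ),
    (∀ k, degLE d (p k)) → (∀ k, av (fun x => p k x ^ 2) ≤ 1) → Struct U p := by
  induction d with
  | zero => intro p hp _; exact struct_zero U p hp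
  | succ d ih => exact fun p hp hn => struct_step U d ih p hp hn

end seq

end PTFT
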