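import Pool.Agent.PTFT.Duality

/-!
Random minors of functions on the cube.
-/

set_option autoImplicit false
set_option linter.unusedSectionVars false
set_option linter.unusedVariables false
set_option linter.unnecessarySeqFocus false

open Finset Filter

namespace PTFT

section

variable {ι : Type} [Fintype ι] [DecidableEq ι] {κ : Type} [Fintype κ] [DecidableEq κ]

/-- the point of the big cube given by signs `s`, identification map `b` and small point `z` -/
def mn (s : ι → Bool) (b : ι → κ) (z : κ → Bool) : ι → Bool := fun i => s i == z (b i)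

lemma sg_beq (a b : Bool) : sg (a == b) = sg a * sg b := by
  cases a <;> cases b <;> simp

/-- the set of classes with odd intersection -/
def oddS (b : ι → κ) (S : Finset ι) : Finset κ :=
  Finset.univ.filter (fun k => Odd (S.filter (fun i => b i = k)).card)

omit [Fintype ι] [DecidableEq ι] in
lemma oddS_empty (b : ι → κ) : oddS b ∅ = ∅ := by
  simp [oddS]

omit [Fintype ι] in
lemma oddS_insert (b : ι → κ) (S : Finset ι) (i : ι) (hi : i ∉ S) :
    oddS b (insert i S) = symmDiff {b i} (oddS b S) := by
  ext k
  rw [Finset.mem_symmDiff]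
  simp only [oddS, mem_filter, mem_univ, true_and, Finset.mem_singleton]
  rw [Finset.filter_insert]
  by_cases h : b i = k
  · rw [if_pos h, Finset.card_insert_of_notMem (by simp [hi]), Nat.odd_add_one]
    simp [h]
  · rw [if_neg h]
    have h' : ¬ k = b i := fun h2 => h h2.symm
    simp [h']

omit [Fintype ι] in
lemma chi_oddS (b : ι → κ) (S : Finset ι) (z : κ → Bool) :
    ∏ i ∈ S, sg (z (b i)) = chi (oddS b S) z := by
  induction S using Finset.induction_on with
  | empty => simp [oddS_empty]
  | insert i S hi ih =>
    rw [Finset.prod_insert hi, ih, oddS_insert b S i hi, ← chi_mul]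
    simp [chi]

omit [Fintype ι] in
lemma chi_mn (s : ι → Bool) (b : ι → κ) (z : κ → Bool) (S : Finset ι) :
    chi S (mn s b z) = chi S s * chi (oddS b S) z := by
  rw [← chi_oddS]
  unfold chi mn
  rw [← Finset.prod_mul_distrib]
  apply Finset.prod_congr rfl; intro i _
  rw [sg_beq]

omit [Fintype ι] in
lemma card_oddS_le (b : ι → κ) (S : Finset ι) : (oddS b S).card ≤ S.card := by
  induction S using Finset.induction_on with
  | empty => simp [oddS_empty]
  | insert i S hi ih =>
    rw [oddS_insert b S i hi, Finset.card_insert_of_notMem hi]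
    have : symmDiff {b i} (oddS b S) ⊆ {b i} ∪ oddS b S := by
      intro k; simp only [Finset.mem_symmDiff, mem_union]; tauto
    calc _ ≤ ({b i} ∪ oddS b S).card := Finset.card_le_card this
      _ ≤ 1 + (oddS b S).card := by
          refine (Finset.card_union_le _ _).trans ?_
          simp
      _ ≤ S.card + 1 := by omega

lemma degLE_mn {d : ℕ} {f : (ι → Bool) → ℝ} (hf : degLE d f) (s : ι → Bool) (b : ι → κ) :
    degLE d (fun z => f (mn s b z)) := by
  have h : ∀ z, f (mn s b z) = ∑ S ∈ Finset.univ.filter (fun S : Finset ι => S.card ≤ d),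
      (coef f S * chi S s) * chi (oddS b S) z := by
    intro z; rw [hf.eq_sum]; apply Finset.sum_congr rfl; intro S _
    rw [chi_mn]; ring
  refine degLE_of_eq ?_ h
  apply degLE.sum; intro S hS
  apply degLE.smul
  apply degLE_chi
  simp only [mem_filter, mem_univ, true_and] at hS
  exact (card_oddS_le b S).trans hS

lemma coef_mn (f : (ι → Bool) → ℝ) (s : ι → Bool) (b : ι → κ) (T : Finset κ) :
    coef (fun z => f (mn s b z)) T
      = ∑ S : Finset ι, (if oddS b S = T then coef f S else 0) * chi S s := by
  have h : (fun z => f (mn s b z)) = fun z => ∑ S : Finset ι,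
      (coef f S * chi S s) * chi (oddS b S) z := by
    funext z; rw [fourier f]; apply Finset.sum_congr rfl; intro S _
    rw [chi_mn]; ring
  rw [h, coef_finset_sum]
  apply Finset.sum_congr rfl; intro S _
  rw [coef_smul, coef_chi]
  split_ifs <;> ring

lemma av_coef_mn (f : (ι → Bool) → ℝ) (b : ι → κ) (T : Finset κ) :
    av (fun s => coef (fun z => f (mn s b z)) T ^ 2)
      = ∑ S : Finset ι, (if oddS b S = T then coef f S ^ 2 else 0) := by
  have h : (fun s => coef (fun z => f (mn s b z)) T ^ 2)
      = fun s => (∑ S : Finset ι, (if oddS b S = T then coef f S else 0) * chi S s) ^ 2 := by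
    funext s; rw [coef_mn]
  rw [h, parseval]
  apply Finset.sum_congr rfl; intro S _
  rw [coef_sum]
  split_ifs <;> simp

lemma av_low_mn (d : ℕ) (f : (ι → Bool) → ℝ) (b : ι → κ) :
    av (fun s => av (fun z => lowp d (fun z => f (mn s b z)) z ^ 2))
      = ∑ S : Finset ι, coef f S ^ 2 * (if (oddS b S).card ≤ d then 1 else 0) := by
  have h : ∀ s, av (fun z => lowp d (fun z => f (mn s b z)) z ^ 2)
      = ∑ T : Finset κ, (if T.card ≤ d then 1 else 0) * coef (fun z => f (mn s b z)) T ^ 2 := by
    intro s; rw [parseval]
    apply Finset.sum_congr rfl; intro T _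
    rw [coef_lowp]; split_ifs <;> simp
  rw [av_congr h, av_sum]
  simp only [av_mul_left, av_coef_mn]
  simp only [Finset.mul_sum]
  rw [Finset.sum_comm]
  apply Finset.sum_congr rfl; intro S _
  rw [Finset.sum_eq_single (oddS b S)]
  · simp
  · intro T _ hT
    rw [if_neg (Ne.symm hT), mul_zero]
  · simp

/-- resampling one coordinate -/
def resEquiv (i : ι) : (ι → κ) × κ ≃ (ι → κ) × κ where
  toFun p := (Function.update p.1 i p.2, p.1 i)
  invFun p := (Function.update p.1 i p.2, p.1 i)
  left_inv p := by simp
  right_inv p := by simp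

lemma av_resample [Nonempty κ] (i : ι) (F : (ι → κ) → ℝ) :
    av (fun b => av (fun k => F (Function.update b i k))) = av F := by
  have h := av_equiv (resEquiv (κ := κ) i) (fun p : (ι → κ) × κ => F p.1)
  simp only [resEquiv, Equiv.coe_fn_mk] at h
  rw [av_prod, av_prod] at h
  simp only [av_const] at h
  exact h

omit [Fintype ι] in
lemma oddS_congr (b b' : ι → κ) (S : Finset ι) (h : ∀ i ∈ S, b i = b' i) : oddS b S = oddS b' S := by
  unfold oddS
  congr 1
  funext k
  have : S.filter (fun i => b i = k) = S.filter (fun i => b' i = k) := by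
    apply Finset.filter_congr; intro i hi; rw [h i hi]
  rw [this]

lemma pr_mem_le (T : Finset κ) : pr (fun k => k ∈ T) = (T.card : ℝ) / Fintype.card κ := by
  rw [pr_eq]
  unfold av
  simp

lemma pr_odd_step [Nonempty κ] (S : Finset ι) (i : ι) (hi : i ∉ S) (e : ℕ) :
    pr (fun b : ι → κ => (oddS b (insert i S)).card < e + 1)
      ≤ pr (fun b : ι → κ => (oddS b S).card < e) + (e + 1) / Fintype.card κ := by
  have hκ : (0 : ℝ) < Fintype.card κ := card_pos'
  rw [pr_eq, ← av_resample i]
  rw [pr_eq (fun b : ι → κ => (oddS b S).card < e)]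
  rw [← av_const (α := ι → κ) (((e : ℝ) + 1) / Fintype.card κ), ← av_add]
  apply av_mono; intro b
  have h1 : ∀ k, oddS (Function.update b i k) (insert i S) = symmDiff {k} (oddS b S) := by
    intro k
    rw [oddS_insert _ _ _ hi, Function.update_self]
    congr 1
    apply oddS_congr
    intro j hj
    rw [Function.update_of_ne (by rintro rfl; exact hi hj)]
  simp only [h1]
  rw [← pr_eq]
  by_cases h2 : (oddS b S).card < e
  · rw [if_pos h2]
    have := pr_le_one (fun k => (symmDiff {k} (oddS b S)).card < e + 1)
    have : (0 : ℝ) ≤ ((e : ℝ) + 1) / Fintype.card κ := by positivity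
    linarith
  · rw [if_neg h2, zero_add]
    by_cases h3 : (oddS b S).card ≤ e + 1
    · calc pr (fun k => (symmDiff {k} (oddS b S)).card < e + 1) ≤ pr (fun k => k ∈ oddS b S) := by
            apply pr_mono; intro k hk
            by_contra hkn
            have h4 : symmDiff {k} (oddS b S) = insert k (oddS b S) := by
              ext j
              simp only [Finset.mem_symmDiff, Finset.mem_singleton, Finset.mem_insert]
              constructor
              · tauto
              · rintro (rfl | h5)
                · left; exact ⟨rfl, hkn⟩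
                · right; refine ⟨h5, ?_⟩
                  rintro rfl; exact hkn h5
            rw [h4, Finset.card_insert_of_notMem hkn] at hk
            omega
        _ = ((oddS b S).card : ℝ) / Fintype.card κ := pr_mem_le _
        _ ≤ ((e : ℝ) + 1) / Fintype.card κ := by
            gcongr
            exact_mod_cast h3
    · have h4 : pr (fun k => (symmDiff {k} (oddS b S)).card < e + 1) = 0 := by
        rw [pr_eq]
        refine Eq.trans (av_congr (g := fun _ => (0 : ℝ)) ?_) av_zero
        intro k
        rw [if_neg]
        intro hk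
        have h5 : (oddS b S).card ≤ (symmDiff {k} (oddS b S)).card + 1 := by
          have : oddS b S ⊆ symmDiff {k} (oddS b S) ∪ {k} := by
            intro j hj
            simp only [Finset.mem_union, Finset.mem_symmDiff, Finset.mem_singleton]
            tauto
          refine (Finset.card_le_card this).trans ((Finset.card_union_le _ _).trans ?_)
          simp
        omega
      rw [h4]; positivity

lemma pr_odd_le [Nonempty κ] (e : ℕ) : ∀ (S : Finset ι), e ≤ S.card →
    pr (fun b : ι → κ => (oddS b S).card < e) ≤ (e : ℝ) ^ 2 / Fintype.card κ := by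
  induction e with
  | zero =>
    intro S _
    have : pr (fun b : ι → κ => (oddS b S).card < 0) = 0 := by
      rw [pr_eq]; simp [av_zero]
    rw [this]; positivity
  | succ e ih =>
    intro S hS
    have hne : S.Nonempty := Finset.card_pos.1 (by omega)
    obtain ⟨i, hi⟩ := hne
    have h1 := pr_odd_step (κ := κ) (S.erase i) i (Finset.notMem_erase i S) e
    rw [Finset.insert_erase hi] at h1
    have h2 := ih (S.erase i) (by rw [Finset.card_erase_of_mem hi]; omega)
    have hκ : (0 : ℝ) < Fintype.card κ := card_pos'
    calc _ ≤ _ := h1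
      _ ≤ (e : ℝ) ^ 2 / Fintype.card κ + (e + 1) / Fintype.card κ := by gcongr
      _ = ((e : ℝ) ^ 2 + (e + 1)) / Fintype.card κ := by ring
      _ ≤ _ := by
          gcongr
          push_cast
          have : (0 : ℝ) ≤ e := Nat.cast_nonneg e
          nlinarith

/-- the expected low degree weight of a random minor -/
lemma low_weight_minor [Nonempty κ] (d : ℕ) (f : (ι → Bool) → ℝ) (hf1 : ∀ x, |f x| ≤ 1)
    (hf : ∀ S : Finset ι, S.card ≤ d → coef f S = 0) :
    av (fun b : ι → κ => av (fun s => av (fun z => lowp d (fun z => f (mn s b z)) z ^ 2)))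
      ≤ ((d : ℝ) + 1) ^ 2 / Fintype.card κ := by
  simp only [av_low_mn]
  rw [av_sum]
  have hκ : (0 : ℝ) < Fintype.card κ := card_pos'
  have h1 : ∀ S : Finset ι, av (fun b : ι → κ => coef f S ^ 2 * (if (oddS b S).card ≤ d then 1 else 0))
      ≤ coef f S ^ 2 * (((d : ℝ) + 1) ^ 2 / Fintype.card κ) := by
    intro S
    rw [av_mul_left]
    by_cases hS : S.card ≤ d
    · rw [hf S hS]; simp
    · apply mul_le_mul_of_nonneg_left _ (sq_nonneg _)
      rw [← pr_eq]
      have h2 := pr_odd_le (κ := κ) (d + 1) S (by omega)
      have h3 : pr (fun b : ι → κ => (oddS b S).card ≤ d) = pr (fun b : ι → κ => (oddS b S).card < d + 1) := by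
        apply pr_congr; intro b; omega
      rw [h3]
      push_cast at h2
      exact h2
  calc _ ≤ ∑ S : Finset ι, coef f S ^ 2 * (((d : ℝ) + 1) ^ 2 / Fintype.card κ) :=
        Finset.sum_le_sum fun S _ => h1 S
    _ = av (fun x => f x ^ 2) * (((d : ℝ) + 1) ^ 2 / Fintype.card κ) := by
        rw [← Finset.sum_mul, ← parseval]
    _ ≤ 1 * (((d : ℝ) + 1) ^ 2 / Fintype.card κ) := by
        apply mul_le_mul_of_nonneg_right _ (by positivity)
        calc av (fun x => f x ^ 2) ≤ av (fun _ => (1 : ℝ)) := by
              apply av_mono; intro x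
              rw [← sq_abs]
              exact pow_le_one₀ (abs_nonneg _) (hf1 x)
          _ = 1 := av_const 1
    _ = _ := one_mul _

/-- for fixed `b` and `z`, signs give a bijection of the cube -/
def mnEquiv (b : ι → κ) (z : κ → Bool) : (ι → Bool) ≃ (ι → Bool) where
  toFun s := mn s b z
  invFun s := mn s b z
  left_inv s := by
    funext i; simp only [mn]; cases s i <;> cases z (b i) <;> rfl
  right_inv s := by
    funext i; simp only [mn]; cases s i <;> cases z (b i) <;> rfl

lemma av_mn [Nonempty κ] (f : (ι → Bool) → ℝ) :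
    av (fun b : ι → κ => av (fun s => av (fun z => f (mn s b z)))) = av f := by
  have h : ∀ b : ι → κ, av (fun s => av (fun z => f (mn s b z))) = av f := by
    intro b
    rw [av_comm]
    have h2 : ∀ z : κ → Bool, av (fun s => f (mn s b z)) = av f := fun z =>
      av_equiv (mnEquiv b z) f
    rw [av_congr h2, av_const]
  rw [av_congr h, av_const]

end

end PTFT
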