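import Pool.Agent.PTFT.FixedJ

/-!
Anticoncentration for low degree polynomials with small influences.
-/

set_option autoImplicit false
set_option linter.unusedSectionVars false
set_option linter.unusedVariables false

open Finset

namespace PTFT

variable {ι : Type} [Fintype ι] [DecidableEq ι]

lemma av_pi_prod {β : Type} [Fintype β] (F : ι → β → ℝ) :
    av (fun b : ι → β => ∏ i, F i (b i)) = ∏ i, av (F i) := by
  classical
  unfold av
  rw [Finset.prod_div_distrib, Finset.prod_univ_sum, Fintype.piFinset_univ]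
  congr 1
  simp

lemma av_pi_one {β : Type} [Fintype β] [Nonempty β] (i : ι) (u : β → ℝ) :
    av (fun b : ι → β => u (b i)) = av u := by
  classical
  have h := av_pi_prod (ι := ι) (fun k x => if k = i then u x else 1)
  have h1 : (fun b : ι → β => ∏ k, (if k = i then u (b k) else 1)) = fun b => u (b i) := by
    funext b; simp
  rw [h1] at h
  rw [h]
  rw [Finset.prod_eq_single i]
  · simp
  · intro k _ hk; simp [hk, av_const]
  · simp

lemma av_pi_two {β : Type} [Fintype β] [Nonempty β] {i j : ι} (hij : i ≠ j) (u v : β → ℝ) :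
    av (fun b : ι → β => u (b i) * v (b j)) = av u * av v := by
  classical
  have h := av_pi_prod (ι := ι) (fun k x => (if k = i then u x else 1) * (if k = j then v x else 1))
  have h1 : (fun b : ι → β => ∏ k, ((if k = i then u (b k) else 1) * (if k = j then v (b k) else 1)))
      = fun b => u (b i) * v (b j) := by
    funext b; rw [Finset.prod_mul_distrib]; simp
  rw [h1] at h
  rw [h]
  have h2 : ∀ k, av (fun x => (if k = i then u x else 1) * (if k = j then v x else 1))
      = (if k = i then av u else 1) * (if k = j then av v else 1) := by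
    intro k
    by_cases hi : k = i
    · have hj : k ≠ j := fun h => hij (hi ▸ h)
      simp [hi, hij]
    · by_cases hj : k = j
      · subst hj
        simp [hi]
      · simp [hi, hj, av_const]
  simp only [h2]
  rw [Finset.prod_mul_distrib]
  simp

/-- the frozen set determined by `b` -/
def JJ {N : ℕ} (b : ι → Fin (N + 1)) : Finset ι := Finset.univ.filter (fun i => b i ≠ 0)

lemma mem_JJ {N : ℕ} (b : ι → Fin (N + 1)) (i : ι) : i ∈ JJ b ↔ b i ≠ 0 := by simp [JJ]

lemma av_fin_ind (N : ℕ) : av (fun k : Fin (N + 1) => if k = 0 then (1 : ℝ) else 0) = 1 / (N + 1) := by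
  unfold av; simp

lemma av_S2_le {N : ℕ} (p : (ι → Bool) → ℝ) :
    av (fun b : ι → Fin (N + 1) => S2 (JJ b) p)
      ≤ (∑ i, ∑ j, av (fun x => dd j (dd i p) x ^ 2)) / (N + 1) ^ 2 := by
  unfold S2
  rw [av_sum, Finset.sum_div]
  apply Finset.sum_le_sum; intro i _
  rw [av_sum, Finset.sum_div]
  apply Finset.sum_le_sum; intro j _
  by_cases hij : i = j
  · subst hij
    have h0 : av (fun x => dd i (dd i p) x ^ 2) = 0 := by
      rw [av_congr (g := fun _ => (0 : ℝ)) (fun x => by rw [dd_self]; norm_num), av_zero]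
    rw [h0]; simp [av_const]
  · have h1 : ∀ b : ι → Fin (N + 1),
        (if i ∈ JJ b ∨ j ∈ JJ b then (0 : ℝ) else av (fun x => dd j (dd i p) x ^ 2))
        = av (fun x => dd j (dd i p) x ^ 2) *
          ((if b i = 0 then (1 : ℝ) else 0) * (if b j = 0 then (1 : ℝ) else 0)) := by
      intro b
      simp only [mem_JJ]
      by_cases h1 : b i = 0 <;> by_cases h2 : b j = 0 <;> simp [h1, h2]
    rw [av_congr h1, av_mul_left,
      av_pi_two hij (fun k => if k = 0 then (1 : ℝ) else 0) (fun k => if k = 0 then (1 : ℝ) else 0),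
      av_fin_ind]
    apply le_of_eq; field_simp

lemma av_sq_W_le {N : ℕ} (w : ι → ℝ) :
    av (fun b : ι → Fin (N + 1) => ((∑ i, if i ∈ JJ b then 0 else w i) - (∑ i, w i) / (N + 1)) ^ 2)
      ≤ (∑ i, w i ^ 2) / (N + 1) := by
  set ξ : Fin (N + 1) → ℝ := fun k => (if k = 0 then (1 : ℝ) else 0) - 1 / (N + 1) with hξ
  have hξ0 : av ξ = 0 := by
    simp only [hξ]; rw [av_sub, av_fin_ind, av_const]; ring
  have hξ2 : av (fun k => ξ k ^ 2) ≤ 1 / (N + 1) := by
    have h1 : ∀ k, ξ k ^ 2 = (1 - 2 * (1 / (N + 1))) * (if k = 0 then (1 : ℝ) else 0)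
        + (1 / ((N : ℝ) + 1)) ^ 2 := by
      intro k; simp only [hξ]; split_ifs <;> ring
    rw [av_congr h1, av_add, av_mul_left, av_fin_ind, av_const]
    have h2 : (0 : ℝ) < (1 : ℝ) / ((N : ℝ) + 1) := by positivity
    nlinarith
  have h1 : ∀ b : ι → Fin (N + 1),
      ((∑ i, if i ∈ JJ b then 0 else w i) - (∑ i, w i) / (N + 1)) ^ 2
        = ∑ i, ∑ j, (w i * w j) * (ξ (b i) * ξ (b j)) := by
    intro b
    have h2 : (∑ i, if i ∈ JJ b then 0 else w i) - (∑ i, w i) / (N + 1) = ∑ i, w i * ξ (b i) := by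
      rw [Finset.sum_div, ← Finset.sum_sub_distrib]
      apply Finset.sum_congr rfl; intro i _
      simp only [hξ, mem_JJ]
      by_cases h : b i = 0 <;> simp [h] <;> ring
    rw [h2, sq, Finset.sum_mul_sum]
    apply Finset.sum_congr rfl; intro i _
    apply Finset.sum_congr rfl; intro j _
    ring
  rw [av_congr h1, av_sum, Finset.sum_div]
  apply Finset.sum_le_sum; intro i _
  rw [av_sum, Finset.sum_eq_single i]
  · rw [av_mul_left]
    have h3 : av (fun b : ι → Fin (N + 1) => ξ (b i) * ξ (b i)) = av (fun k => ξ k ^ 2) := by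
      rw [← av_pi_one i (fun k => ξ k ^ 2)]
      apply av_congr; intro b; ring
    rw [h3]
    calc w i * w i * av (fun k => ξ k ^ 2) ≤ w i * w i * (1 / (N + 1)) := by
          apply mul_le_mul_of_nonneg_left hξ2 (mul_self_nonneg _)
      _ = w i ^ 2 / (N + 1) := by ring
  · intro j _ hji
    rw [av_mul_left, av_pi_two (fun h => hji h.symm) ξ ξ, hξ0]; ring
  · simp

lemma random_W {N : ℕ} (p : (ι → Bool) → ℝ) {γ β : ℝ} (hγ : 0 < γ) (hβ : 0 < β) :
    av (fun b : ι → Fin (N + 1) => pr (fun x => WJ (JJ b) p x < γ / (2 * (N + 1))))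
      ≤ pr (fun x => ∑ i, dd i p x ^ 2 ≤ γ)
        + pr (fun x => ∃ i ∈ (Finset.univ : Finset ι), β ≤ |dd i p x|) + 4 * (N + 1) * β ^ 2 / γ := by
  classical
  have h1 : av (fun b : ι → Fin (N + 1) => pr (fun x => WJ (JJ b) p x < γ / (2 * (N + 1))))
      = av (fun x => pr (fun b : ι → Fin (N + 1) => WJ (JJ b) p x < γ / (2 * (N + 1)))) := by
    simp only [pr_def]
    rw [av_comm]
  rw [h1]
  have h2 : ∀ x, pr (fun b : ι → Fin (N + 1) => WJ (JJ b) p x < γ / (2 * (N + 1))) ≤
      (if ∑ i, dd i p x ^ 2 ≤ γ then (1 : ℝ) else 0)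
      + (if ∃ i ∈ (Finset.univ : Finset ι), β ≤ |dd i p x| then (1 : ℝ) else 0)
      + 4 * (N + 1) * β ^ 2 / γ := by
    intro x
    have hnn : 0 ≤ 4 * (N + 1) * β ^ 2 / γ := by positivity
    have hle := pr_le_one (fun b : ι → Fin (N + 1) => WJ (JJ b) p x < γ / (2 * (N + 1)))
    by_cases h3 : ∑ i, dd i p x ^ 2 ≤ γ
    · simp only [h3, if_true]; split_ifs <;> linarith
    by_cases h4 : ∃ i ∈ (Finset.univ : Finset ι), β ≤ |dd i p x|
    · simp only [h4, if_true]; split_ifs <;> linarith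
    simp only [h3, h4, if_false, zero_add]
    set w : ι → ℝ := fun i => dd i p x ^ 2 with hw
    set G := ∑ i, w i with hG
    have hGγ : γ < G := not_le.1 h3
    have hG0 : 0 < G := hγ.trans hGγ
    have hwβ : ∀ i, w i ≤ β ^ 2 := by
      intro i
      have : |dd i p x| < β := by
        by_contra h; exact h4 ⟨i, Finset.mem_univ _, not_lt.1 h⟩
      rw [hw]; simp only
      rw [← sq_abs]; gcongr
    have hw0 : ∀ i, 0 ≤ w i := fun i => sq_nonneg _
    have hsum : ∑ i, w i ^ 2 ≤ β ^ 2 * G := by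
      rw [hG, Finset.mul_sum]
      apply Finset.sum_le_sum; intro i _
      nlinarith [hwβ i, hw0 i]
    set r : ℝ := G / (2 * (N + 1)) with hr
    have hr0 : 0 < r := by positivity
    calc pr (fun b : ι → Fin (N + 1) => WJ (JJ b) p x < γ / (2 * (N + 1)))
        ≤ pr (fun b : ι → Fin (N + 1) =>
            r ≤ |(∑ i, if i ∈ JJ b then 0 else w i) - (∑ i, w i) / (N + 1)|) := by
          apply pr_mono; intro b hb
          have h5 : WJ (JJ b) p x = ∑ i, if i ∈ JJ b then 0 else w i := rfl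
          rw [h5] at hb
          have h6 : γ / (2 * (N + 1)) ≤ r := by rw [hr]; gcongr
          rw [abs_sub_comm]
          refine le_trans ?_ (le_abs_self _)
          have h7 : (∑ i, w i) / ((N : ℝ) + 1) = 2 * r := by rw [hr, hG]; field_simp
          rw [h7]; linarith
      _ ≤ _ := pr_abs_ge_le hr0
      _ ≤ ((∑ i, w i ^ 2) / (N + 1)) / r ^ 2 := by gcongr; exact av_sq_W_le w
      _ ≤ ((β ^ 2 * G) / (N + 1)) / r ^ 2 := by gcongr
      _ = 4 * (N + 1) * β ^ 2 / G := by rw [hr]; field_simp; ring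
      _ ≤ 4 * (N + 1) * β ^ 2 / γ := by gcongr
  calc _ ≤ _ := av_mono h2
    _ = _ := by rw [av_add, av_add, av_const, pr_eq, pr_eq]

/-- normalised form of `AC` -/
def AC1 (d : ℕ) : Prop :=
  ∀ ε : ℝ, 0 < ε → ∃ t : ℝ, 0 < t ∧ ∃ τ : ℝ, 0 < τ ∧
    ∀ (ι : Type) [Fintype ι] [DecidableEq ι] (p : (ι → Bool) → ℝ), degLE d p →
      av (fun x => p x ^ 2) = 1 → (∀ i, infl i p ≤ τ) → pr (fun x => |p x| ≤ t) ≤ ε

lemma dd_smul (i : ι) (c : ℝ) (f : (ι → Bool) → ℝ) (x : ι → Bool) :
    dd i (fun x => c * f x) x = c * dd i f x := by unfold dd; ring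

lemma infl_smul (i : ι) (c : ℝ) (f : (ι → Bool) → ℝ) :
    infl i (fun x => c * f x) = c ^ 2 * infl i f := by
  unfold infl
  rw [← av_mul_left]
  apply av_congr; intro x; rw [dd_smul]; ring

lemma AC_of_AC1 {d : ℕ} (h : AC1 d) : AC d := by
  intro ε hε v hv
  obtain ⟨t, ht, τ, hτ, H⟩ := h ε hε
  refine ⟨t * Real.sqrt v, by positivity, τ * v, by positivity, ?_⟩
  intro ι _ _ p hp hv' hinf
  set s := Real.sqrt (av (fun x => p x ^ 2)) with hs
  have hpos : 0 < av (fun x => p x ^ 2) := lt_of_lt_of_le hv hv'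
  have hs0 : 0 < s := Real.sqrt_pos.2 hpos
  have hs2 : s ^ 2 = av (fun x => p x ^ 2) := Real.sq_sqrt hpos.le
  have hsv : Real.sqrt v ≤ s := Real.sqrt_le_sqrt hv'
  have h1 := H ι (fun x => s⁻¹ * p x) (hp.smul _) (by
    have : ∀ x, (s⁻¹ * p x) ^ 2 = (s ^ 2)⁻¹ * p x ^ 2 := by intro x; field_simp
    rw [av_congr this, av_mul_left, hs2]; field_simp) (by
    intro i
    rw [infl_smul]
    have h2 := hinf i
    have h3 := infl_nonneg i p
    have h4 : (s⁻¹) ^ 2 = (av (fun x => p x ^ 2))⁻¹ := by rw [inv_pow, hs2]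
    rw [h4]
    calc (av (fun x => p x ^ 2))⁻¹ * infl i p ≤ v⁻¹ * (τ * v) := by
          apply mul_le_mul _ h2 h3 (by positivity)
          exact inv_anti₀ hv hv'
      _ = τ := by field_simp)
  refine le_trans (pr_mono ?_) h1
  intro x hx
  rw [abs_mul, abs_of_pos (inv_pos.2 hs0)]
  calc s⁻¹ * |p x| ≤ s⁻¹ * (t * Real.sqrt v) := by gcongr
    _ ≤ s⁻¹ * (t * s) := by gcongr
    _ = t := by field_simp

lemma AC1_zero : AC1 0 := by
  intro ε hε
  refine ⟨1 / 2, by norm_num, 1, by norm_num, ?_⟩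
  intro ι _ _ p hp hnorm hinf
  have h1 : ∀ x, p x = coef p ∅ := degLE_zero_iff hp
  rw [av_congr (g := fun _ => coef p ∅ ^ 2) (fun x => by rw [h1 x]), av_const] at hnorm
  have h2 : pr (fun x => |p x| ≤ 1 / 2) = 0 := by
    classical
    rw [pr_def]
    refine Eq.trans (av_congr (g := fun _ => (0 : ℝ)) ?_) av_zero
    intro x
    rw [if_neg]
    rw [h1 x]
    intro h3
    have h4 : |coef p ∅| ^ 2 ≤ (1 / 2) ^ 2 := by gcongr
    rw [sq_abs, hnorm] at h4
    norm_num at h4
  rw [h2]; exact hε.le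

lemma AC1_succ {d : ℕ} (hd : AC d) : AC1 (d + 1) := by
  intro ε' hε'
  -- reduce to ε ≤ 1
  set ε := min ε' 1 with hεdef
  have hε : 0 < ε := lt_min hε' one_pos
  have hε1 : ε ≤ 1 := min_le_right _ _
  have hεε' : ε ≤ ε' := min_le_left _ _
  set v := ε / 8 with hv
  have hv0 : 0 < v := by positivity
  obtain ⟨κ, hκ, hκ1, hsb⟩ := exists_small_ball (show (0 : ℝ) < ε / 8 by positivity)
  obtain ⟨γ, hγ, τ1, hτ1, hgrad⟩ := gradient_lower hd (show (0 : ℝ) < ε / 8 by positivity) hv0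
  set D : ℝ := (d : ℝ) * (d + 1) with hD
  have hD0 : 0 ≤ D := by positivity
  obtain ⟨N, hN⟩ := exists_nat_ge (8 * (8 * (1 + 4 / κ ^ 2) * D) / (γ * ε))
  set M : ℝ := (N : ℝ) + 1 with hM
  have hM0 : 0 < M := by positivity
  have hNM : (N : ℝ) ≤ M := by rw [hM]; linarith
  set A2 : ℝ := γ / (8 * M) with hA2
  have hA20 : 0 < A2 := by positivity
  set A : ℝ := Real.sqrt A2 with hA
  have hA0 : 0 < A := Real.sqrt_pos.2 hA20
  have hAsq : A ^ 2 = A2 := Real.sq_sqrt hA20.le
  set β2 : ℝ := ε * γ / (32 * M) with hβ2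
  have hβ20 : 0 < β2 := by positivity
  set β : ℝ := Real.sqrt β2 with hβ
  have hβ0 : 0 < β := Real.sqrt_pos.2 hβ20
  have hβsq : β ^ 2 = β2 := Real.sq_sqrt hβ20.le
  set C9 : ℝ := 9 ^ d * (d + 1) with hC9
  have hC90 : 0 < C9 := by positivity
  set τ : ℝ := min τ1 (min (ε * β ^ 4 / (8 * C9)) (ε * (κ * A) ^ 4 / (8 * C9))) with hτ
  have hτ0 : 0 < τ := by
    apply lt_min hτ1 (lt_min _ _) <;> positivity
  refine ⟨min (1 / 2) (κ * A / 2), lt_min (by norm_num) (by positivity), τ, hτ0, ?_⟩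
  intro ι _ _ p hp hnorm hinf
  refine le_trans ?_ hεε'
  by_cases hI : v ≤ ∑ i, infl i p
  · -- main case
    have hτle1 : τ ≤ τ1 := min_le_left _ _
    have hτle2 : τ ≤ ε * β ^ 4 / (8 * C9) := (min_le_right _ _).trans (min_le_left _ _)
    have hτle3 : τ ≤ ε * (κ * A) ^ 4 / (8 * C9) := (min_le_right _ _).trans (min_le_right _ _)
    have hG := hgrad ι p hp hnorm.le hI (fun i => (hinf i).trans hτle1)
    -- fourth moments
    have h4 : ∑ i, av (fun x => dd i p x ^ 4) ≤ C9 * τ := by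
      have hsum := sum_infl_le hp
      rw [hnorm, mul_one] at hsum
      push_cast at hsum
      calc ∑ i, av (fun x => dd i p x ^ 4) ≤ ∑ i, 9 ^ d * (infl i p) ^ 2 :=
            Finset.sum_le_sum fun i _ => bonami (hp.dd i)
        _ ≤ ∑ i, 9 ^ d * (τ * infl i p) := by
            apply Finset.sum_le_sum; intro i _
            have h0 := infl_nonneg i p
            have h1 := hinf i
            gcongr
            nlinarith
        _ = 9 ^ d * (τ * ∑ i, infl i p) := by rw [← Finset.mul_sum, ← Finset.mul_sum]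
        _ ≤ 9 ^ d * (τ * (d + 1)) := by gcongr
        _ = C9 * τ := by rw [hC9]; ring
    have h4' : 0 ≤ ∑ i, av (fun x => dd i p x ^ 4) :=
      Finset.sum_nonneg fun i _ => av_nonneg fun _ => by positivity
    have hβev : pr (fun x => ∃ i ∈ (Finset.univ : Finset ι), β ≤ |dd i p x|) ≤ ε / 8 := by
      calc _ ≤ ∑ i, pr (fun x => β ≤ |dd i p x|) := pr_exists_le _ _
        _ ≤ ∑ i, av (fun x => dd i p x ^ 4) / β ^ 4 :=
            Finset.sum_le_sum fun i _ => pr_abs_ge_le_four hβ0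
        _ = (∑ i, av (fun x => dd i p x ^ 4)) / β ^ 4 := by rw [Finset.sum_div]
        _ ≤ (C9 * (ε * β ^ 4 / (8 * C9))) / β ^ 4 := by
            gcongr; exact h4.trans (by gcongr)
        _ = ε / 8 := by field_simp
    have hκev : (∑ i, av (fun x => dd i p x ^ 4)) / (κ * A) ^ 4 ≤ ε / 8 := by
      calc _ ≤ (C9 * (ε * (κ * A) ^ 4 / (8 * C9))) / (κ * A) ^ 4 := by
            gcongr; exact h4.trans (by gcongr)
        _ = ε / 8 := by field_simp
    have hS2 : av (fun b : ι → Fin (N + 1) => S2 (JJ b) p) ≤ D / M ^ 2 := by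
      refine (av_S2_le p).trans ?_
      rw [hM]
      gcongr
      have := sum_second_le hp
      rw [hnorm, mul_one] at this
      rw [hD]; exact this
    have hS20 : 0 ≤ av (fun b : ι → Fin (N + 1) => S2 (JJ b) p) := av_nonneg fun _ => S2_nonneg _ _
    have hW := random_W (N := N) p hγ hβ0
    have hkey : ∀ b : ι → Fin (N + 1), pr (fun x => |p x| ≤ κ * A / 2) ≤ ε / 8
        + pr (fun x => WJ (JJ b) p x < γ / (2 * (N + 1))) + S2 (JJ b) p * (1 / A2)
        + (∑ i, av (fun x => dd i p x ^ 4)) / (κ * A) ^ 4 + S2 (JJ b) p * (4 / (κ ^ 2 * A2)) := by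
      intro b
      have h := fixedJ hκ (by positivity) hsb (JJ b) p hA0
      have e1 : 4 * A ^ 2 = γ / (2 * (N + 1)) := by rw [hAsq, hA2, hM]; field_simp; ring
      have e2 : S2 (JJ b) p / A ^ 2 = S2 (JJ b) p * (1 / A2) := by rw [hAsq]; ring
      have e3 : S2 (JJ b) p / (κ * A / 2) ^ 2 = S2 (JJ b) p * (4 / (κ ^ 2 * A2)) := by
        have : (κ * A / 2) ^ 2 = κ ^ 2 * A2 / 4 := by rw [← hAsq]; ring
        rw [this]; field_simp
      rw [e1, e2, e3] at h
      exact h
    have havg : pr (fun x => |p x| ≤ κ * A / 2) ≤ ε / 8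
        + av (fun b : ι → Fin (N + 1) => pr (fun x => WJ (JJ b) p x < γ / (2 * (N + 1))))
        + av (fun b : ι → Fin (N + 1) => S2 (JJ b) p) * (1 / A2)
        + (∑ i, av (fun x => dd i p x ^ 4)) / (κ * A) ^ 4
        + av (fun b : ι → Fin (N + 1) => S2 (JJ b) p) * (4 / (κ ^ 2 * A2)) := by
      have h := av_mono hkey
      rw [av_const, av_add, av_add, av_add, av_add, av_const, av_const, av_mul_right, av_mul_right] at h
      exact h
    have hvar : 4 * ((N : ℝ) + 1) * β ^ 2 / γ ≤ ε / 8 := by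
      rw [hβsq, hβ2, ← hM]; apply le_of_eq; field_simp; ring
    have hS2tot : av (fun b : ι → Fin (N + 1) => S2 (JJ b) p) * (1 / A2)
        + av (fun b : ι → Fin (N + 1) => S2 (JJ b) p) * (4 / (κ ^ 2 * A2)) ≤ ε / 8 := by
      have h5 : (1 / A2 + 4 / (κ ^ 2 * A2)) = (8 * M / γ) * (1 + 4 / κ ^ 2) := by
        rw [hA2]; field_simp
      have h6 : 8 * (8 * (1 + 4 / κ ^ 2) * D) / (γ * ε) ≤ M := hN.trans hNM
      rw [div_le_iff₀ (by positivity)] at h6
      calc _ = av (fun b : ι → Fin (N + 1) => S2 (JJ b) p) * (1 / A2 + 4 / (κ ^ 2 * A2)) := by ring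
        _ ≤ (D / M ^ 2) * ((8 * M / γ) * (1 + 4 / κ ^ 2)) := by
            rw [h5]; gcongr
        _ = (8 * (8 * (1 + 4 / κ ^ 2) * D)) / (8 * (γ * M)) := by field_simp
        _ ≤ (M * (γ * ε)) / (8 * (γ * M)) := by gcongr
        _ = ε / 8 := by field_simp
    calc pr (fun x => |p x| ≤ min (1 / 2) (κ * A / 2)) ≤ pr (fun x => |p x| ≤ κ * A / 2) :=
          pr_mono fun x hx => hx.trans (min_le_right _ _)
      _ ≤ ε := by linarith
  · -- near constant case
    have hI' : ∑ i, infl i p < v := not_le.1 hI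
    have hvar : av (fun x => (p x - av p) ^ 2) ≤ v := (poincare p).trans hI'.le
    have hexp : av (fun x => (p x - av p) ^ 2) = 1 - (av p) ^ 2 := by
      have : ∀ x, (p x - av p) ^ 2 = p x ^ 2 - (2 * av p) * p x + (av p) ^ 2 := by intro x; ring
      rw [av_congr this, av_add, av_sub, hnorm, av_mul_left, av_const]; ring
    have h1 : (9 / 10 : ℝ) ≤ |av p| := by
      have h2 : (9 / 10 : ℝ) ^ 2 ≤ |av p| ^ 2 := by
        rw [sq_abs]
        have : (av p) ^ 2 = 1 - av (fun x => (p x - av p) ^ 2) := by linarith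
        rw [this]
        have : v ≤ 1 / 8 := by rw [hv]; linarith
        norm_num; linarith
      exact le_of_sq_le_sq h2 (abs_nonneg _)
    calc pr (fun x => |p x| ≤ min (1 / 2) (κ * A / 2)) ≤ pr (fun x => 2 / 5 ≤ |p x - av p|) := by
          apply pr_mono; intro x hx
          have h2 : |p x| ≤ 1 / 2 := hx.trans (min_le_left _ _)
          have h3 : |av p| ≤ |p x - av p| + |p x| := by
            have := abs_sub_abs_le_abs_sub (av p) (p x)
            rw [abs_sub_comm]; linarith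
          linarith
      _ ≤ av (fun x => (p x - av p) ^ 2) / (2 / 5) ^ 2 := pr_abs_ge_le (by norm_num)
      _ ≤ v / (2 / 5) ^ 2 := by gcongr
      _ ≤ ε := by rw [hv]; norm_num; linarith

theorem AC_all (d : ℕ) : AC d := by
  induction d with
  | zero => exact AC_of_AC1 AC1_zero
  | succ d ih => exact AC_of_AC1 (AC1_succ ih)

end PTFT
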