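import Pool.Agent.PTFT.RegularAC

/-!
Influence regularity lemma: freeze a bounded number of coordinates so that most restrictions are
regular.
-/

set_option autoImplicit false
set_option linter.unusedSectionVars false
set_option linter.unusedVariables false
set_option linter.unnecessarySeqFocus false

open Finset

namespace PTFT

variable {ι : Type} [Fintype ι] [DecidableEq ι]

/-- conditional second moment -/
noncomputable def cn2 (J : Finset ι) (p : (ι → Bool) → ℝ) (x : ι → Bool) : ℝ :=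
  av (fun y => p (mix J x y) ^ 2)

lemma cn2_nonneg (J : Finset ι) (p : (ι → Bool) → ℝ) (x : ι → Bool) : 0 ≤ cn2 J p x :=
  av_nonneg fun _ => sq_nonneg _

lemma av_cn2 (J : Finset ι) (p : (ι → Bool) → ℝ) : av (cn2 J p) = av (fun x => p x ^ 2) :=
  av_mix J (fun x => p x ^ 2)

lemma cn2_congr (J : Finset ι) (p : (ι → Bool) → ℝ) (x x' : ι → Bool) (h : ∀ i ∈ J, x i = x' i) :
    cn2 J p x = cn2 J p x' := by
  unfold cn2
  apply av_congr; intro y
  rw [mix_agree J x x' y h]

lemma cn2_mix (J : Finset ι) (p : (ι → Bool) → ℝ) (x y : ι → Bool) :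
    cn2 J p (mix J x y) = cn2 J p x :=
  cn2_congr J p _ _ (fun i hi => by simp [mix, hi])

/-- probability of agreeing with a given point on `J` -/
lemma pr_agree (J : Finset ι) (x : ι → Bool) :
    pr (fun x' : ι → Bool => ∀ i ∈ J, x' i = x i) = (1 / 2) ^ J.card := by
  classical
  rw [pr_eq]
  have h1 : ∀ x' : ι → Bool, (if ∀ i ∈ J, x' i = x i then (1 : ℝ) else 0)
      = ∏ i, (if i ∈ J then (if x' i = x i then (1 : ℝ) else 0) else 1) := by
    intro x'
    split_ifs with h
    · symm; apply Finset.prod_eq_one; intro i _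
      by_cases hi : i ∈ J
      · simp [hi, h i hi]
      · simp [hi]
    · push Not at h
      obtain ⟨i, hi, hne⟩ := h
      symm; apply Finset.prod_eq_zero (Finset.mem_univ i)
      simp [hi, hne]
  rw [av_congr h1, av_pi_prod (fun i b => if i ∈ J then (if b = x i then (1 : ℝ) else 0) else 1)]
  have h2 : ∀ i, av (fun b : Bool => if i ∈ J then (if b = x i then (1 : ℝ) else 0) else 1)
      = if i ∈ J then 1 / 2 else 1 := by
    intro i
    by_cases hi : i ∈ J
    · simp only [hi, if_true]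
      unfold av
      cases x i <;> simp
    · simp [hi, av_const]
  simp only [h2]
  rw [Finset.prod_ite_mem]
  simp

lemma cn2_le (J : Finset ι) (p : (ι → Bool) → ℝ) (x : ι → Bool) :
    cn2 J p x ≤ 2 ^ J.card * av (fun x => p x ^ 2) := by
  classical
  have h1 : (1 / 2) ^ J.card * cn2 J p x ≤ av (fun x => p x ^ 2) := by
    rw [← av_cn2 J, ← pr_agree J x, pr_eq, ← av_mul_right]
    apply av_mono; intro x'
    split_ifs with h
    · rw [one_mul, cn2_congr J p x' x h]
    · rw [zero_mul]; exact cn2_nonneg _ _ _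
  calc cn2 J p x = 2 ^ J.card * ((1 / 2) ^ J.card * cn2 J p x) := by
        rw [← mul_assoc, ← mul_pow]; norm_num
    _ ≤ _ := by gcongr

lemma infl_mix (J : Finset ι) (p : (ι → Bool) → ℝ) (i : ι) (x : ι → Bool) :
    infl i (fun y => p (mix J x y)) = if i ∈ J then 0 else cn2 J (dd i p) x := by
  unfold infl cn2
  simp only [dd_mix]
  by_cases h : i ∈ J
  · simp [h, av_const]
  · simp [h]

/-- thresholds for the regularity lemma -/
noncomputable def eta (d : ℕ) (τ : ℝ) : ℕ → ℝ
  | 0 => 1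
  | (m + 1) => min (eta d τ m) (τ / 2 ^ (⌈(d : ℝ) / eta d τ m⌉₊))

lemma eta_pos (d : ℕ) {τ : ℝ} (hτ : 0 < τ) (m : ℕ) : 0 < eta d τ m := by
  induction m with
  | zero => simp [eta]
  | succ m ih => rw [eta]; apply lt_min ih; positivity

lemma eta_succ_le (d : ℕ) (τ : ℝ) (m : ℕ) : eta d τ (m + 1) ≤ eta d τ m := by
  rw [eta]; exact min_le_left _ _

lemma eta_anti (d : ℕ) (τ : ℝ) {m n : ℕ} (h : m ≤ n) : eta d τ n ≤ eta d τ m := by
  induction h with
  | refl => exact le_refl _
  | step _ ih => exact (eta_succ_le d τ _).trans ih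

open Classical in
/-- coordinates of large influence -/
noncomputable def Jeta (η : ℝ) (p : (ι → Bool) → ℝ) : Finset ι :=
  Finset.univ.filter (fun i => η ≤ infl i p)

lemma mem_Jeta {η : ℝ} {p : (ι → Bool) → ℝ} {i : ι} : i ∈ Jeta η p ↔ η ≤ infl i p := by
  simp [Jeta]

lemma card_Jeta {d : ℕ} {η : ℝ} (hη : 0 < η) {p : (ι → Bool) → ℝ} (hp : degLE d p)
    (hnorm : av (fun x => p x ^ 2) ≤ 1) : ((Jeta η p).card : ℝ) ≤ d / η := by
  rw [le_div_iff₀ hη]
  calc ((Jeta η p).card : ℝ) * η = ∑ i ∈ Jeta η p, η := by simp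
    _ ≤ ∑ i ∈ Jeta η p, infl i p := Finset.sum_le_sum fun i hi => mem_Jeta.1 hi
    _ ≤ ∑ i, infl i p := Finset.sum_le_sum_of_subset_of_nonneg (Finset.subset_univ _)
        (fun i _ _ => infl_nonneg i p)
    _ ≤ d * av (fun x => p x ^ 2) := sum_infl_le hp
    _ ≤ d * 1 := by gcongr
    _ = d := mul_one _

theorem regularity (d : ℕ) {τ ε : ℝ} (hτ : 0 < τ) (hε : 0 < ε) :
    ∃ j0 : ℕ, ∀ (ι : Type) [Fintype ι] [DecidableEq ι] (p : (ι → Bool) → ℝ), degLE d p →
      av (fun x => p x ^ 2) ≤ 1 → ∃ J : Finset ι, J.card ≤ j0 ∧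
        pr (fun x => ∃ i ∈ (Finset.univ : Finset ι), τ ≤ infl i (fun y => p (mix J x y))) ≤ ε := by
  classical
  obtain ⟨M, hM⟩ := exists_nat_gt ((d : ℝ) / (τ * ε))
  have hM0 : (0 : ℝ) < M := lt_of_le_of_lt (by positivity) hM
  refine ⟨⌈(d : ℝ) / eta d τ M⌉₊, ?_⟩
  intro ι _ _ p hp hnorm
  set J : ℕ → Finset ι := fun m => Jeta (eta d τ m) p with hJ
  have hJmono : ∀ m, J m ⊆ J (m + 1) := by
    intro m i hi
    rw [hJ] at hi ⊢
    simp only [mem_Jeta] at hi ⊢
    exact (eta_succ_le d τ m).trans hi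
  have hcard : ∀ m, ((J m).card : ℝ) ≤ d / eta d τ m := fun m => card_Jeta (eta_pos d hτ m) hp hnorm
  -- pointwise bound for restricted influences
  have hsmall : ∀ m i x, i ∉ J (m + 1) → infl i (fun y => p (mix (J m) x y)) < τ := by
    intro m i x hi
    rw [infl_mix]
    split_ifs with h
    · exact hτ
    · have h1 : infl i p < eta d τ (m + 1) := by
        by_contra hcon; exact hi (mem_Jeta.2 (not_lt.1 hcon))
      have h2 : infl i p < τ / 2 ^ (⌈(d : ℝ) / eta d τ m⌉₊) := by
        refine lt_of_lt_of_le h1 ?_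
        rw [eta]; exact min_le_right _ _
      have h3 : (J m).card ≤ ⌈(d : ℝ) / eta d τ m⌉₊ := by
        have := (hcard m).trans (Nat.le_ceil _)
        exact_mod_cast this
      calc cn2 (J m) (dd i p) x ≤ 2 ^ (J m).card * av (fun x => dd i p x ^ 2) := cn2_le _ _ _
        _ = 2 ^ (J m).card * infl i p := rfl
        _ ≤ 2 ^ (⌈(d : ℝ) / eta d τ m⌉₊) * infl i p := by
            have := infl_nonneg i p
            gcongr
            norm_num
        _ < 2 ^ (⌈(d : ℝ) / eta d τ m⌉₊) * (τ / 2 ^ (⌈(d : ℝ) / eta d τ m⌉₊)) := by gcongr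
        _ = τ := by field_simp
  have hbound : ∀ m, pr (fun x => ∃ i ∈ (Finset.univ : Finset ι),
      τ ≤ infl i (fun y => p (mix (J m) x y))) ≤ (∑ i ∈ J (m + 1) \ J m, infl i p) / τ := by
    intro m
    have h1 : pr (fun x => ∃ i ∈ (Finset.univ : Finset ι), τ ≤ infl i (fun y => p (mix (J m) x y)))
        ≤ pr (fun x => τ ≤ ∑ i ∈ J (m + 1) \ J m, infl i (fun y => p (mix (J m) x y))) := by
      apply pr_mono
      rintro x ⟨i, -, hi⟩
      have h2 : i ∈ J (m + 1) \ J m := by
        rw [Finset.mem_sdiff]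
        constructor
        · by_contra h; exact absurd (hsmall m i x h) (not_lt.2 hi)
        · intro h
          rw [infl_mix, if_pos h] at hi
          linarith
      exact hi.trans (Finset.single_le_sum (f := fun i => infl i (fun y => p (mix (J m) x y)))
        (fun i _ => infl_nonneg _ _) h2)
    refine h1.trans ((pr_le_of_av (fun x => Finset.sum_nonneg fun i _ => infl_nonneg _ _) hτ).trans ?_)
    gcongr
    rw [av_sum]
    apply Finset.sum_le_sum; intro i hi
    simp only [infl_mix]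
    rw [Finset.mem_sdiff] at hi
    simp only [hi.2, if_false]
    rw [av_congr (g := cn2 (J m) (dd i p)) (fun _ => rfl), av_cn2]
    exact le_refl _
  -- pigeonhole
  have htel : ∑ m ∈ Finset.range M, ∑ i ∈ J (m + 1) \ J m, infl i p ≤ d := by
    have h1 : ∀ K, ∑ m ∈ Finset.range K, ∑ i ∈ J (m + 1) \ J m, infl i p
        ≤ ∑ i ∈ J K, infl i p := by
      intro K
      induction K with
      | zero => simpa using Finset.sum_nonneg (fun i _ => infl_nonneg i p)
      | succ K ih =>
        rw [Finset.sum_range_succ, ← Finset.sum_sdiff (hJmono K)]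
        linarith
    calc _ ≤ ∑ i ∈ J M, infl i p := h1 M
      _ ≤ ∑ i, infl i p := Finset.sum_le_sum_of_subset_of_nonneg (Finset.subset_univ _)
        (fun i _ _ => infl_nonneg i p)
      _ ≤ d * av (fun x => p x ^ 2) := sum_infl_le hp
      _ ≤ d * 1 := by gcongr
      _ = d := mul_one _
  obtain ⟨m, hm, hmle⟩ : ∃ m ∈ Finset.range M, (∑ i ∈ J (m + 1) \ J m, infl i p) ≤ d / M := by
    by_contra hcon
    push Not at hcon
    have hne : (Finset.range M).Nonempty := by
      rw [Finset.nonempty_range_iff]; rintro rfl; simp at hM0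
    have h2 : ∑ m ∈ Finset.range M, (d : ℝ) / M < ∑ m ∈ Finset.range M,
        ∑ i ∈ J (m + 1) \ J m, infl i p := Finset.sum_lt_sum_of_nonempty hne hcon
    have h3 : ∑ m ∈ Finset.range M, (d : ℝ) / M = d := by
      simp; field_simp
    linarith
  refine ⟨J m, ?_, ?_⟩
  · have h1 : ((J m).card : ℝ) ≤ d / eta d τ M := by
      refine (hcard m).trans ?_
      have := eta_pos d hτ M
      gcongr
      exact eta_anti d τ (Finset.mem_range.1 hm).le
    have := h1.trans (Nat.le_ceil _)
    exact_mod_cast this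
  · refine (hbound m).trans ?_
    rw [div_le_iff₀ hτ]
    refine hmle.trans ?_
    rw [div_le_iff₀ hM0]
    rw [div_lt_iff₀ (by positivity)] at hM
    nlinarith

/-- Combined statement: outside a bounded junta event of small conditional norm, `p` is
anticoncentrated. -/
theorem junta_anticoncentration (d : ℕ) {ε s' : ℝ} (hε : 0 < ε) (hs' : 0 < s') :
    ∃ j0 : ℕ, ∃ s : ℝ, 0 < s ∧ ∀ (ι : Type) [Fintype ι] [DecidableEq ι] (p : (ι → Bool) → ℝ),
      degLE d p → av (fun x => p x ^ 2) ≤ 1 → ∃ J : Finset ι, J.card ≤ j0 ∧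
        pr (fun x => s' ≤ cn2 J p x ∧ |p x| ≤ s) ≤ ε := by
  classical
  obtain ⟨t, ht, τ, hτ, H⟩ := AC_all d (ε / 2) (by positivity) s' hs'
  obtain ⟨j0, hj0⟩ := regularity d hτ (show (0 : ℝ) < ε / 2 by positivity)
  refine ⟨j0, t, ht, ?_⟩
  intro ι _ _ p hp hnorm
  obtain ⟨J, hJ, hJreg⟩ := hj0 ι p hp hnorm
  refine ⟨J, hJ, ?_⟩
  have h1 : pr (fun x => s' ≤ cn2 J p x ∧ |p x| ≤ t)
      = av (fun x => pr (fun y => s' ≤ cn2 J p x ∧ |p (mix J x y)| ≤ t)) := by
    rw [pr_eq, ← av_mix J]
    apply av_congr; intro x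
    rw [pr_eq]
    apply av_congr; intro y
    simp only [cn2_mix]
  rw [h1]
  have h2 : ∀ x, pr (fun y => s' ≤ cn2 J p x ∧ |p (mix J x y)| ≤ t) ≤
      (if ∃ i ∈ (Finset.univ : Finset ι), τ ≤ infl i (fun y => p (mix J x y)) then (1 : ℝ) else 0)
        + ε / 2 := by
    intro x
    split_ifs with h
    · have := pr_le_one (fun y => s' ≤ cn2 J p x ∧ |p (mix J x y)| ≤ t)
      linarith
    · rw [zero_add]
      by_cases h3 : s' ≤ cn2 J p x
      · refine (pr_mono fun y hy => hy.2).trans ?_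
        apply H ι (fun y => p (mix J x y)) (hp.mix J x) h3
        intro i
        by_contra hcon
        exact h ⟨i, Finset.mem_univ _, (not_le.1 hcon).le⟩
      · have : pr (fun y => s' ≤ cn2 J p x ∧ |p (mix J x y)| ≤ t) = 0 := by
          rw [pr_eq]
          refine Eq.trans (av_congr (g := fun _ => (0 : ℝ)) ?_) av_zero
          intro y; simp [h3]
        rw [this]; positivity
  calc _ ≤ _ := av_mono h2
    _ = pr (fun x => ∃ i ∈ (Finset.univ : Finset ι), τ ≤ infl i (fun y => p (mix J x y))) + ε / 2 := by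
        rw [av_add, av_const, pr_eq]
    _ ≤ ε := by linarith

end PTFT
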