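import Pool.Agent.PTFT.Extension

/-!
The dimension free robust Chow theorem for polynomial threshold functions.
-/

set_option autoImplicit false
set_option linter.unusedSectionVars false
set_option linter.unusedVariables false
set_option linter.unnecessarySeqFocus false

open Finset Filter

namespace PTFT

section seq

variable {ι : ℕ → Type} [∀ k, Fintype (ι k)] [∀ k, DecidableEq (ι k)]

/-- nonnegative bounded low degree sequences which are asymptotically orthogonal to `|g|` -/
structure InC (U : Ultrafilter ℕ) (e : ℕ) (g Q : ∀ k, (ι k → Bool) → ℝ) : Prop where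
  deg : ∀ k, degLE e (Q k)
  nonneg : ∀ k x, 0 ≤ Q k x
  norm : ∀ k, av (fun x => Q k x ^ 2) ≤ 1
  small : ∀ η : ℝ, 0 < η → ∀ᶠ k in (U : Filter ℕ), av (fun x => |g k x| * Q k x) ≤ η

/-- asymptotic mass of the near zero set at most `a` -/
def Small (U : Ultrafilter ℕ) (Q : ∀ k, (ι k → Bool) → ℝ) (a : ℝ) : Prop :=
  ∃ s : ℝ, 0 < s ∧ ∀ᶠ k in (U : Filter ℕ), pr (fun x => Q k x ≤ s) ≤ a

lemma sum_half_pow_le (k : ℕ) : ∑ i ∈ Finset.range k, ((1 : ℝ) / 2) ^ (i + 1) ≤ 1 := by
  have h : ∑ i ∈ Finset.range k, ((1 : ℝ) / 2) ^ (i + 1) = 1 - (1 / 2) ^ k := by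
    induction k with
    | zero => simp
    | succ n ih => rw [Finset.sum_range_succ, ih]; ring
  rw [h]
  have : (0 : ℝ) ≤ (1 / 2) ^ k := by positivity
  linarith

lemma sum_half_pow_Ico_le {I k : ℕ} (h : I ≤ k) :
    ∑ i ∈ Finset.Ico I k, ((1 : ℝ) / 2) ^ (i + 1) ≤ (1 / 2) ^ I := by
  have h' : ∀ k, ∑ i ∈ Finset.range k, ((1 : ℝ) / 2) ^ (i + 1) = 1 - (1 / 2) ^ k := by
    intro k
    induction k with
    | zero => simp
    | succ n ih => rw [Finset.sum_range_succ, ih]; ring
  rw [Finset.sum_Ico_eq_sub _ h, h', h']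
  have : (0 : ℝ) ≤ (1 / 2) ^ k := by positivity
  linarith

lemma av_abs_mul_le_one {κ : Type} [Fintype κ] [DecidableEq κ] {g Q : (κ → Bool) → ℝ} (hg : ∀ x, |g x| ≤ 1)
    (hQ : ∀ x, 0 ≤ Q x) (hn : av (fun x => Q x ^ 2) ≤ 1) : av (fun x => |g x| * Q x) ≤ 1 := by
  have h1 : av (fun x => |g x| * Q x) ≤ av Q := by
    apply av_mono; intro x
    calc |g x| * Q x ≤ 1 * Q x := mul_le_mul_of_nonneg_right (hg x) (hQ x)
      _ = Q x := one_mul _
  have h2 := av_sq_le Q
  have h3 : 0 ≤ av Q := av_nonneg hQ
  nlinarith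

theorem exists_min (U : Ultrafilter ℕ) (hU : (U : Filter ℕ) ≤ atTop) (e : ℕ)
    (g : ∀ k, (ι k → Bool) → ℝ) (hg : ∀ k x, |g k x| ≤ 1) :
    ∃ m : ℝ, (∀ Q : ∀ k, (ι k → Bool) → ℝ, ∀ a, InC U e g Q → Small U Q a → m ≤ a) ∧
      ∃ Q : ∀ k, (ι k → Bool) → ℝ, InC U e g Q ∧ ∀ a, m < a → Small U Q a := by
  set A : Set ℝ := {a | ∃ Q : ∀ k, (ι k → Bool) → ℝ, InC U e g Q ∧ Small U Q a} with hA
  have hAne : A.Nonempty := by
    refine ⟨1, fun k _ => 0, ⟨fun k => degLE_const 0, fun k x => le_refl _, ?_, ?_⟩, 1, one_pos,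
      Filter.Eventually.of_forall fun k => pr_le_one _⟩
    · intro k; simp [av_zero]
    · intro η hη
      apply Filter.Eventually.of_forall; intro k
      simp only [mul_zero, av_zero]; exact hη.le
  have hAbd : BddBelow A := by
    refine ⟨0, ?_⟩
    rintro a ⟨Q, hQ, s, hs, H⟩
    obtain ⟨k, hk⟩ := H.exists
    exact (pr_nonneg _).trans hk
  refine ⟨sInf A, fun Q a hQ ha => csInf_le hAbd ⟨Q, hQ, ha⟩, ?_⟩
  set m := sInf A with hm
  have hex : ∀ i : ℕ, ∃ Q : ∀ k, (ι k → Bool) → ℝ, InC U e g Q ∧ ∃ a, a < m + 1 / (i + 1) ∧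
      Small U Q a := by
    intro i
    have : sInf A < m + 1 / ((i : ℝ) + 1) := by
      have : (0 : ℝ) < 1 / ((i : ℝ) + 1) := by positivity
      linarith
    obtain ⟨a, ⟨Q, hQ, ha⟩, ha'⟩ := exists_lt_of_csInf_lt hAne this
    exact ⟨Q, hQ, a, ha', ha⟩
  choose QQ hQQ aa haa hsm using hex
  set w : ℕ → ℝ := fun i => (1 / 2) ^ (i + 1) with hw
  have hw0 : ∀ i, 0 < w i := fun i => by simp only [hw]; positivity
  refine ⟨fun k x => ∑ i ∈ Finset.range k, w i * QQ i k x, ⟨?_, ?_, ?_, ?_⟩, ?_⟩
  · intro k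
    apply degLE.sum; intro i _
    exact ((hQQ i).deg k).smul _
  · intro k x
    exact Finset.sum_nonneg fun i _ => mul_nonneg (hw0 i).le ((hQQ i).nonneg k x)
  · intro k
    have h1 : ∀ x, (∑ i ∈ Finset.range k, w i * QQ i k x) ^ 2
        ≤ ∑ i ∈ Finset.range k, w i * QQ i k x ^ 2 := by
      intro x
      have h2 : (∑ i ∈ Finset.range k, w i * QQ i k x) ^ 2
          ≤ (∑ i ∈ Finset.range k, w i) * ∑ i ∈ Finset.range k, w i * QQ i k x ^ 2 := by
        apply Finset.sum_sq_le_sum_mul_sum_of_sq_le_mul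
        · intro i _; exact (hw0 i).le
        · intro i _; exact mul_nonneg (hw0 i).le (sq_nonneg _)
        · intro i _; exact le_of_eq (by ring)
      refine h2.trans ?_
      have h3 : 0 ≤ ∑ i ∈ Finset.range k, w i * QQ i k x ^ 2 :=
        Finset.sum_nonneg fun i _ => mul_nonneg (hw0 i).le (sq_nonneg _)
      calc _ ≤ 1 * ∑ i ∈ Finset.range k, w i * QQ i k x ^ 2 :=
            mul_le_mul_of_nonneg_right (sum_half_pow_le k) h3
        _ = _ := one_mul _
    refine (av_mono h1).trans ?_
    rw [av_sum]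
    calc ∑ i ∈ Finset.range k, av (fun x => w i * QQ i k x ^ 2)
        ≤ ∑ i ∈ Finset.range k, w i := by
          apply Finset.sum_le_sum; intro i _
          rw [av_mul_left]
          calc w i * av (fun x => QQ i k x ^ 2) ≤ w i * 1 :=
                mul_le_mul_of_nonneg_left ((hQQ i).norm k) (hw0 i).le
            _ = w i := mul_one _
      _ ≤ 1 := sum_half_pow_le k
  · intro η hη
    obtain ⟨I, hI⟩ := exists_pow_lt_of_lt_one (show (0 : ℝ) < η / 2 by positivity)
      (show (1 / 2 : ℝ) < 1 by norm_num)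
    have hev1 : ∀ᶠ k in (U : Filter ℕ), ∀ i ∈ Finset.range I,
        av (fun x => |g k x| * QQ i k x) ≤ η / 2 :=
      (Filter.eventually_all_finset _).2 fun i _ => (hQQ i).small (η / 2) (by positivity)
    have hev2 : ∀ᶠ k in (U : Filter ℕ), I ≤ k := hU (Filter.eventually_ge_atTop I)
    filter_upwards [hev1, hev2] with k hk1 hk2
    have e1 : av (fun x => |g k x| * ∑ i ∈ Finset.range k, w i * QQ i k x)
        = ∑ i ∈ Finset.range k, w i * av (fun x => |g k x| * QQ i k x) := by
      have : ∀ x, |g k x| * ∑ i ∈ Finset.range k, w i * QQ i k x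
          = ∑ i ∈ Finset.range k, w i * (|g k x| * QQ i k x) := by
        intro x; rw [Finset.mul_sum]; apply Finset.sum_congr rfl; intro i _; ring
      rw [av_congr this, av_sum]
      apply Finset.sum_congr rfl; intro i _; rw [av_mul_left]
    rw [e1, ← Finset.sum_range_add_sum_Ico _ hk2]
    have h1 : ∑ i ∈ Finset.range I, w i * av (fun x => |g k x| * QQ i k x) ≤ η / 2 := by
      calc _ ≤ ∑ i ∈ Finset.range I, w i * (η / 2) := by
            apply Finset.sum_le_sum; intro i hi
            exact mul_le_mul_of_nonneg_left (hk1 i hi) (hw0 i).le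
        _ = (∑ i ∈ Finset.range I, w i) * (η / 2) := by rw [Finset.sum_mul]
        _ ≤ 1 * (η / 2) := by
            apply mul_le_mul_of_nonneg_right (sum_half_pow_le I) (by positivity)
        _ = η / 2 := one_mul _
    have h2 : ∑ i ∈ Finset.Ico I k, w i * av (fun x => |g k x| * QQ i k x) ≤ η / 2 := by
      calc _ ≤ ∑ i ∈ Finset.Ico I k, w i := by
            apply Finset.sum_le_sum; intro i hi
            have := av_abs_mul_le_one (hg k) ((hQQ i).nonneg k) ((hQQ i).norm k)
            calc _ ≤ w i * 1 := mul_le_mul_of_nonneg_left this (hw0 i).le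
              _ = w i := mul_one _
        _ ≤ (1 / 2) ^ I := sum_half_pow_Ico_le hk2
        _ ≤ η / 2 := hI.le
    linarith
  · intro a ha
    obtain ⟨i, hi⟩ := exists_nat_one_div_lt (show (0 : ℝ) < a - m by linarith)
    obtain ⟨s, hs, hev⟩ := hsm i
    refine ⟨w i * s, mul_pos (hw0 i) hs, ?_⟩
    have hev2 : ∀ᶠ k in (U : Filter ℕ), i + 1 ≤ k := hU (Filter.eventually_ge_atTop (i + 1))
    filter_upwards [hev, hev2] with k hk1 hk2
    have h1 : pr (fun x => ∑ i ∈ Finset.range k, w i * QQ i k x ≤ w i * s)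
        ≤ pr (fun x => QQ i k x ≤ s) := by
      apply pr_mono; intro x hx
      have h2 : w i * QQ i k x ≤ ∑ i ∈ Finset.range k, w i * QQ i k x :=
        Finset.single_le_sum (f := fun i => w i * QQ i k x)
          (fun i _ => mul_nonneg (hw0 i).le ((hQQ i).nonneg k x)) (Finset.mem_range.2 (by omega))
      exact le_of_mul_le_mul_left (h2.trans hx) (hw0 i)
    have := haa i
    linarith

open Classical in
theorem improve (U : Ultrafilter ℕ) (d : ℕ)
    (g p : ∀ k, (ι k → Bool) → ℝ) (hg : ∀ k x, |g k x| ≤ 1) (hp : ∀ k, degLE d (p k))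
    (hgp : ∀ k x, g k x ≠ 0 → 0 < g k x * p k x)
    (hlow : ∀ η : ℝ, 0 < η → ∀ᶠ k in (U : Filter ℕ), av (fun x => lowp d (g k) x ^ 2) ≤ η)
    {δ : ℝ} (hδ : 0 < δ) (hfar : ∀ᶠ k in (U : Filter ℕ), δ ≤ av (fun x => |g k x|))
    (m : ℝ) (Q : ∀ k, (ι k → Bool) → ℝ) (hQ : InC U (2 * d) g Q) (hm : ∀ a, m < a → Small U Q a) :
    ∃ Q' : ∀ k, (ι k → Bool) → ℝ, InC U (2 * d) g Q' ∧ ∃ a, a < m ∧ Small U Q' a := by
  obtain ⟨j0, J, Z, hJ, hZ, hZi, hZii⟩ := struct_all U (2 * d) Q hQ.deg hQ.norm
  have hQabs : ∀ k x, |Q k x| = Q k x := fun k x => abs_of_nonneg (hQ.nonneg k x)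
  simp only [hQabs] at hZii
  -- g is small outside Z
  have hA : ∀ η : ℝ, 0 < η → ∀ᶠ k in (U : Filter ℕ),
      av (fun x => if ¬ Z k x then |g k x| else 0) ≤ η := by
    intro η hη
    obtain ⟨s, hs, hev⟩ := hZii (η / 2) (by positivity)
    filter_upwards [hev, hQ.small (η / 2 * s) (by positivity)] with k hk1 hk2
    calc av (fun x => if ¬ Z k x then |g k x| else 0)
        ≤ av (fun x => (if ¬ Z k x ∧ Q k x ≤ s then (1 : ℝ) else 0) + (|g k x| * Q k x) / s) := by
          apply av_mono; intro x
          have h0 : 0 ≤ (|g k x| * Q k x) / s :=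
            div_nonneg (mul_nonneg (abs_nonneg _) (hQ.nonneg k x)) hs.le
          by_cases h1 : Z k x
          · simp only [h1, not_true, if_false, false_and]; linarith
          · by_cases h2 : Q k x ≤ s
            · simp only [h1, h2, not_false_eq_true, if_true, and_self]
              linarith [hg k x]
            · simp only [h1, h2, not_false_eq_true, if_true, and_false, if_false, zero_add]
              rw [le_div_iff₀ hs]
              exact mul_le_mul_of_nonneg_left (not_le.1 h2).le (abs_nonneg _)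
      _ = pr (fun x => ¬ Z k x ∧ Q k x ≤ s) + av (fun x => |g k x| * Q k x) / s := by
          rw [av_add, av_div, ← pr_eq]
      _ ≤ η / 2 + (η / 2 * s) / s := by gcongr
      _ = η := by field_simp; ring
  -- the mass of Z
  have hB : ∀ η : ℝ, 0 < η → ∀ᶠ k in (U : Filter ℕ), pr (Z k) ≤ m + η := by
    intro η hη
    obtain ⟨s, hs, hev⟩ := hm (m + η / 2) (by linarith)
    filter_upwards [hev, hZi (η / 2 * s ^ 2) (by positivity)] with k hk1 hk2
    calc pr (Z k) ≤ av (fun x => (if Q k x ≤ s then (1 : ℝ) else 0)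
            + (if Z k x then Q k x ^ 2 else 0) / s ^ 2) := by
          rw [pr_eq]; apply av_mono; intro x
          by_cases h1 : Z k x
          · by_cases h2 : Q k x ≤ s
            · simp only [h1, h2, if_true]
              have : 0 ≤ Q k x ^ 2 / s ^ 2 := by positivity
              linarith
            · simp only [h1, h2, if_true, if_false, zero_add]
              rw [le_div_iff₀ (by positivity), one_mul]
              have := not_le.1 h2
              gcongr
          · simp only [h1, if_false, zero_div, add_zero]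
            split_ifs <;> norm_num
      _ = pr (fun x => Q k x ≤ s) + av (fun x => if Z k x then Q k x ^ 2 else 0) / s ^ 2 := by
          rw [av_add, av_div, ← pr_eq]
      _ ≤ (m + η / 2) + (η / 2 * s ^ 2) / s ^ 2 := by gcongr
      _ = m + η := by field_simp; ring
  -- p is not zero on Z
  have hCpos : ∀ᶠ k in (U : Filter ℕ), 0 < av (fun x => if Z k x then p k x ^ 2 else 0) := by
    filter_upwards [hA (δ / 2) (by positivity), hfar] with k hk1 hk2
    by_contra hcon
    have h0 : av (fun x => if Z k x then p k x ^ 2 else 0) = 0 := by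
      apply le_antisymm (not_lt.1 hcon)
      apply av_nonneg; intro x; split_ifs
      · positivity
      · exact le_refl _
    have h1 : ∀ x, Z k x → p k x = 0 := by
      have h2 : ∑ x, (if Z k x then p k x ^ 2 else 0) = 0 := by
        unfold av at h0
        rcases div_eq_zero_iff.1 h0 with h | h
        · exact h
        · exfalso
          have := card_pos' (α := ι k → Bool)
          linarith
      intro x hx
      have h3 := (Finset.sum_eq_zero_iff_of_nonneg (fun x _ => by
        split_ifs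
        · positivity
        · exact le_refl _)).1 h2 x (Finset.mem_univ x)
      simpa [hx] using h3
    have h4 : ∀ x, |g k x| = if ¬ Z k x then |g k x| else 0 := by
      intro x
      by_cases hx : Z k x
      · have : g k x = 0 := by
          by_contra h5
          have h6 := hgp k x h5
          rw [h1 x hx, mul_zero] at h6
          exact lt_irrefl _ h6
        simp [hx, this]
      · simp [hx]
    rw [av_congr h4] at hk2
    linarith
  -- the extension
  obtain ⟨C0, hC0, hext⟩ := extension j0 d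
  choose r hrdeg hreq hrnorm using fun k => hext (ι k) (J k) (hJ k) (Z k) (hZ k) (p k) (hp k)
  set C : ℝ := C0 + 1 with hC
  have hCp : 0 < C := by linarith
  set β : ℕ → ℝ := fun k => (Real.sqrt (av (fun x => r k x ^ 2)))⁻¹ with hβ
  have hβ0 : ∀ k, 0 ≤ β k := fun k => inv_nonneg.2 (Real.sqrt_nonneg _)
  set r' : ∀ k, (ι k → Bool) → ℝ := fun k x => β k * r k x with hr'
  have hrsq0 : ∀ k, 0 ≤ av (fun x => r k x ^ 2) := fun k => av_nonneg fun _ => sq_nonneg _
  have hr'deg : ∀ k, degLE d (r' k) := fun k => (hrdeg k).smul _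
  have hr'sq : ∀ k, av (fun x => r' k x ^ 2) = β k ^ 2 * av (fun x => r k x ^ 2) := by
    intro k
    rw [← av_mul_left]; apply av_congr; intro x; simp only [hr']; ring
  have hr'norm : ∀ k, av (fun x => r' k x ^ 2) ≤ 1 := by
    intro k
    rw [hr'sq]
    rcases (hrsq0 k).eq_or_lt with h | h
    · rw [← h]; simp
    · simp only [hβ]
      rw [inv_pow, Real.sq_sqrt h.le, inv_mul_cancel₀ h.ne']
  have hr'4 : ∀ k, av (fun x => r' k x ^ 4) ≤ 9 ^ d := by
    intro k
    refine (bonami (hr'deg k)).trans ?_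
    have h1 := hr'norm k
    have h2 : 0 ≤ av (fun x => r' k x ^ 2) := av_nonneg fun _ => sq_nonneg _
    calc 9 ^ d * av (fun x => r' k x ^ 2) ^ 2 ≤ 9 ^ d * 1 ^ 2 := by gcongr
      _ = 9 ^ d := by ring
  -- correlation
  have hgr : ∀ η : ℝ, 0 < η → ∀ᶠ k in (U : Filter ℕ), av (fun x => g k x * r' k x) ≤ η := by
    intro η hη
    filter_upwards [hlow (η ^ 2) (by positivity)] with k hk
    have h1 : av (fun x => g k x * r' k x) = av (fun x => lowp d (g k) x * r' k x) := by
      rw [plancherel, plancherel]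
      apply Finset.sum_congr rfl; intro S _
      rw [coef_lowp]
      split_ifs with hS
      · rfl
      · rw [hr'deg k S (not_le.1 hS)]; ring
    rw [h1]
    have h2 := av_mul_sq_le (lowp d (g k)) (r' k)
    have h3 : av (fun x => lowp d (g k) x ^ 2) * av (fun x => r' k x ^ 2) ≤ η ^ 2 * 1 :=
      mul_le_mul hk (hr'norm k) (av_nonneg fun _ => sq_nonneg _) (by positivity)
    have h4 : (av (fun x => lowp d (g k) x * r' k x)) ^ 2 ≤ η ^ 2 := by linarith
    exact le_of_abs_le (abs_le_of_sq_le_sq' h4 hη.le |> fun h => abs_le.2 h)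
  have hgrabs : ∀ η : ℝ, 0 < η → ∀ᶠ k in (U : Filter ℕ),
      av (fun x => |g k x| * |r' k x|) ≤ η := by
    intro η hη
    filter_upwards [hgr (η / 2) (by positivity), hA ((η / 4) ^ 2) (by positivity)] with k hk1 hk2
    have h1 : av (fun x => (if ¬ Z k x then |g k x| else 0) * |r' k x|) ≤ η / 4 := by
      have h2 := av_mul_sq_le (fun x => if ¬ Z k x then |g k x| else 0) (fun x => |r' k x|)
      have h3 : av (fun x => (if ¬ Z k x then |g k x| else 0) ^ 2) ≤ (η / 4) ^ 2 := by
        refine le_trans (av_mono ?_) hk2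
        intro x
        by_cases hx : Z k x
        · simp [hx]
        · simp only [hx, not_false_eq_true, if_true]
          have := hg k x
          have := abs_nonneg (g k x)
          nlinarith
      have h4 : av (fun x => |r' k x| ^ 2) ≤ 1 := by
        simpa only [sq_abs] using hr'norm k
      have h5 : av (fun x => (if ¬ Z k x then |g k x| else 0) ^ 2) * av (fun x => |r' k x| ^ 2)
          ≤ (η / 4) ^ 2 * 1 :=
        mul_le_mul h3 h4 (av_nonneg fun _ => sq_nonneg _) (by positivity)
      have h6 : (av (fun x => (if ¬ Z k x then |g k x| else 0) * |r' k x|)) ^ 2 ≤ (η / 4) ^ 2 := by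
        linarith
      exact le_of_abs_le (abs_le_of_sq_le_sq' h6 (by positivity) |> fun h => abs_le.2 h)
    have h2 : ∀ x, |g k x| * |r' k x|
        ≤ g k x * r' k x + 2 * ((if ¬ Z k x then |g k x| else 0) * |r' k x|) := by
      intro x
      by_cases hx : Z k x
      · have h3 : 0 ≤ g k x * r' k x := by
          simp only [hr']
          rw [hreq k x hx]
          by_cases h4 : g k x = 0
          · simp [h4]
          · have := hgp k x h4
            have := mul_nonneg (hβ0 k) this.le
            linarith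
        rw [← abs_mul, abs_of_nonneg h3]
        simp [hx]
      · simp only [hx, not_false_eq_true, if_true]
        have := neg_abs_le (g k x * r' k x)
        rw [abs_mul] at this
        linarith
    refine (av_mono h2).trans ?_
    rw [av_add, av_mul_left]
    linarith
  set W : ∀ k, (ι k → Bool) → ℝ := fun k x => r' k x ^ 2 with hW
  have hWdeg : ∀ k, degLE (2 * d) (W k) := by
    intro k
    have := (hr'deg k).mul (hr'deg k)
    rw [two_mul]
    exact degLE_of_eq this (fun x => by simp only [hW]; ring)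
  have hW0 : ∀ k x, 0 ≤ W k x := fun k x => sq_nonneg _
  have hWg : ∀ η : ℝ, 0 < η → ∀ᶠ k in (U : Filter ℕ), av (fun x => |g k x| * W k x) ≤ η := by
    intro η hη
    obtain ⟨T, hT0, hT⟩ : ∃ T : ℝ, 0 < T ∧ 9 ^ d / T ^ 2 ≤ η / 2 := by
      refine ⟨Real.sqrt (9 ^ d / (η / 2)), Real.sqrt_pos.2 (by positivity), ?_⟩
      rw [Real.sq_sqrt (by positivity)]
      apply le_of_eq; field_simp
    filter_upwards [hgrabs (η / (2 * T)) (by positivity)] with k hk
    have h1 : ∀ x, |g k x| * W k x ≤ T * (|g k x| * |r' k x|) + r' k x ^ 4 / T ^ 2 := by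
      intro x
      have h0 : 0 ≤ r' k x ^ 4 / T ^ 2 := by positivity
      have hg0 := abs_nonneg (g k x)
      have hr0 := abs_nonneg (r' k x)
      have hWx : W k x = |r' k x| * |r' k x| := by simp only [hW]; rw [← sq, sq_abs]
      rcases le_total (|r' k x|) T with h | h
      · have : |g k x| * W k x ≤ T * (|g k x| * |r' k x|) := by
          rw [hWx]
          calc |g k x| * (|r' k x| * |r' k x|) ≤ |g k x| * (T * |r' k x|) := by gcongr
            _ = _ := by ring
        linarith
      · have h2 : |g k x| * W k x ≤ r' k x ^ 4 / T ^ 2 := by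
          rw [le_div_iff₀ (by positivity)]
          have h3 : T ^ 2 ≤ r' k x ^ 2 := by rw [← sq_abs (r' k x)]; gcongr
          calc |g k x| * W k x * T ^ 2 ≤ 1 * W k x * r' k x ^ 2 := by
                have := hg k x
                have := hW0 k x
                gcongr
            _ = r' k x ^ 4 := by simp only [hW]; ring
        have : 0 ≤ T * (|g k x| * |r' k x|) := by positivity
        linarith
    refine (av_mono h1).trans ?_
    rw [av_add, av_mul_left, av_div]
    calc T * av (fun x => |g k x| * |r' k x|) + av (fun x => r' k x ^ 4) / T ^ 2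
        ≤ T * (η / (2 * T)) + 9 ^ d / T ^ 2 := by
          have := hr'4 k
          gcongr
      _ ≤ η / 2 + η / 2 := by
          gcongr
          apply le_of_eq; field_simp
      _ = η := by ring
  set κ : ℝ := (3 ^ d)⁻¹ with hκ
  have hκ0 : 0 < κ := by positivity
  have hκ9 : κ ^ 2 * 9 ^ d = 1 := by
    rw [hκ, inv_pow, ← pow_mul, mul_comm d 2, pow_mul]
    norm_num
  have hκ1 : κ ≤ 1 := by
    rw [hκ]; apply inv_le_one_of_one_le₀
    exact one_le_pow₀ (by norm_num)
  refine ⟨fun k x => (1 / 2) * (Q k x + κ * W k x), ⟨?_, ?_, ?_, ?_⟩, ?_⟩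
  · intro k
    exact ((hQ.deg k).add ((hWdeg k).smul κ)).smul _
  · intro k x
    have := hQ.nonneg k x
    have := hW0 k x
    positivity
  · intro k
    have h1 : ∀ x, ((1 / 2 : ℝ) * (Q k x + κ * W k x)) ^ 2
        ≤ (1 / 2) * (Q k x ^ 2 + κ ^ 2 * r' k x ^ 4) := by
      intro x
      have : κ ^ 2 * r' k x ^ 4 = (κ * W k x) ^ 2 := by simp only [hW]; ring
      rw [this]
      nlinarith [sq_nonneg (Q k x - κ * W k x)]
    refine (av_mono h1).trans ?_
    rw [av_mul_left, av_add, av_mul_left]
    have h2 := hQ.norm k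
    have h3 : κ ^ 2 * av (fun x => r' k x ^ 4) ≤ κ ^ 2 * 9 ^ d := by
      have := hr'4 k
      gcongr
    linarith
  · intro η hη
    filter_upwards [hQ.small η hη, hWg η hη] with k hk1 hk2
    have h1 : ∀ x, |g k x| * ((1 / 2) * (Q k x + κ * W k x))
        = (1 / 2) * (|g k x| * Q k x + κ * (|g k x| * W k x)) := by intro x; ring
    rw [av_congr h1, av_mul_left, av_add, av_mul_left]
    have h3 : κ * av (fun x => |g k x| * W k x) ≤ 1 * η := by
      have h4 : 0 ≤ av (fun x => |g k x| * W k x) :=
        av_nonneg fun x => mul_nonneg (abs_nonneg _) (hW0 k x)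
      gcongr
    linarith
  · -- the gain
    set B : ℝ := 9 ^ d * C ^ 2 with hBdef
    have hB0 : 0 < B := by positivity
    refine ⟨m - 1 / (8 * B), by
      have : 0 < 1 / (8 * B) := by positivity
      linarith, ?_⟩
    obtain ⟨s, hs, hev⟩ := hZii (1 / (16 * B)) (by positivity)
    set s2 : ℝ := min (s / 2) (κ / (8 * C)) with hs2
    have hs2pos : 0 < s2 := lt_min (by positivity) (by positivity)
    refine ⟨s2, hs2pos, ?_⟩
    filter_upwards [hev, hB (1 / (16 * B)) (by positivity), hCpos] with k hk1 hk2 hk3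
    set t : ℝ := 1 / (4 * C) with ht
    have h1 : pr (fun x => 1 / 2 * (Q k x + κ * W k x) ≤ s2)
        ≤ pr (fun x => ¬ Z k x ∧ Q k x ≤ s) + pr (fun x => Z k x ∧ W k x ≤ t) := by
      apply pr_le_add; intro x hx
      have hq := hQ.nonneg k x
      have hw := mul_nonneg hκ0.le (hW0 k x)
      by_cases hZx : Z k x
      · right
        refine ⟨hZx, ?_⟩
        have h2 : κ * W k x ≤ 2 * s2 := by linarith
        have h3 : s2 ≤ κ / (8 * C) := min_le_right _ _
        have h4 : κ * W k x ≤ κ * t := by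
          calc κ * W k x ≤ 2 * s2 := h2
            _ ≤ 2 * (κ / (8 * C)) := by gcongr
            _ = κ * t := by rw [ht]; field_simp; ring
        exact le_of_mul_le_mul_left h4 hκ0
      · left
        refine ⟨hZx, ?_⟩
        have h3 : s2 ≤ s / 2 := min_le_left _ _
        linarith
    -- Paley-Zygmund
    set N : (ι k → Bool) → ℝ := fun x => if Z k x then r' k x ^ 2 else 0 with hN
    have hN1 : av N = β k ^ 2 * av (fun x => if Z k x then p k x ^ 2 else 0) := by
      rw [← av_mul_left]; apply av_congr; intro x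
      simp only [hN]
      split_ifs with h
      · simp only [hr', hreq k x h]; ring
      · simp
    have hr2 : 0 < av (fun x => r k x ^ 2) := by
      refine lt_of_lt_of_le hk3 ?_
      apply av_mono; intro x
      split_ifs with h
      · rw [hreq k x h]
      · positivity
    have hN2 : 1 / C ≤ av N := by
      rw [hN1]
      have e1 : β k ^ 2 = (av (fun x => r k x ^ 2))⁻¹ := by
        simp only [hβ]; rw [inv_pow, Real.sq_sqrt hr2.le]
      rw [e1, inv_mul_eq_div, div_le_div_iff₀ hCp hr2, one_mul]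
      have h5 := hrnorm k
      have h6 : C0 * av (fun x => if Z k x then p k x ^ 2 else 0)
          ≤ av (fun x => if Z k x then p k x ^ 2 else 0) * C := by
        rw [mul_comm]
        gcongr
        linarith
      linarith
    have hNpos : 0 < av N := lt_of_lt_of_le (by positivity) hN2
    have hN4 : av (fun x => N x ^ 2) ≤ B * (av N) ^ 2 := by
      have e1 : av (fun x => N x ^ 2) ≤ 9 ^ d := by
        refine le_trans (av_mono ?_) (hr'4 k)
        intro x
        simp only [hN]
        split_ifs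
        · apply le_of_eq; ring
        · simp only [ne_eq, OfNat.ofNat_ne_zero, not_false_eq_true, zero_pow]; positivity
      have e2 : 1 ≤ C * av N := by
        rw [div_le_iff₀ hCp] at hN2; linarith
      calc av (fun x => N x ^ 2) ≤ 9 ^ d * 1 ^ 2 := by linarith
        _ ≤ 9 ^ d * (C * av N) ^ 2 := by gcongr
        _ = B * (av N) ^ 2 := by rw [hBdef]; ring
    have hPZ := paley_zygmund hB0 hN4 hNpos
    have h2 : pr (fun x => av N / 2 ≤ N x) ≤ pr (fun x => Z k x ∧ ¬ W k x ≤ t) := by
      apply pr_mono; intro x hx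
      have e1 : 1 / (2 * C) ≤ N x := by
        refine le_trans ?_ hx
        have : 1 / (2 * C) = (1 / C) / 2 := by field_simp
        rw [this]; linarith
      have e2 : t < 1 / (2 * C) := by
        rw [ht]
        apply one_div_lt_one_div_of_lt (by positivity); linarith
      have e3 : 0 < t := by positivity
      simp only [hN] at e1
      by_cases hZx : Z k x
      · simp only [hZx, if_true] at e1
        refine ⟨hZx, not_le.2 ?_⟩
        simp only [hW]; linarith
      · simp only [hZx, if_false] at e1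
        exfalso; linarith
    have h3 := pr_and_add_pr_and_not (Z k) (fun x => W k x ≤ t)
    have h4 : 1 / (4 * B) = 1 / (8 * B) + 1 / (16 * B) + 1 / (16 * B) := by
      field_simp; norm_num
    linarith

end seq

/-- Dimension free robust Chow theorem: a bounded function which is sign-compatible with a
polynomial of degree `d` and has almost no weight at levels `≤ d` is small. -/
theorem robust_chow (d : ℕ) {δ : ℝ} (hδ : 0 < δ) :
    ∃ c : ℝ, 0 < c ∧ ∀ (n : ℕ) (g p : (Fin n → Bool) → ℝ), (∀ x, |g x| ≤ 1) → degLE d p →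
      (∀ x, g x ≠ 0 → 0 < g x * p x) → av (fun x => lowp d g x ^ 2) ≤ c →
      av (fun x => |g x|) < δ := by
  by_contra hcon
  push Not at hcon
  have hex : ∀ k : ℕ, ∃ (n : ℕ) (g p : (Fin n → Bool) → ℝ), (∀ x, |g x| ≤ 1) ∧ degLE d p ∧
      (∀ x, g x ≠ 0 → 0 < g x * p x) ∧ av (fun x => lowp d g x ^ 2) ≤ 1 / ((k : ℝ) + 1) ∧
      δ ≤ av (fun x => |g x|) := by
    intro k
    exact hcon (1 / ((k : ℝ) + 1)) (by positivity)
  choose n g p hg hp hgp hlow hfar using hex
  set U : Ultrafilter ℕ := Filter.hyperfilter ℕ with hU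
  have hUtop : (U : Filter ℕ) ≤ atTop := Nat.hyperfilter_le_atTop
  have hlow' : ∀ η : ℝ, 0 < η → ∀ᶠ k in (U : Filter ℕ), av (fun x => lowp d (g k) x ^ 2) ≤ η := by
    intro η hη
    obtain ⟨N, hN⟩ := exists_nat_one_div_lt hη
    have : ∀ᶠ k in (U : Filter ℕ), N ≤ k := hUtop (Filter.eventually_ge_atTop N)
    filter_upwards [this] with k hk
    refine (hlow k).trans (le_trans ?_ hN.le)
    gcongr
  obtain ⟨m, hm1, Q, hQ, hm2⟩ := exists_min (ι := fun k => Fin (n k)) U hUtop (2 * d) g hg
  obtain ⟨Q', hQ', a, ha, hsm⟩ := improve (ι := fun k => Fin (n k)) U d g p hg hp hgp hlow' hδ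
    (Filter.Eventually.of_forall hfar) m Q hQ hm2
  exact absurd (hm1 Q' a hQ' hsm) (not_le.2 ha)

end PTFT
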