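import Pool.Agent.PTFT.Bonami

/-!
Small ball estimate for linear forms in signs, by a Fejer type kernel.
-/

set_option autoImplicit false
set_option linter.unusedSectionVars false
set_option linter.unusedVariables false

open Finset

namespace PTFT

variable {ι : Type*} [Fintype ι] [DecidableEq ι]

lemma cos_mul_sg (b : ℝ) (s : Bool) : Real.cos (b * sg s) = Real.cos b := by
  cases s <;> simp

lemma av_cos_aux (A : Finset ι) (a : ι → ℝ) (c : ℝ) :
    av (fun x : ι → Bool => Real.cos (c + ∑ i ∈ A, a i * sg (x i)))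
      = Real.cos c * ∏ i ∈ A, Real.cos (a i) := by
  induction A using Finset.induction_on with
  | empty => simp [av_const]
  | insert i A hi ih =>
    set u : (ι → Bool) → ℝ := fun x => c + ∑ j ∈ A, a j * sg (x j) with hu
    have hflip : ∀ x, u (flip i x) = u x := by
      intro x
      simp only [hu]
      congr 1
      apply Finset.sum_congr rfl; intro j hj
      rw [flip_ne (by rintro rfl; exact hi hj)]
    have h1 : ∀ x : ι → Bool, Real.cos (c + ∑ j ∈ insert i A, a j * sg (x j))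
        = Real.cos (a i) * Real.cos (u x) - sg (x i) * (Real.sin (u x) * Real.sin (a i)) := by
      intro x
      rw [Finset.sum_insert hi]
      have : c + (a i * sg (x i) + ∑ j ∈ A, a j * sg (x j)) = u x + a i * sg (x i) := by
        simp only [hu]; ring
      rw [this, Real.cos_add, cos_mul_sg]
      cases x i <;> simp <;> ring
    rw [av_congr h1, av_sub, av_mul_left]
    have h0 : av (fun x : ι → Bool => sg (x i) * (Real.sin (u x) * Real.sin (a i))) = 0 := by
      apply av_eq_zero_of_flip i; intro x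
      rw [hflip, flip_same, sg_not]; ring
    rw [h0, ih, Finset.prod_insert hi]; ring

lemma av_cos (a : ι → ℝ) (c : ℝ) :
    av (fun x : ι → Bool => Real.cos (c + ∑ i, a i * sg (x i)))
      = Real.cos c * ∏ i, Real.cos (a i) := av_cos_aux Finset.univ a c

lemma abs_cos_le_exp {u : ℝ} (hu : |u| ≤ 1) : |Real.cos u| ≤ Real.exp (-(u ^ 2 / 4)) := by
  have h1 := Real.cos_bound hu
  have h2 : |u| ^ 4 ≤ u ^ 2 := by
    have : |u| ^ 4 = u ^ 2 * u ^ 2 := by rw [← sq_abs u]; ring
    rw [this]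
    have h3 : u ^ 2 ≤ 1 := by rw [← sq_abs]; exact pow_le_one₀ (abs_nonneg _) hu
    nlinarith [sq_nonneg u]
  have h3 : u ^ 2 ≤ 1 := by rw [← sq_abs]; exact pow_le_one₀ (abs_nonneg _) hu
  rw [abs_le] at h1
  have h4 : 0 ≤ Real.cos u := by nlinarith [sq_nonneg u]
  rw [abs_of_nonneg h4]
  have h5 : Real.cos u ≤ 1 - u ^ 2 / 4 := by nlinarith [sq_nonneg u]
  have h6 := Real.add_one_le_exp (-(u ^ 2 / 4))
  linarith

lemma sum_cos_sub (m : ℕ) (u : ℝ) :
    ∑ k ∈ Finset.range m, ∑ l ∈ Finset.range m, Real.cos (((k : ℝ) - l) * u)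
      = (∑ k ∈ Finset.range m, Real.cos (k * u)) ^ 2
        + (∑ k ∈ Finset.range m, Real.sin (k * u)) ^ 2 := by
  rw [sq, sq, Finset.sum_mul_sum, Finset.sum_mul_sum, ← Finset.sum_add_distrib]
  apply Finset.sum_congr rfl; intro k _
  rw [← Finset.sum_add_distrib]
  apply Finset.sum_congr rfl; intro l _
  rw [sub_mul, Real.cos_sub]

lemma fejer_lower (m : ℕ) (hm : 0 < m) (u : ℝ) (hu : |u| ≤ 1 / m) :
    (m : ℝ) ^ 2 / 4 ≤
      ∑ k ∈ Finset.range m, ∑ l ∈ Finset.range m, Real.cos (((k : ℝ) - l) * u) := by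
  rw [sum_cos_sub]
  have hm' : (0 : ℝ) < m := by exact_mod_cast hm
  have h1 : (m : ℝ) / 2 ≤ ∑ k ∈ Finset.range m, Real.cos (k * u) := by
    have : ∀ k ∈ Finset.range m, (1 / 2 : ℝ) ≤ Real.cos (k * u) := by
      intro k hk
      have hk' : (k : ℝ) ≤ m := by exact_mod_cast (Finset.mem_range.1 hk).le
      have hle : |(k : ℝ) * u| ≤ 1 := by
        rw [abs_mul, abs_of_nonneg (Nat.cast_nonneg k)]
        calc (k : ℝ) * |u| ≤ m * (1 / m) := by gcongr
          _ = 1 := by field_simp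
      have h2 := Real.one_sub_sq_div_two_le_cos (x := (k : ℝ) * u)
      have h3 : ((k : ℝ) * u) ^ 2 ≤ 1 := by rw [← sq_abs]; exact pow_le_one₀ (abs_nonneg _) hle
      linarith
    calc (m : ℝ) / 2 = ∑ k ∈ Finset.range m, (1 / 2 : ℝ) := by simp; ring
      _ ≤ _ := Finset.sum_le_sum this
  nlinarith [sq_nonneg (∑ k ∈ Finset.range m, Real.sin (k * u)),
    mul_self_nonneg ((∑ k ∈ Finset.range m, Real.cos (k * u)) - m / 2)]

lemma fejer_nonneg (m : ℕ) (u : ℝ) :
    0 ≤ ∑ k ∈ Finset.range m, ∑ l ∈ Finset.range m, Real.cos (((k : ℝ) - l) * u) := by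
  rw [sum_cos_sub]; positivity

lemma av_cos_le (a : ι → ℝ) (c : ℝ) (t : ℝ) (ht : 1 ≤ t ^ 2) (h : ∀ i, |t * a i| ≤ 1) :
    av (fun x : ι → Bool => Real.cos (t * (c + ∑ i, a i * sg (x i))))
      ≤ Real.exp (-((∑ i, a i ^ 2) / 4)) := by
  have h1 : ∀ x : ι → Bool, Real.cos (t * (c + ∑ i, a i * sg (x i)))
      = Real.cos (t * c + ∑ i, (t * a i) * sg (x i)) := by
    intro x; rw [mul_add, Finset.mul_sum]; congr 2
    apply Finset.sum_congr rfl; intro i _; ring
  rw [av_congr h1, av_cos]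
  have h2 : |∏ i, Real.cos (t * a i)| ≤ Real.exp (-((∑ i, a i ^ 2) / 4)) := by
    rw [Finset.abs_prod]
    calc ∏ i, |Real.cos (t * a i)| ≤ ∏ i, Real.exp (-((t * a i) ^ 2 / 4)) := by
          apply Finset.prod_le_prod
          · intro i _; exact abs_nonneg _
          · intro i _; exact abs_cos_le_exp (h i)
      _ = Real.exp (∑ i, -((t * a i) ^ 2 / 4)) := by rw [Real.exp_sum]
      _ ≤ _ := by
          apply Real.exp_le_exp.2
          rw [Finset.sum_neg_distrib, Finset.sum_div]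
          apply neg_le_neg
          apply Finset.sum_le_sum; intro i _
          rw [mul_pow]
          nlinarith [sq_nonneg (a i)]
  calc Real.cos (t * c) * ∏ i, Real.cos (t * a i)
      ≤ |Real.cos (t * c) * ∏ i, Real.cos (t * a i)| := le_abs_self _
    _ = |Real.cos (t * c)| * |∏ i, Real.cos (t * a i)| := abs_mul _ _
    _ ≤ 1 * Real.exp (-((∑ i, a i ^ 2) / 4)) := by
        apply mul_le_mul (Real.abs_cos_le_one _) h2 (abs_nonneg _) (by norm_num)
    _ = _ := one_mul _

lemma small_ball (m : ℕ) (hm : 0 < m) (a : ι → ℝ) (c : ℝ) (ha : ∀ i, |a i| * m ≤ 1) :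
    pr (fun x : ι → Bool => |c + ∑ i, a i * sg (x i)| ≤ 1 / m)
      ≤ 4 / m + 4 * Real.exp (-((∑ i, a i ^ 2) / 4)) := by
  classical
  have hm' : (0 : ℝ) < m := by exact_mod_cast hm
  set X : (ι → Bool) → ℝ := fun x => c + ∑ i, a i * sg (x i) with hX
  set F : (ι → Bool) → ℝ := fun x =>
    ∑ k ∈ Finset.range m, ∑ l ∈ Finset.range m, Real.cos (((k : ℝ) - l) * X x) with hF
  set e := Real.exp (-((∑ i, a i ^ 2) / 4)) with he
  have h1 : pr (fun x => |X x| ≤ 1 / m) ≤ pr (fun x => (m : ℝ) ^ 2 / 4 ≤ F x) :=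
    pr_mono fun x hx => fejer_lower m hm (X x) hx
  have h2 : pr (fun x => (m : ℝ) ^ 2 / 4 ≤ F x) ≤ av F / ((m : ℝ) ^ 2 / 4) :=
    pr_le_of_av (fun x => fejer_nonneg m _) (by positivity)
  have h3 : av F ≤ m + m ^ 2 * e := by
    simp only [hF]
    rw [av_sum]
    have hterm : ∀ k ∈ Finset.range m, ∀ l ∈ Finset.range m,
        av (fun x => Real.cos (((k : ℝ) - l) * X x)) ≤ (if k = l then 1 else 0) + e := by
      intro k hk l hl
      by_cases hkl : k = l
      · subst hkl
        simp only [sub_self, zero_mul, Real.cos_zero, if_true]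
        rw [av_const]
        have : 0 < e := Real.exp_pos _
        linarith
      · simp only [hkl, if_false, zero_add]
        apply av_cos_le
        · have hkl' : (1 : ℝ) ≤ |(k : ℝ) - l| := by
            have h4 : (k : ℤ) - l ≠ 0 := sub_ne_zero.2 (by exact_mod_cast hkl)
            have h5 := Int.one_le_abs h4
            have h6 : ((1 : ℤ) : ℝ) ≤ ((|(k : ℤ) - l| : ℤ) : ℝ) := by exact_mod_cast h5
            simpa using h6
          rw [← sq_abs]
          exact one_le_pow₀ hkl'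
        · intro i
          rw [abs_mul]
          have hkm : |(k : ℝ) - l| ≤ m := by
            rw [abs_le]
            have := Finset.mem_range.1 hk
            have := Finset.mem_range.1 hl
            have h4 : (k : ℝ) ≤ m := by exact_mod_cast (Finset.mem_range.1 hk).le
            have h5 : (l : ℝ) ≤ m := by exact_mod_cast (Finset.mem_range.1 hl).le
            have h6 : (0 : ℝ) ≤ k := Nat.cast_nonneg _
            have h7 : (0 : ℝ) ≤ l := Nat.cast_nonneg _
            constructor <;> linarith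
          calc |(k : ℝ) - l| * |a i| ≤ m * |a i| := by gcongr
            _ ≤ 1 := by rw [mul_comm]; exact ha i
    calc ∑ k ∈ Finset.range m, av (fun x => ∑ l ∈ Finset.range m, Real.cos (((k : ℝ) - l) * X x))
        = ∑ k ∈ Finset.range m, ∑ l ∈ Finset.range m,
            av (fun x => Real.cos (((k : ℝ) - l) * X x)) := by
          apply Finset.sum_congr rfl; intro k _; rw [av_sum]
      _ ≤ ∑ k ∈ Finset.range m, ∑ l ∈ Finset.range m, ((if k = l then (1 : ℝ) else 0) + e) := by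
          apply Finset.sum_le_sum; intro k hk
          apply Finset.sum_le_sum; intro l hl
          exact hterm k hk l hl
      _ = m + m ^ 2 * e := by
          simp only [Finset.sum_add_distrib, Finset.sum_ite_eq, Finset.sum_const, Finset.card_range,
            nsmul_eq_mul]
          have : ∑ k ∈ Finset.range m, (if k ∈ Finset.range m then (1 : ℝ) else 0) = m := by
            rw [Finset.sum_ite_mem]; simp
          rw [this]; ring
  calc pr (fun x => |X x| ≤ 1 / m) ≤ av F / ((m : ℝ) ^ 2 / 4) := h1.trans h2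
    _ ≤ (m + m ^ 2 * e) / ((m : ℝ) ^ 2 / 4) := by gcongr
    _ = 4 / m + 4 * e := by field_simp

/-- scale invariant form -/
theorem exists_small_ball {ε : ℝ} (hε : 0 < ε) : ∃ κ : ℝ, 0 < κ ∧ κ ≤ 1 ∧
    ∀ (ι : Type) [Fintype ι] [DecidableEq ι] (a : ι → ℝ) (c A : ℝ), 0 < A →
      (∀ i, |a i| ≤ κ * A) → A ^ 2 ≤ ∑ i, a i ^ 2 →
      pr (fun x : ι → Bool => |c + ∑ i, a i * sg (x i)| ≤ κ * A) ≤ ε := by
  obtain ⟨m, hm⟩ := exists_nat_gt (8 / ε + 1)
  have hm' : (0 : ℝ) < m := lt_trans (by positivity) hm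
  have hm0 : 0 < m := by exact_mod_cast hm'
  have hm1 : (1 : ℝ) ≤ m := by exact_mod_cast hm0
  -- choose B with 4 exp(-B^2/4) ≤ ε/2
  obtain ⟨B, hB1, hB⟩ : ∃ B : ℝ, 1 ≤ B ∧ 4 * Real.exp (-(B ^ 2 / 4)) ≤ ε / 2 := by
    refine ⟨max 1 (32 / ε), le_max_left _ _, ?_⟩
    set B := max 1 (32 / ε) with hBdef
    have h1 : 32 / ε ≤ B := le_max_right _ _
    have hB1 : 1 ≤ B := le_max_left _ _
    have h2 : B / 4 + 1 ≤ Real.exp (B ^ 2 / 4) := by
      have := Real.add_one_le_exp (B ^ 2 / 4)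
      nlinarith
    rw [Real.exp_neg]
    have h3 : 8 / ε ≤ Real.exp (B ^ 2 / 4) := by
      have : 8 / ε = (32 / ε) / 4 := by ring
      rw [this]; linarith
    have h4 : (Real.exp (B ^ 2 / 4))⁻¹ ≤ (8 / ε)⁻¹ := inv_anti₀ (by positivity) h3
    calc 4 * (Real.exp (B ^ 2 / 4))⁻¹ ≤ 4 * (8 / ε)⁻¹ := by gcongr
      _ = ε / 2 := by field_simp; ring
  have hB0 : 0 < B := by linarith
  refine ⟨1 / (m * B), by positivity, ?_, ?_⟩
  · rw [div_le_one (by positivity)]; nlinarith
  intro ι _ _ a c A hA ha hsum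
  set κ := 1 / (m * B) with hκ
  have hκB : κ * B = 1 / m := by rw [hκ]; field_simp
  have hsb := small_ball (ι := ι) m hm0 (fun i => a i * (B / A)) (c * (B / A)) (by
    intro i
    rw [abs_mul, abs_of_pos (show (0 : ℝ) < B / A by positivity)]
    calc |a i| * (B / A) * m ≤ (κ * A) * (B / A) * m := by gcongr; exact ha i
      _ = (κ * B) * m := by field_simp
      _ = 1 := by rw [hκB]; field_simp)
  have h1 : pr (fun x : ι → Bool => |c + ∑ i, a i * sg (x i)| ≤ κ * A)
      ≤ pr (fun x : ι → Bool => |c * (B / A) + ∑ i, a i * (B / A) * sg (x i)| ≤ 1 / m) := by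
    apply pr_mono; intro x hx
    have h2 : c * (B / A) + ∑ i, a i * (B / A) * sg (x i)
        = (B / A) * (c + ∑ i, a i * sg (x i)) := by
      rw [mul_add, Finset.mul_sum, mul_comm c]; congr 1
      apply Finset.sum_congr rfl; intro i _; ring
    rw [h2, abs_mul, abs_of_pos (show (0 : ℝ) < B / A by positivity)]
    calc B / A * |c + ∑ i, a i * sg (x i)| ≤ B / A * (κ * A) := by gcongr
      _ = κ * B := by field_simp
      _ = 1 / m := hκB
  have h3 : B ^ 2 ≤ ∑ i, (a i * (B / A)) ^ 2 := by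
    have : ∑ i, (a i * (B / A)) ^ 2 = (B / A) ^ 2 * ∑ i, a i ^ 2 := by
      rw [Finset.mul_sum]; apply Finset.sum_congr rfl; intro i _; ring
    rw [this]
    calc B ^ 2 = (B / A) ^ 2 * A ^ 2 := by field_simp
      _ ≤ _ := by gcongr
  have h4 : (4 : ℝ) / m ≤ ε / 2 := by
    rw [div_le_iff₀ hm']
    have : 8 / ε < m := by linarith
    rw [div_lt_iff₀ hε] at this
    linarith
  calc _ ≤ _ := h1
    _ ≤ _ := hsb
    _ ≤ ε / 2 + 4 * Real.exp (-(B ^ 2 / 4)) := by
        gcongr
    _ ≤ ε := by linarith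

end PTFT
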