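import Pool.Agent.PTFT.Minors

/-!
The constant query tester for polynomial threshold functions.
-/

set_option autoImplicit false
set_option linter.unusedSectionVars false
set_option linter.unusedVariables false
set_option linter.unnecessarySeqFocus false

open Finset Filter

namespace PTFT

lemma poly_to_deg {n d : ℕ} (p : MvPolynomial (Fin n) ℝ) (hp : p.totalDegree ≤ d) :
    degLE d (fun x : Fin n → Bool => MvPolynomial.eval (fun i => if x i then (1:ℝ) else -1) p) := by
  have h : ∀ x : Fin n → Bool, MvPolynomial.eval (fun i => if x i then (1:ℝ) else -1) p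
      = ∑ m ∈ p.support, p.coeff m * chi (Finset.univ.filter (fun i => Odd (m i))) x := by
    intro x
    rw [MvPolynomial.eval_eq']
    apply Finset.sum_congr rfl; intro m _
    congr 1
    unfold chi
    rw [Finset.prod_filter]
    apply Finset.prod_congr rfl; intro i _
    have : (if x i then (1:ℝ) else -1) = sg (x i) := rfl
    rw [this]
    rcases Nat.even_or_odd (m i) with h1 | h1
    · rw [if_neg (Nat.not_odd_iff_even.2 h1)]
      obtain ⟨k, hk⟩ := h1
      rw [hk, ← two_mul, pow_mul, sg_sq, one_pow]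
    · rw [if_pos h1]
      obtain ⟨k, hk⟩ := h1
      rw [hk, pow_succ, pow_mul, sg_sq, one_pow, one_mul]
  refine degLE_of_eq ?_ h
  apply degLE.sum; intro m hm
  apply degLE.smul
  apply degLE_chi
  refine le_trans ?_ hp
  refine le_trans ?_ (MvPolynomial.le_totalDegree hm)
  rw [Finsupp.sum_fintype _ _ (fun _ => rfl), Finset.card_eq_sum_ones, Finset.sum_filter]
  apply Finset.sum_le_sum; intro i _
  split_ifs with h1
  · exact h1.pos
  · exact Nat.zero_le _

lemma deg_to_poly {n d : ℕ} (q : (Fin n → Bool) → ℝ) (hq : degLE d q) :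
    ∃ p : MvPolynomial (Fin n) ℝ, p.totalDegree ≤ d ∧
      ∀ x : Fin n → Bool, MvPolynomial.eval (fun i => if x i then (1:ℝ) else -1) p = q x := by
  refine ⟨∑ S ∈ Finset.univ.filter (fun S : Finset (Fin n) => S.card ≤ d),
    MvPolynomial.C (coef q S) * ∏ i ∈ S, MvPolynomial.X i, ?_, ?_⟩
  · apply MvPolynomial.totalDegree_finsetSum_le
    intro S hS
    simp only [mem_filter, mem_univ, true_and] at hS
    refine (MvPolynomial.totalDegree_mul _ _).trans ?_
    rw [MvPolynomial.totalDegree_C, zero_add]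
    refine (MvPolynomial.totalDegree_finsetProd _ _).trans ?_
    refine le_trans ?_ hS
    rw [Finset.card_eq_sum_ones]
    apply Finset.sum_le_sum; intro i _
    rw [MvPolynomial.totalDegree_X]
  · intro x
    rw [map_sum, hq.eq_sum x]
    apply Finset.sum_congr rfl; intro S _
    rw [map_mul, MvPolynomial.eval_C, map_prod]
    congr 1
    unfold chi
    apply Finset.prod_congr rfl; intro i _
    rw [MvPolynomial.eval_X]
    rfl

/-- threshold functions of degree `d` -/
def IsPTF {κ : Type} [Fintype κ] [DecidableEq κ] (d : ℕ) (f : (κ → Bool) → Bool) : Prop :=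
  ∃ q : (κ → Bool) → ℝ, degLE d q ∧ ∀ x, f x = decide (0 < q x)

lemma isPTF_iff {n d : ℕ} (f : (Fin n → Bool) → Bool) :
    (∃ p : MvPolynomial (Fin n) ℝ, p.totalDegree ≤ d ∧
      ∀ x : Fin n → Bool,
        f x = decide (0 < MvPolynomial.eval (fun i => if x i then (1:ℝ) else -1) p))
      ↔ IsPTF d f := by
  constructor
  · rintro ⟨p, hp, h⟩
    exact ⟨_, poly_to_deg p hp, h⟩
  · rintro ⟨q, hq, h⟩
    obtain ⟨p, hp, hpq⟩ := deg_to_poly q hq
    exact ⟨p, hp, fun x => by rw [hpq, h]⟩

lemma IsPTF.minor {ι κ : Type} [Fintype ι] [DecidableEq ι] [Fintype κ] [DecidableEq κ] {d : ℕ}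
    {f : (ι → Bool) → Bool} (hf : IsPTF d f) (s : ι → Bool) (b : ι → κ) :
    IsPTF d (fun z => f (mn s b z)) := by
  obtain ⟨q, hq, h⟩ := hf
  exact ⟨_, degLE_mn hq s b, fun z => h _⟩

/-- a threshold representation can be made nowhere zero -/
lemma IsPTF.strict {κ : Type} [Fintype κ] [DecidableEq κ] {d : ℕ}
    {f : (κ → Bool) → Bool} (hf : IsPTF d f) :
    ∃ q : (κ → Bool) → ℝ, degLE d q ∧ ∀ x, 0 < sg (f x) * q x := by
  obtain ⟨q, hq, h⟩ := hf
  obtain ⟨η, hη, hη2⟩ : ∃ η : ℝ, 0 < η ∧ ∀ x, 0 < q x → η < q x := by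
    have h1 : ∀ x, ∀ᶠ η : ℝ in nhdsWithin 0 (Set.Ioi 0), 0 < q x → η < q x := by
      intro x
      by_cases hx : 0 < q x
      · have : ∀ᶠ η : ℝ in nhdsWithin 0 (Set.Ioi 0), η < q x :=
          nhdsWithin_le_nhds (Iio_mem_nhds hx)
        exact this.mono fun η h _ => h
      · exact Filter.Eventually.of_forall fun η h => absurd h hx
    have h2 : ∀ᶠ η : ℝ in nhdsWithin 0 (Set.Ioi 0), ∀ x, 0 < q x → η < q x :=
      Filter.eventually_all.2 h1
    have h3 : ∀ᶠ η : ℝ in nhdsWithin 0 (Set.Ioi 0), 0 < η := self_mem_nhdsWithin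
    obtain ⟨η, h4, h5⟩ := (h2.and h3).exists
    exact ⟨η, h5, h4⟩
  refine ⟨fun x => q x - η, hq.sub (degLE_const η), ?_⟩
  intro x
  by_cases hx : 0 < q x
  · have : f x = true := by rw [h x]; exact decide_eq_true hx
    rw [this, sg_true]
    have := hη2 x hx
    linarith
  · have : f x = false := by rw [h x]; exact decide_eq_false hx
    rw [this, sg_false]
    linarith

open Classical in
/-- Random minors of far functions are, with noticeable probability, not threshold functions. -/
theorem minor_soundness (d : ℕ) {ε : ℝ} (hε : 0 < ε) (hε1 : ε ≤ 1) :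
    ∃ K : ℕ, 0 < K ∧ ∀ (n : ℕ) (f : (Fin n → Bool) → Bool),
      (∀ q : (Fin n → Bool) → ℝ, degLE d q → ε ≤ pr (fun x => f x ≠ decide (0 < q x))) →
      ε / 4 ≤ pr (fun ω : (Fin n → Fin K) × (Fin n → Bool) =>
        ¬ IsPTF d (fun z => f (mn ω.2 ω.1 z))) := by
  obtain ⟨c, hc, hR⟩ := robust_chow d (show 0 < ε / 2 by positivity)
  obtain ⟨K, hK⟩ := exists_nat_gt (4 * ((d : ℝ) + 1) ^ 2 / (c * ε))
  have hK0 : (0 : ℝ) < K := lt_of_le_of_lt (by positivity) hK
  have hKpos : 0 < K := by exact_mod_cast hK0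
  refine ⟨K, hKpos, ?_⟩
  intro n f hfar
  have : NeZero K := ⟨hKpos.ne'⟩
  obtain ⟨μ, hμ, hμε, hμ0⟩ := duality d f hε1 hfar
  set g : (Fin n → Bool) → ℝ := fun x => μ x * sg (f x) with hg
  have habs : ∀ x, |g x| = μ x := by
    intro x; simp only [hg]
    rw [abs_mul, abs_sg, mul_one, abs_of_nonneg (hμ x).1]
  set a : (Fin n → Fin K) × (Fin n → Bool) → ℝ := fun ω => av (fun z => μ (mn ω.2 ω.1 z)) with ha
  set L : (Fin n → Fin K) × (Fin n → Bool) → ℝ :=
    fun ω => av (fun z => lowp d (fun z => g (mn ω.2 ω.1 z)) z ^ 2) with hL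
  have ha1 : ε / 2 ≤ pr (fun ω => ε / 2 ≤ a ω) := by
    have h1 : av a = av μ := by rw [av_prod]; exact av_mn μ
    have h2 : av a ≤ pr (fun ω => ε / 2 ≤ a ω) + ε / 2 := by
      apply av_le_pr_add (by positivity)
      · intro ω
        calc a ω ≤ av (fun _ : Fin K → Bool => (1 : ℝ)) := av_mono fun z => (hμ _).2
          _ = 1 := av_const 1
      · intro ω hω
        exact (not_le.1 hω).le
    linarith
  have hL1 : pr (fun ω => c < L ω) ≤ ε / 4 := by
    have h1 : av L ≤ ((d : ℝ) + 1) ^ 2 / K := by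
      rw [av_prod]
      have := low_weight_minor (κ := Fin K) d g (fun x => by rw [habs]; exact (hμ x).2) hμ0
      simpa using this
    refine (pr_lt_le_of_av (fun ω => av_nonneg fun _ => sq_nonneg _) hc).trans ?_
    rw [div_le_iff₀ hc]
    refine h1.trans ?_
    rw [div_le_iff₀ hK0]
    rw [div_lt_iff₀ (by positivity)] at hK
    nlinarith
  have h3 : pr (fun ω => ε / 2 ≤ a ω) ≤ pr (fun ω : (Fin n → Fin K) × (Fin n → Bool) =>
      ¬ IsPTF d (fun z => f (mn ω.2 ω.1 z))) + pr (fun ω => c < L ω) := by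
    apply pr_le_add; intro ω hω
    by_cases hLω : c < L ω
    · exact Or.inr hLω
    · left
      intro hptf
      obtain ⟨q, hq, hq2⟩ := hptf.strict
      have h4 := hR K (fun z => g (mn ω.2 ω.1 z)) q (fun z => by rw [habs]; exact (hμ _).2) hq
        (by
          intro z hz
          simp only [hg] at hz ⊢
          have h5 : 0 < μ (mn ω.2 ω.1 z) := by
            rcases (hμ (mn ω.2 ω.1 z)).1.eq_or_lt with h | h
            · exact absurd (by rw [← h, zero_mul]) hz
            · exact h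
          have := mul_pos h5 (hq2 z)
          rw [mul_assoc]; exact this)
        (not_lt.1 hLω)
      simp only [habs] at h4
      exact absurd hω (not_le.2 h4)
  linarith

end PTFT
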